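import Pool.Agent.Lib.L8.FN.Defs
import Pool.Agent.Lib.L8.FC.N4

/-!
# FN, file BS (helper21): the exponents `nuB` and the numbers for the split groups and for `ν = rank + 1`
-/

namespace Pool.Agent.Lib.L8.FN

open Matrix Pool.Agent.Lib.L1S Pool.Agent.Lib.L8.FL Pool.Agent.Lib.L8.F7

noncomputable section

set_option linter.unusedSectionVars false
set_option linter.unusedVariables false

/-! ## 1. Certificates: a word, its gain, a minor of `1 - w` -/

/-- The entries of `1 - w⁻¹` for a word. -/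
def pKc {n : ℕ} (A : Matrix (Fin n) (Fin n) ℤ) (l : List (Fin n)) (k i : Fin n) : ℤ := A k i - ∑ m, FC.va A l.reverse (Pi.single k 1) m * A m i

variable {ι M N : Type} [Fintype ι] [DecidableEq ι] [AddCommGroup M] [Module ℚ M] [AddCommGroup N] [Module ℚ N]
  {P : RootPairing ι ℚ M N} [P.IsCrystallographic] [P.IsReduced] [P.IsIrreducible] [P.IsRootSystem] {b : P.Base} {n : ℕ} {A : Matrix (Fin n) (Fin n) ℤ}

theorem pK_c (e : b.support ≃ Fin n) (he : ∀ i j : b.support, P.pairingIn ℤ i j = A (e i) (e j)) (l : List (Fin n)) (k i : Fin n) : pK b (wW b (l.map e.symm)) (e.symm k) (e.symm i) = pKc A l k i := by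
  have h1 : P.pairingIn ℤ ((e.symm k : b.support) : ι) ((e.symm i : b.support) : ι) = A k i := by
    rw [he, Equiv.apply_symm_apply, Equiv.apply_symm_apply]
  have h2 : P.pairingIn ℤ ((wW b (l.map e.symm))⁻¹ ((e.symm k : b.support) : ι)) ((e.symm i : b.support) : ι) = ∑ m, FC.va A l.reverse (Pi.single k 1) m * A m i := by
    rw [FC.pairing_sum, ← Equiv.sum_comp e.symm]
    refine Finset.sum_congr rfl fun m _ => ?_
    have h5 : b.cartanMatrix (e.symm m) (e.symm i) = A m i := by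
      have h6 := he (e.symm m) (e.symm i)
      rw [Equiv.apply_symm_apply, Equiv.apply_symm_apply] at h6
      exact h6
    have h6 : mc b (e.symm m) (Sum.inr ((wW b (l.map e.symm))⁻¹ ((e.symm k : b.support) : ι))) = FC.va A l.reverse (Pi.single k 1) m := by
      rw [← FC.wW_reverse, ← List.map_reverse]
      exact FC.mc_va e he l.reverse _ _ (FC.mc_single e k) m
    rw [h5, h6]
  show P.pairingIn ℤ ((e.symm k : b.support) : ι) ((e.symm i : b.support) : ι) - P.pairingIn ℤ ((wW b (l.map e.symm))⁻¹ ((e.symm k : b.support) : ι)) ((e.symm i : b.support) : ι) = _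
  rw [h1, h2]
  rfl

theorem kr_c (e : b.support ≃ Fin n) (he : ∀ i j : b.support, P.pairingIn ℤ i j = A (e i) (e j)) {l : List (Fin n)} {r : ℕ} (g f : Fin r → Fin n) (h : (Matrix.of fun a c : Fin r => pKc A l (g a) (f c)).det ≠ 0) :
    KR b (wW b (l.map e.symm)) r := by
  refine ⟨fun a => e.symm (g a), fun a => e.symm (f a), ?_⟩
  have h1 : (Matrix.of fun a c : Fin r => pK b (wW b (l.map e.symm)) (e.symm (g a)) (e.symm (f c))) = Matrix.of fun a c : Fin r => pKc A l (g a) (f c) := by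
    ext a c
    exact pK_c e he l (g a) (f c)
  rw [h1]
  exact h

theorem gw_c (e : b.support ≃ Fin n) (he : ∀ i j : b.support, P.pairingIn ℤ i j = A (e i) (e j)) {l : List (Fin n)} {J J' : Finset (Fin n)} (h : FC.certc A l J J') {g : ℕ} (hg : (g : ℤ) ≤ FC.gc A J' Finset.univ l) :
    GW b (wW b (l.map e.symm)) g := by
  refine ⟨l.map e.symm, FC.redc_spec e he l h.1, rfl, fun c hc => ?_⟩
  have h2 := FC.gn_gc e he (J' := J') hc l h.1 Finset.univ
  rw [Finset.map_univ_equiv] at h2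
  rw [FC.cert_Js e he h]
  refine le_trans ?_ h2
  exact_mod_cast hg

/-- The inequality for the pair `(S, S')`. -/
def SqP {n : ℕ} (A : Matrix (Fin n) (Fin n) ℤ) (D ν : ℝ) (S S' : Finset (Fin n)) : Prop :=
  ∀ c : Fin n → ℝ, (∀ i, F7.pr A c i = 2) → ∀ e : Fin n → ℝ, (∀ i, F7.pr A e i = if i ∈ S then 1 else 0) → ∀ e' : Fin n → ℝ, (∀ i, F7.pr A e' i = if i ∈ S' then 1 else 0) →
    ∀ k, D * (e k + e' k) ≤ c k * (∑ k, e k + ∑ k, e' k + ν)

/-- **A line**: the word `l` of `w_J` with the gain `g`, a minor of size `r`, and the inequality. -/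
theorem line_c (e : b.support ≃ Fin n) (he : ∀ i j : b.support, P.pairingIn ℤ i j = A (e i) (e j)) {l : List (Fin n)} {J₀ J₁ : Finset (Fin n)} (h : FC.certc A l J₀ J₁) {J : Finset b.support} {w : Equiv.Perm ι}
    (hw : IsWJ b J w) (hJ : J.map e.toEmbedding = J₀) {g r : ℕ} (hg : (g : ℤ) ≤ FC.gc A J₁ Finset.univ l) (hg' : g ≤ n + 1000) {p q : Fin r → Fin n}
    (hd : (Matrix.of fun a c : Fin r => pKc A l (p a) (q c)).det ≠ 0) {D : ℝ} (hS : SqP A D ((g + r : ℕ) : ℝ) J₀ J₁) : ∃ ν : ℝ, ν ≤ nuB b w ∧ InJ b D ν J w := by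
  have hJe : J₀.map e.symm.toEmbedding = J := by
    rw [← hJ, Finset.map_map]
    ext x
    simp
  have h1 := FC.cert_IsWJ e he h
  rw [hJe] at h1
  have hww : w = wW b (l.map e.symm) := FC.isWJ_unique hw h1
  have hJs := FC.cert_Js e he h
  rw [← hww] at hJs
  have hJs' : (Js b w).map e.toEmbedding = J₁ := by
    rw [hJs, Finset.map_map]
    ext x
    simp
  refine ⟨((g + r : ℕ) : ℝ), ?_, ?_⟩
  · refine le_nuB ?_ ?_ ?_
    · rw [hww]
      exact gw_c e he h hg
    · rw [card_of e]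
      exact hg'
    · rw [hww]
      exact kr_c e he p q hd
  · refine coord_ineq fun j => ?_
    have h1 := hS _ (pr_cI e he) _ (fun i => by rw [pr_ind e he J, hJ]) _ (fun i => by rw [pr_ind e he (Js b w), hJs']) (e j)
    simp only [Equiv.symm_apply_apply] at h1
    rw [Equiv.sum_comp e.symm (FL.ex b (ind J)), Equiv.sum_comp e.symm (FL.ex b (ind (Js b w)))] at h1
    exact h1

/-! ## 2. Type `B₂` -/

theorem sqP_B2 {S : Finset (Fin 2)} {ν : ℝ} (h : ∀ x y : ℝ, x = (if (0 : Fin 2) ∈ S then 1 else 0) → y = (if (1 : Fin 2) ∈ S then 1 else 0) → 22 * (x + y / 2) ≤ 3 * (2 * (2 * x + 3 / 2 * y) + ν) ∧ 22 * (x + y) ≤ 4 * (2 * (2 * x + 3 / 2 * y) + ν)) :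
    SqP (CartanMatrix.B 2) 11 ν S S := by
  rw [FC.matB2]
  intro c hc e he e' he' k
  have c0 := hc 0
  have c1 := hc 1
  have e0 := he 0
  have e1 := he 1
  have f0 := he' 0
  have f1 := he' 1
  obtain ⟨h1, h2⟩ := h _ _ rfl rfl
  simp [F7.pr, Fin.sum_univ_succ] at c0 c1 e0 e1 f0 f1
  rw [Fin.sum_univ_two, Fin.sum_univ_two]
  rw [← e0, ← e1] at h1 h2
  have hc0 : c 0 = 3 := by linarith
  have hc1 : c 1 = 4 := by linarith
  have g0 : e' 0 = e 0 := by linarith
  have g1 : e' 1 = e 1 := by linarith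
  rw [g0, g1]
  fin_cases k
  · show 11 * (e 0 + e' 0) ≤ c 0 * _
    rw [g0, hc0]
    linarith
  · show 11 * (e 1 + e' 1) ≤ c 1 * _
    rw [g1, hc1]
    linarith

theorem ineqR_B2 (h : Typ b (CartanMatrix.B 2)) : IneqR b 11 (nuB b) := by
  obtain ⟨e, he⟩ := h
  refine ineqR_of fun J hJ w hw => ?_
  have hJ' : (J.map e.toEmbedding).Nonempty := Finset.map_nonempty.2 hJ
  have h : ∀ J : Finset (Fin 2), J.Nonempty → (J = {0} ∨ J = {1} ∨ J = {0, 1}) := by decide +kernel
  rcases h _ hJ' with h1 | h1 | h1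
  · refine line_c e he (l := [0, 1, 0]) (J₁ := {0}) (by decide +kernel) hw h1 (g := 3) (r := 1) (by decide +kernel) (by norm_num) (p := ![0]) (q := ![0]) (by decide +kernel) (sqP_B2 fun x y hx hy => ?_)
    simp at hx hy
    subst hx hy
    norm_num
  · refine line_c e he (l := [1, 0, 1]) (J₁ := {1}) (by decide +kernel) hw h1 (g := 2) (r := 1) (by decide +kernel) (by norm_num) (p := ![1]) (q := ![1]) (by decide +kernel) (sqP_B2 fun x y hx hy => ?_)
    simp at hx hy
    subst hx hy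
    norm_num
  · refine line_c e he (l := [1, 0, 1, 0]) (J₁ := {0, 1}) (by decide +kernel) hw h1 (g := 2) (r := 2) (by decide +kernel) (by norm_num) (p := ![0, 1]) (q := ![0, 1]) (by decide +kernel) (sqP_B2 fun x y hx hy => ?_)
    simp at hx hy
    subst hx hy
    norm_num

/-! ## 3. The numbers of the split groups -/

/-- Twice the numbers for which the exponents `nuB` suffice with the tables of stage 2 and `rank + 1`. -/
def DimS (b : P.Base) (D : ℕ) : Prop :=
  (Typ b (CartanMatrix.A 1) ∧ D = 6) ∨ (Typ b (CartanMatrix.A 2) ∧ D = 16) ∨ (Typ b (CartanMatrix.A 3) ∧ D = 32) ∨ (Typ b (CartanMatrix.A 4) ∧ D = 56) ∨ (Typ b (CartanMatrix.B 2) ∧ D = 22) ∨ BigE b D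

theorem ineqR_dimS {D : ℕ} (h : DimS b D) : IneqR b ((D : ℝ) / 2) (nuB b) := by
  rcases h with ⟨h, rfl⟩ | ⟨h, rfl⟩ | ⟨h, rfl⟩ | ⟨h, rfl⟩ | ⟨h, rfl⟩ | h
  · have h1 := ineqR_B_tab h FC.omA1 FC.tabA1 (fun J => by
      unfold FC.nuA1
      split_ifs <;> norm_num)
    norm_num at h1 ⊢
    exact h1
  · have h1 := ineqR_B_tab h FC.omA2 FC.tabA2 (fun J => by
      unfold FC.nuA2
      split_ifs <;> norm_num)
    norm_num at h1 ⊢
    exact h1
  · have h1 := ineqR_B_tab h FC.omA3 FC.tabA3 (fun J => by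
      unfold FC.nuA3
      split_ifs <;> norm_num)
    norm_num at h1 ⊢
    exact h1
  · have h1 := ineqR_B_tab h FC.omA4 FC.tabA4 (fun J => by
      unfold FC.nuA4
      split_ifs <;> norm_num)
    norm_num at h1 ⊢
    exact h1
  · have h1 := ineqR_B2 h
    norm_num at h1 ⊢
    exact h1
  · exact ineqR_B (ci1_big h)

/-- **The exponents `ν_w` of the split groups and the numbers `D / 2`**: the inequality (C7) and the word clause with the rank of `1 - w`. -/
theorem exists_nuS (b : P.Base) : ∃ nu : Equiv.Perm ι → ℝ, (∀ D, DimS b D → IneqR b ((D : ℝ) / 2) nu) ∧ WordR b nu := ⟨nuB b, fun _ h => ineqR_dimS h, wordR_nuB b⟩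

end

end Pool.Agent.Lib.L8.FN
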