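import Pool.Agent.Lib.L8.FL.BR

/-!
# FN (numbers of the final table), definitions and transfer (helper21)

`SqT A τ D ν S`: the inequality with the constant `D` and the exponent `ν` for the set `S` of nodes of the Cartan matrix `A`, `τ` the opposition of the diagram.
-/

namespace Pool.Agent.Lib.L8.FN

open Matrix Pool.Agent.Lib.L1S Pool.Agent.Lib.L8.FL Pool.Agent.Lib.L8.F7

noncomputable section

set_option linter.unusedSectionVars false
set_option linter.unusedVariables false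

/-- The inequality for the set `S`. -/
def SqT {n : ℕ} (A : Matrix (Fin n) (Fin n) ℤ) (τ : Fin n → Fin n) (D ν : ℝ) (S : Finset (Fin n)) : Prop :=
  ∀ c : Fin n → ℝ, (∀ i, F7.pr A c i = 2) → ∀ e : Fin n → ℝ, (∀ i, F7.pr A e i = if i ∈ S then 1 else 0) → ∀ k, D * (e k + e (τ k)) ≤ c k * (2 * ∑ k, e k + ν)

variable {ι M N : Type} [Fintype ι] [DecidableEq ι] [AddCommGroup M] [Module ℚ M] [AddCommGroup N] [Module ℚ N]
  {P : RootPairing ι ℚ M N} [P.IsCrystallographic] [P.IsReduced] [P.IsIrreducible] [P.IsRootSystem] {b : P.Base}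

/-- The inequality for `w = w_J` with the exponent `ν`. -/
def InJ (b : P.Base) (D ν : ℝ) (J : Finset b.support) (w : Equiv.Perm ι) : Prop :=
  ∀ Λ : b.support → ℝ, (∀ i, 0 ≤ al (cA b) i Λ) → D * (∑ j ∈ J, Λ j + ∑ j ∈ Js b w, Λ j) ≤ 2 * (∑ k, Λ k) * (∑ j ∈ J, rr b j + ∑ j ∈ Js b w, rr b j + ν)

/-- From the coordinates. -/
theorem coord_ineq {D ν : ℝ} {J : Finset b.support} {w : Equiv.Perm ι}
    (h : ∀ k, D * (FL.ex b (ind J) k + FL.ex b (ind (Js b w)) k) ≤ ((cI b Finset.univ k : ℤ) : ℝ) * (∑ k, FL.ex b (ind J) k + ∑ k, FL.ex b (ind (Js b w)) k + ν)) : InJ b D ν J w := by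
  intro Λ hΛ
  have h2 := Finset.sum_le_sum fun j (_ : j ∈ Finset.univ) => mul_le_mul_of_nonneg_right (h j) (hΛ j)
  have h3 : ∑ j, D * (FL.ex b (ind J) j + FL.ex b (ind (Js b w)) j) * al (cA b) j Λ = D * (∑ j ∈ J, Λ j + ∑ j ∈ Js b w, Λ j) := by
    rw [← ind_sum J Λ, ← ind_sum (Js b w) Λ, ← ex_al (ind J) Λ, ← ex_al (ind (Js b w)) Λ, ← Finset.sum_add_distrib, Finset.mul_sum]
    exact Finset.sum_congr rfl fun j _ => by ring
  have h4 : ∑ j, ((cI b Finset.univ j : ℤ) : ℝ) * (∑ k, FL.ex b (ind J) k + ∑ k, FL.ex b (ind (Js b w)) k + ν) * al (cA b) j Λ =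
      2 * (∑ k, Λ k) * (∑ j ∈ J, rr b j + ∑ j ∈ Js b w, rr b j + ν) := by
    rw [← cI_al Λ, sum_ex, sum_ex, ind_sum, ind_sum, Finset.sum_mul]
    exact Finset.sum_congr rfl fun j _ => by ring
  rw [h3, h4] at h2
  exact h2

theorem pr_ind {n : ℕ} {A : Matrix (Fin n) (Fin n) ℤ} (e : b.support ≃ Fin n) (he : ∀ i j : b.support, P.pairingIn ℤ i j = A (e i) (e j)) (J : Finset b.support) (i : Fin n) :
    F7.pr A (fun k => FL.ex b (ind J) (e.symm k)) i = if i ∈ J.map e.toEmbedding then 1 else 0 := by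
  rw [pr_xe e he, xe_ex]
  unfold ind
  have h1 : e.symm i ∈ J ↔ i ∈ J.map e.toEmbedding := by
    rw [Finset.mem_map_equiv]
  simp only [h1]

/-- **Transfer with the opposition `τ`.** -/
theorem inJ_star {n : ℕ} {A : Matrix (Fin n) (Fin n) ℤ} (e : b.support ≃ Fin n) (he : ∀ i j : b.support, P.pairingIn ℤ i j = A (e i) (e j)) {τ : Fin n → Fin n}
    (hτ : ∀ (σ : Equiv.Perm b.support) (w₀ : Equiv.Perm ι), IsOp b σ w₀ → ∀ i, e (σ i) = τ (e i)) (hττ : ∀ i, τ (τ i) = i) {D ν : ℝ} {J : Finset b.support} {w : Equiv.Perm ι} (hw : IsWJ b J w)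
    (h : SqT A τ D ν (J.map e.toEmbedding)) : InJ b D ν J w := by
  obtain ⟨σ, w₀, hop⟩ := exists_op b
  have hJs := js_eq hop hw
  refine coord_ineq fun j => ?_
  rw [hJs]
  have h1 := h _ (pr_cI e he) _ (pr_ind e he J) (e j)
  simp only [Equiv.symm_apply_apply] at h1
  rw [Equiv.sum_comp e.symm (FL.ex b (ind J))] at h1
  have hs := ex_star hop J
  have h5 : FL.ex b (ind J) (e.symm (τ (e j))) = FL.ex b (ind (J.map σ.toEmbedding)) j := by
    have h6 : e (σ (e.symm (τ (e j)))) = e j := by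
      rw [hτ σ w₀ hop, Equiv.apply_symm_apply, hττ]
    rw [← hs, e.injective h6]
  have h7 : ∑ k, FL.ex b (ind (J.map σ.toEmbedding)) k = ∑ k, FL.ex b (ind J) k := by
    rw [← Equiv.sum_comp σ (FL.ex b (ind (J.map σ.toEmbedding)))]
    exact Finset.sum_congr rfl fun k _ => hs k
  rw [h5] at h1
  rw [h7]
  refine h1.trans (le_of_eq ?_)
  ring

/-- **Transfer without the opposition**, from `J` and `J*`. -/
theorem inJ_two {n : ℕ} {A : Matrix (Fin n) (Fin n) ℤ} (e : b.support ≃ Fin n) (he : ∀ i j : b.support, P.pairingIn ℤ i j = A (e i) (e j)) {D ν : ℝ} {J : Finset b.support} {w : Equiv.Perm ι}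
    (h : SqT A id D ν (J.map e.toEmbedding)) (h' : SqT A id D ν ((Js b w).map e.toEmbedding)) : InJ b D ν J w := by
  refine coord_ineq fun j => ?_
  have h1 := h _ (pr_cI e he) _ (pr_ind e he J) (e j)
  have h2 := h' _ (pr_cI e he) _ (pr_ind e he (Js b w)) (e j)
  simp only [id, Equiv.symm_apply_apply] at h1 h2
  rw [Equiv.sum_comp e.symm (FL.ex b (ind J))] at h1
  rw [Equiv.sum_comp e.symm (FL.ex b (ind (Js b w)))] at h2
  linarith

theorem inJ_mono {D ν ν' : ℝ} {J : Finset b.support} {w : Equiv.Perm ι} (hν : ν ≤ ν') (h : InJ b D ν J w) : InJ b D ν' J w := by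
  intro Λ hΛ
  refine (h Λ hΛ).trans ?_
  have h8 : 0 ≤ ∑ k, Λ k := Finset.sum_nonneg fun k _ => ig_dom hΛ k
  exact mul_le_mul_of_nonneg_left (by linarith) (by linarith)

theorem inJ_mono_D {D D' ν : ℝ} {J : Finset b.support} {w : Equiv.Perm ι} (hD : D' ≤ D) (h : InJ b D ν J w) : InJ b D' ν J w := by
  intro Λ hΛ
  refine le_trans (mul_le_mul_of_nonneg_right hD ?_) (h Λ hΛ)
  exact add_nonneg (Finset.sum_nonneg fun j _ => ig_dom hΛ j) (Finset.sum_nonneg fun j _ => ig_dom hΛ j)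

/-- `rank + 1` from `CI1`. -/
theorem inJ_ci1 {D : ℝ} (h : CI1 b D) {J : Finset b.support} {w : Equiv.Perm ι} (hw : IsWJ b J w) : InJ b D ((Fintype.card b.support : ℝ) + 1) J w := fun Λ hΛ => c7_gen1 h hw hΛ

/-- `rank` from `CI`. -/
theorem inJ_ci {D : ℝ} (h : CI b D) {J : Finset b.support} {w : Equiv.Perm ι} (hw : IsWJ b J w) : InJ b D (Fintype.card b.support : ℝ) J w := fun Λ hΛ => c7_gen h hw hΛ

/-- **The inequality for all cells** from lower bounds of the exponents. -/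
theorem ineqR_of {D : ℝ} (h : ∀ J : Finset b.support, J.Nonempty → ∀ w, IsWJ b J w → ∃ ν : ℝ, ν ≤ nuB b w ∧ InJ b D ν J w) : IneqR b D (nuB b) := ineqR_B_of h

/-- An element `w_J` with `w_J ^ 2 = 1`: `J* = J`, and `J'* = J` only for `J' = J`. -/
theorem js_invol {J : Finset b.support} {w : Equiv.Perm ι} (hw : IsWJ b J w) (h : w⁻¹ = w) : Js b w = J := by
  have h1 := FC.Js_inv hw
  rwa [h] at h1

theorem js_invol' {J J' : Finset b.support} {w w' : Equiv.Perm ι} (hw : IsWJ b J w) (h : w⁻¹ = w) (hw' : IsWJ b J' w') (he : Js b w' = J) : J' = J := by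
  have h1 := FC.isWJ_inv hw'
  rw [he] at h1
  have h2 := FC.isWJ_unique h1 hw
  have h3 := FC.Js_inv hw'
  rw [h2] at h3
  rw [← h3]
  exact js_invol hw h

end

end Pool.Agent.Lib.L8.FN
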