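import Pool.Agent.Lib.L8.FN.NQ3
import Pool.Agent.Lib.L8.QF.W8Q

/-!
# FN, file NC (helper80): the count with the exponents `nuN` of the outer forms
-/

namespace Pool.Agent.Lib.L8.FN

set_option linter.unusedSectionVars false

open Matrix Pool.Agent.Lib.L1S Pool.Agent.Lib.L8.FL Pool.Agent.Lib.L8.F7 Pool.Agent.Lib.L8.FC Pool.Agent.Lib.L8.QF

noncomputable section

variable {ι M N : Type} [Fintype ι] [DecidableEq ι] [AddCommGroup M] [Module ℚ M] [AddCommGroup N] [Module ℚ N]
  {P : RootPairing ι ℚ M N} [P.IsCrystallographic] [P.IsReduced] [P.IsIrreducible] [P.IsRootSystem] {b : P.Base}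
  {K L : Type} [Field K] [NumberField K] [Field L] [NumberField L] [Algebra K L]

theorem certA2 : certc (CartanMatrix.A 2) [0, 1, 0] {0, 1} {0, 1} := by decide +kernel

theorem setA2 : ∀ S : Finset (Fin 2), S.Nonempty → (∃ τ, aut (CartanMatrix.A 2) τ ∧ τ ≠ 1 ∧ stb τ S) → S = {0, 1} := by decide +kernel

/-- The word of the one letter of the outer forms of `A₂`. -/
theorem ow_A2 (e : b.support ≃ Fin 2) (he : ∀ i j : b.support, P.pairingIn ℤ i j = CartanMatrix.A 2 (e i) (e j)) (Q : QS b K L) (hq : ∃ s i, (Q.da s).sp i ≠ i) :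
    QF.rw Q [e.symm 0] = ([0, 1, 0] : List (Fin 2)).map e.symm := by
  classical
  have h0 : (e.symm 0 : b.support) ≠ e.symm 1 := fun h => absurd (e.symm.injective h) (by decide)
  have h1 : ∀ j : b.support, j ≠ e.symm 0 → j = e.symm 1 := fun j hj => by
    obtain ⟨j, rfl⟩ := e.symm.surjective j
    have : j ≠ 0 := fun h => hj (by rw [h])
    have h3 : ∀ j : Fin 2, j ≠ 0 → j = 1 := by decide
    rw [h3 j this]
  have h2 : e.symm 1 ∈ QF.orb Q (e.symm 0) := by
    obtain ⟨s, i, hi⟩ := hq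
    unfold QF.orb
    rw [Finset.mem_filter]
    refine ⟨Finset.mem_univ _, s, h1 _ fun h3 => hi ?_⟩
    by_cases h4 : i = e.symm 0
    · rw [h4]
      exact h3
    · rw [h1 i h4]
      by_contra h5
      have h6 : (Q.da s).sp (e.symm 1) = e.symm 0 := by
        by_contra h7
        exact h5 (h1 _ h7)
      exact h0 ((Q.da s).sp.injective (h3.trans h6.symm))
  have h3 : ∃ j ∈ QF.orb Q (e.symm 0), j ≠ e.symm 0 ∧ b.cartanMatrix (e.symm 0) j ≠ 0 := by
    refine ⟨e.symm 1, h2, h0.symm, ?_⟩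
    have h4 := he (e.symm 0) (e.symm 1)
    rw [Equiv.apply_symm_apply, Equiv.apply_symm_apply] at h4
    have h5 : b.cartanMatrix (e.symm 0) (e.symm 1) = CartanMatrix.A 2 0 1 := h4
    rw [h5]
    decide
  have h4 : QF.ow Q (e.symm 0) = [e.symm 0, e.symm 1, e.symm 0] := by
    unfold QF.ow
    rw [dif_pos h3, h1 _ h3.choose_spec.2.1]
  show List.flatMap (QF.ow Q) [e.symm 0] = _
  rw [List.flatMap_cons, List.flatMap_nil, List.append_nil, h4]
  rfl

theorem rw_single (Q : QS b K L) (i : b.support) : QF.rw Q [i] = QF.ow Q i := by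
  show List.flatMap (QF.ow Q) [i] = _
  rw [List.flatMap_cons, List.flatMap_nil, List.append_nil]

/-- **The count for the outer forms** with the exponents `nuN`; `h3` is the finite part of the one letter of the outer forms of `A₂` with both levels. -/
theorem countQ_nuN (Q : QS b K L) [IsGalois K L] (hq : ∃ s i, (Q.da s).sp i ≠ i) (hF : FinQ Q) (hA : ArchQ Q) (hM : MsrQ Q) (hW : WordQ Q) (hN : ∀ i, nW b L (QF.ow Q i) ∈ HQ Q)
    (h3 : Typ b (CartanMatrix.A 2) → ∀ κ : ℝ, 1 < κ → ∀ e : b.support → ℝ, InvE Q e → ∀ i, PosW b κ e (QF.ow Q i) → FinG Q [i] e 3) : CountQ Q (nuN Q) := by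
  by_cases h2 : Typ b (CartanMatrix.A 2)
  · rw [nuN_A2 Q h2]
    have h3' := h3 h2
    obtain ⟨e, he⟩ := h2
    refine countQ_gen Q hA hM fun w hC ε hε _ => ?_
    obtain ⟨J, hJne, hJQ, hJ⟩ := hC
    have hJe : (({0, 1} : Finset (Fin 2)).map e.symm.toEmbedding) = J := by
      have h4 : J.map e.toEmbedding = {0, 1} := by
        obtain ⟨s, i, hi⟩ := hq
        refine setA2 _ (Finset.map_nonempty.2 hJne) ⟨tq e Q s, tq_aut e he Q s, fun h => hi ?_, tq_stb e hJQ s⟩
        have h1 := tq_apply e Q s i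
        rw [h] at h1
        exact (e.injective h1).symm
      rw [← h4, Finset.map_map]
      ext x
      simp
    have hwl : wW b (QF.rw Q [e.symm 0]) = w := by
      rw [ow_A2 e he Q hq]
      have h1 := cert_IsWJ e he certA2
      rw [hJe] at h1
      exact isWJ_unique h1 hJ
    have hred : RedW b (QF.rw Q [e.symm 0]) := by
      rw [ow_A2 e he Q hq]
      exact redc_spec e he _ certA2.1
    have hJ' : IsWJ b J (wW b (QF.rw Q [e.symm 0])) := by rw [hwl]; exact hJ
    have hP : PosW b (1 + ε) (eJ b (1 + ε) (Js b w)) (QF.rw Q [e.symm 0]) := by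
      have h1 := posW_eJ b hred hJ' (c := 1 + ε) (by linarith)
      rwa [hwl] at h1
    have hN' := hN (e.symm 0)
    rw [← rw_single] at hN'
    rw [rw_single] at hP
    refine ⟨[e.symm 0], 3, ((1 : ℕ) : ℝ), hred, hwl, hN', h3' (1 + ε) (by linarith) _ (invE_eJ (invJ_Js hJQ hJ) _) _ hP, fun J _ _ => kapQ_krq Q J hwl (krq_one hJne hJQ hJ), ?_⟩
    norm_num
  · rw [nuN_ne Q h2]
    exact countQ_nuQ Q hF hA hM hW

end

end Pool.Agent.Lib.L8.FN
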