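import Pool.Agent.Lib.L8.FN.NC
import Pool.Agent.Lib.L8.QF.C4
import Pool.Agent.Lib.L8.QF.W7Q
import Pool.Agent.Lib.L8.HS.J10

/-!
# FN, NF (helper29): the count for the outer forms, from the two remaining estimates
-/

namespace Pool.Agent.Lib.L8.FN

set_option linter.unusedSectionVars false

open Matrix Pool.Agent.Lib.L1S Pool.Agent.Lib.L8.FL Pool.Agent.Lib.L8.F7 Pool.Agent.Lib.L8.FC Pool.Agent.Lib.L8.QF

noncomputable section

variable {ι M N : Type} [Fintype ι] [DecidableEq ι] [AddCommGroup M] [Module ℚ M] [AddCommGroup N] [Module ℚ N]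
  {P : RootPairing ι ℚ M N} [P.IsCrystallographic] [P.IsReduced] [P.IsIrreducible] [P.IsRootSystem] {b : P.Base}
  {K L : Type} [Field K] [NumberField K] [Field L] [NumberField L] [Algebra K L]

/-- The orbits of the outer forms of `A₂` are adjacent pairs. -/
theorem nf_A2 (Q : QS b K L) (hq : ∃ s i, (Q.da s).sp i ≠ i) (h2 : Typ b (CartanMatrix.A 2)) (k : b.support) : ¬H29Q.Orth Q k := by
  obtain ⟨e, he⟩ := h2
  have hfin : ∀ a c : Fin 2, a ≠ c → ∀ x : Fin 2, x = a ∨ x = c := by decide
  have hent : ∀ a c : Fin 2, a ≠ c → CartanMatrix.A 2 a c ≠ 0 := by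
    intro a c
    fin_cases a <;> fin_cases c <;> simp [CartanMatrix.A]
  classical
  have h2 : ∀ a c : b.support, a ≠ c → ∀ x : b.support, x = a ∨ x = c := fun a c hac x => by
    rcases hfin (e a) (e c) (fun h => hac (e.injective h)) (e x) with h | h
    · exact Or.inl (e.injective h)
    · exact Or.inr (e.injective h)
  obtain ⟨s, i, hi⟩ := hq
  have hne : (Q.da s).sp k ≠ k := by
    intro hk
    rcases eq_or_ne i k with h | h
    · exact hi (by rw [h, hk])
    · rcases h2 i k h ((Q.da s).sp i) with h3 | h3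
      · exact hi h3
      · exact h ((Q.da s).sp.injective (h3.trans hk.symm))
  intro hO
  refine hO ⟨(Q.da s).sp k, ?_, hne, ?_⟩
  · unfold QF.orb
    rw [Finset.mem_filter]
    exact ⟨Finset.mem_univ _, s, rfl⟩
  · have h5 : b.cartanMatrix k ((Q.da s).sp k) = CartanMatrix.A 2 (e k) (e ((Q.da s).sp k)) := he k _
    rw [h5]
    exact hent _ _ fun h => hne (e.injective h).symm

/-- **The count for the outer forms**, from the estimate for the letter of an adjacent pair and the archimedean part. -/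
theorem countQ_adj (Q : QS b K L) [IsGalois K L] (hq : ∃ s i, (Q.da s).sp i ≠ i) (hR : AdjR Q) (hA : ArchQ Q) : CountQ Q (nuN Q) :=
  countQ_nuN Q hq (finQ_adj Q hR) hA (msrQ Q) (fun J hJne hJ w hw => by
      obtain ⟨l, h1, h2, h3⟩ := wordQ Q hJ hw
      exact ⟨l, h1, h2, nW_rw Q l, h3 hJne⟩) (fun i => by
      have h := nW_rw Q [i]
      rwa [H29Q.rw_one] at h)
    fun h2 _ hκ _ he i hP => HS.finG_adj Q (nf_A2 Q hq h2 i) hκ he hP

end

end Pool.Agent.Lib.L8.FN
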