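import Pool.Agent.Lib.L8.FN.NF
import Pool.Agent.Lib.L8.HS.B10
import Pool.Agent.Lib.L8.QF.C5

/-!
# FN, NG (helper29): the finite part and the count for the outer forms
-/

namespace Pool.Agent.Lib.L8.QF

set_option linter.unusedSectionVars false

open Matrix Pool.Agent.Lib.L1S Pool.Agent.Lib.L8.FL

noncomputable section

variable {ι M N : Type} [Fintype ι] [DecidableEq ι] [AddCommGroup M] [Module ℚ M] [AddCommGroup N] [Module ℚ N]
  {P : RootPairing ι ℚ M N} [P.IsCrystallographic] [P.IsReduced] [P.IsIrreducible] [P.IsRootSystem] {b : P.Base}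
  {K L : Type} [Field K] [NumberField K] [Field L] [NumberField L] [Algebra K L]

theorem adjR (Q : QS b K L) [IsGalois K L] : AdjR Q := fun _ hO _ hκ _ he hP _ hδ => HS.rankQ_adj Q (not_not.1 hO) hκ he hP hδ

/-- **The finite part (C4Q)**. -/
theorem finQ (Q : QS b K L) [IsGalois K L] : FinQ Q := finQ_adj Q (adjR Q)

end

end Pool.Agent.Lib.L8.QF

namespace Pool.Agent.Lib.L8.FN

set_option linter.unusedSectionVars false

open Matrix Pool.Agent.Lib.L1S Pool.Agent.Lib.L8.FL Pool.Agent.Lib.L8.QF

noncomputable section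

variable {ι M N : Type} [Fintype ι] [DecidableEq ι] [AddCommGroup M] [Module ℚ M] [AddCommGroup N] [Module ℚ N]
  {P : RootPairing ι ℚ M N} [P.IsCrystallographic] [P.IsReduced] [P.IsIrreducible] [P.IsRootSystem] {b : P.Base}
  {K L : Type} [Field K] [NumberField K] [Field L] [NumberField L] [Algebra K L]

/-- **The count for the outer forms**. -/
theorem countQ_full (Q : QS b K L) [IsGalois K L] (hq : ∃ s i, (Q.da s).sp i ≠ i) : CountQ Q (nuN Q) := countQ_adj Q hq (adjR Q) (archQ Q)

end

end Pool.Agent.Lib.L8.FN
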