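import Pool.Agent.Lib.L8.FN.T0

/-!
# FN, file T1 (helper80): the inequality from a table
-/

namespace Pool.Agent.Lib.L8.FN

set_option linter.unusedSectionVars false

open Matrix Pool.Agent.Lib.L1S Pool.Agent.Lib.L8.FL Pool.Agent.Lib.L8.F7 Pool.Agent.Lib.L8.FC

noncomputable section

variable {ι M N : Type} [Fintype ι] [DecidableEq ι] [AddCommGroup M] [Module ℚ M] [AddCommGroup N] [Module ℚ N]
  {P : RootPairing ι ℚ M N} [P.IsCrystallographic] [P.IsReduced] [P.IsIrreducible] [P.IsRootSystem] {b : P.Base}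

/-! ## 1. The inequality for one `J` -/

/-- The inequality for one `J` from the coordinates. -/
theorem c7_J {D ν : ℝ} {J : Finset b.support} {w : Equiv.Perm ι} (hw : IsWJ b J w) {σ : Equiv.Perm b.support} {w₀ : Equiv.Perm ι} (h : IsOp b σ w₀)
    (hin : ∀ j, D * (FL.ex b (ind J) j + FL.ex b (ind (J.map σ.toEmbedding)) j) ≤
      ((cI b Finset.univ j : ℤ) : ℝ) * (∑ k, FL.ex b (ind J) k + ∑ k, FL.ex b (ind (J.map σ.toEmbedding)) k + ν)) {Λ : b.support → ℝ} (hΛ : ∀ i, 0 ≤ al (cA b) i Λ) :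
    D * (∑ j ∈ J, Λ j + ∑ j ∈ Js b w, Λ j) ≤ 2 * (∑ k, Λ k) * (∑ j ∈ J, rr b j + ∑ j ∈ Js b w, rr b j + ν) := by
  rw [js_eq h hw]
  have h2 := Finset.sum_le_sum fun j (_ : j ∈ Finset.univ) => mul_le_mul_of_nonneg_right (hin j) (hΛ j)
  have h3 : ∑ j, D * (FL.ex b (ind J) j + FL.ex b (ind (J.map σ.toEmbedding)) j) * al (cA b) j Λ = D * (∑ j ∈ J, Λ j + ∑ j ∈ J.map σ.toEmbedding, Λ j) := by
    rw [← ind_sum J Λ, ← ind_sum (J.map σ.toEmbedding) Λ, ← ex_al (ind J) Λ, ← ex_al (ind (J.map σ.toEmbedding)) Λ, ← Finset.sum_add_distrib, Finset.mul_sum]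
    exact Finset.sum_congr rfl fun j _ => by ring
  have h4 : ∑ j, ((cI b Finset.univ j : ℤ) : ℝ) * (∑ k, FL.ex b (ind J) k + ∑ k, FL.ex b (ind (J.map σ.toEmbedding)) k + ν) * al (cA b) j Λ =
      2 * (∑ k, Λ k) * (∑ j ∈ J, rr b j + ∑ j ∈ J.map σ.toEmbedding, rr b j + ν) := by
    rw [← cI_al Λ, sum_ex, sum_ex, ind_sum, ind_sum, Finset.sum_mul]
    exact Finset.sum_congr rfl fun j _ => by ring
  rw [h3, h4] at h2
  exact h2

theorem cI_ex (b : P.Base) (k : b.support) : ((cI b Finset.univ k : ℤ) : ℝ) = FL.ex b (fun _ => 2) k := by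
  have h : (fun k => ((cI b Finset.univ k : ℤ) : ℝ)) = FL.ex b fun _ => 2 := xe_inj b fun i => by
    rw [FC.xe_ex]
    exact cI_pairR i
  exact congrFun h k

/-! ## 2. Integers -/

variable {n : ℕ} {A : Matrix (Fin n) (Fin n) ℤ}

/-- The sum of the rows of `den A⁻¹` over `S`. -/
def EZ (Om : Matrix (Fin n) (Fin n) ℤ) (S : Finset (Fin n)) (k : Fin n) : ℤ := ∑ j ∈ S, Om j k

/-- `Om = den A⁻¹`. -/
def omc (A Om : Matrix (Fin n) (Fin n) ℤ) (den : ℤ) : Prop := ∀ j l, ∑ k, Om j k * A k l = if j = l then den else 0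

instance decOmc (A Om : Matrix (Fin n) (Fin n) ℤ) (den : ℤ) : Decidable (omc A Om den) := by
  unfold omc
  infer_instance

/-- **The inequality** for `S`, the number `D / 2` and the exponent `ν`. -/
def inc (Om : Matrix (Fin n) (Fin n) ℤ) (den : ℤ) (τ : Equiv.Perm (Fin n)) (D ν : ℤ) (S : Finset (Fin n)) : Prop :=
  ∀ k, D * den * (EZ Om S k + EZ Om (S.map τ.toEmbedding) k) ≤ 4 * EZ Om Finset.univ k * (∑ m, EZ Om S m + ∑ m, EZ Om (S.map τ.toEmbedding) m + den * ν)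

instance decInc (Om : Matrix (Fin n) (Fin n) ℤ) (den : ℤ) (τ : Equiv.Perm (Fin n)) (D ν : ℤ) (S : Finset (Fin n)) : Decidable (inc Om den τ D ν S) := by
  unfold inc
  infer_instance

theorem ex_EZ (e : b.support ≃ Fin n) (he : ∀ i j : b.support, P.pairingIn ℤ i j = A (e i) (e j)) {Om : Matrix (Fin n) (Fin n) ℤ} {den : ℤ} (hd : 0 < den) (hOm : omc A Om den) (J : Finset b.support) (k : Fin n) :
    FL.ex b (ind J) (e.symm k) = (EZ Om (J.map e.toEmbedding) k : ℝ) / den := by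
  have hd' : (den : ℝ) ≠ 0 := by exact_mod_cast hd.ne'
  have h0 : ∀ j l, ∑ k, ((Om j k : ℝ) / den) * ((A k l : ℤ) : ℝ) = if j = l then 1 else 0 := by
    intro j l
    have h1 : ((∑ k, Om j k * A k l : ℤ) : ℝ) = ((if j = l then den else 0 : ℤ) : ℝ) := by rw [hOm]
    push_cast at h1
    have h2 : ∑ k, ((Om j k : ℝ) / den) * ((A k l : ℤ) : ℝ) = (∑ k, (Om j k : ℝ) * (A k l : ℝ)) / den := by
      rw [Finset.sum_div]
      exact Finset.sum_congr rfl fun k _ => by ring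
    rw [h2, h1]
    split_ifs
    · exact div_self hd'
    · exact zero_div _
  unfold FL.ex EZ
  rw [ind_sum, Finset.sum_map]
  push_cast
  rw [Finset.sum_div]
  refine Finset.sum_congr rfl fun j _ => ?_
  have h1 := om_of (b := b) e he (fun j k => (Om j k : ℝ) / den) h0 (e j) k
  rw [Equiv.symm_apply_apply] at h1
  exact h1

theorem cI_EZ (e : b.support ≃ Fin n) (he : ∀ i j : b.support, P.pairingIn ℤ i j = A (e i) (e j)) {Om : Matrix (Fin n) (Fin n) ℤ} {den : ℤ} (hd : 0 < den) (hOm : omc A Om den) (k : Fin n) :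
    ((cI b Finset.univ (e.symm k) : ℤ) : ℝ) = 2 * ((EZ Om Finset.univ k : ℝ) / den) := by
  have h1 := ex_EZ e he hd hOm Finset.univ k
  have h2 : (Finset.univ : Finset b.support).map e.toEmbedding = Finset.univ := by
    ext x
    simp
  rw [h2] at h1
  rw [cI_ex, ← h1]
  unfold FL.ex
  rw [Finset.mul_sum]
  refine Finset.sum_congr rfl fun j _ => ?_
  unfold ind
  rw [if_pos (Finset.mem_univ j), one_mul]

/-- **The inequality for one `J`** from the integers. -/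
theorem inc_spec (e : b.support ≃ Fin n) (he : ∀ i j : b.support, P.pairingIn ℤ i j = A (e i) (e j)) {Om : Matrix (Fin n) (Fin n) ℤ} {den : ℤ} (hd : 0 < den) (hOm : omc A Om den)
    {l₀ : List (Fin n)} {τ : Equiv.Perm (Fin n)} (h₀ : opc A l₀ τ) {D ν : ℤ} {J : Finset b.support} (hin : inc Om den τ D ν (J.map e.toEmbedding)) {w : Equiv.Perm ι} (hw : IsWJ b J w)
    {Λ : b.support → ℝ} (hΛ : ∀ i, 0 ≤ al (cA b) i Λ) :
    (D : ℝ) / 2 * (∑ j ∈ J, Λ j + ∑ j ∈ Js b w, Λ j) ≤ 2 * (∑ k, Λ k) * (∑ j ∈ J, rr b j + ∑ j ∈ Js b w, rr b j + (ν : ℝ)) := by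
  refine c7_J hw (opc_spec e he h₀) (fun j => ?_) hΛ
  have hd' : (0 : ℝ) < den := by exact_mod_cast hd
  have hS : (J.map (tauB e τ).toEmbedding).map e.toEmbedding = (J.map e.toEmbedding).map τ.toEmbedding := by
    rw [Finset.map_map, Finset.map_map]
    congr 1
    ext j
    simp [tauB]
  have hE := ex_EZ e he hd hOm J
  have hE' := ex_EZ e he hd hOm (J.map (tauB e τ).toEmbedding)
  rw [hS] at hE'
  have hs : ∑ k, FL.ex b (ind J) k = (∑ m, (EZ Om (J.map e.toEmbedding) m : ℝ)) / den := by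
    rw [← Equiv.sum_comp e.symm, Finset.sum_div]
    exact Finset.sum_congr rfl fun k _ => hE k
  have hs' : ∑ k, FL.ex b (ind (J.map (tauB e τ).toEmbedding)) k = (∑ m, (EZ Om ((J.map e.toEmbedding).map τ.toEmbedding) m : ℝ)) / den := by
    rw [← Equiv.sum_comp e.symm, Finset.sum_div]
    exact Finset.sum_congr rfl fun k _ => hE' k
  obtain ⟨k, rfl⟩ := e.symm.surjective j
  rw [hs, hs', hE k, hE' k, cI_EZ e he hd hOm k]
  have h1 : ((D * den * (EZ Om (J.map e.toEmbedding) k + EZ Om ((J.map e.toEmbedding).map τ.toEmbedding) k) : ℤ) : ℝ) ≤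
      ((4 * EZ Om Finset.univ k * (∑ m, EZ Om (J.map e.toEmbedding) m + ∑ m, EZ Om ((J.map e.toEmbedding).map τ.toEmbedding) m + den * ν) : ℤ) : ℝ) := by
    exact_mod_cast hin k
  push_cast at h1
  have e1 : (D : ℝ) / 2 * ((EZ Om (J.map e.toEmbedding) k : ℝ) / den + (EZ Om ((J.map e.toEmbedding).map τ.toEmbedding) k : ℝ) / den) =
      (D * den * ((EZ Om (J.map e.toEmbedding) k : ℝ) + (EZ Om ((J.map e.toEmbedding).map τ.toEmbedding) k : ℝ))) / (2 * den ^ 2) := by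
    field_simp
  have e2 : 2 * ((EZ Om Finset.univ k : ℝ) / den) * ((∑ m, (EZ Om (J.map e.toEmbedding) m : ℝ)) / den + (∑ m, (EZ Om ((J.map e.toEmbedding).map τ.toEmbedding) m : ℝ)) / den + ν) =
      (4 * (EZ Om Finset.univ k : ℝ) * (∑ m, (EZ Om (J.map e.toEmbedding) m : ℝ) + ∑ m, (EZ Om ((J.map e.toEmbedding).map τ.toEmbedding) m : ℝ) + den * ν)) / (2 * den ^ 2) := by
    field_simp
    ring
  rw [e1, e2]
  exact div_le_div_of_nonneg_right h1 (by positivity)

/-! ## 3. The table -/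

/-- A lower bound `ν` for the exponent of `w_J`, by a word and a minor. -/
def Spec (A : Matrix (Fin n) (Fin n) ℤ) (S : Finset (Fin n)) (ν : ℤ) : Prop :=
  ∃ (l : List (Fin n)) (J' : Finset (Fin n)) (g r : ℕ) (f f' : Fin r → Fin n), certc A l S J' ∧ (g : ℤ) ≤ FC.gc A J' Finset.univ l ∧ rkc A l r f f' ∧ ν ≤ g + r ∧ g ≤ 1000

theorem spec_le (e : b.support ≃ Fin n) (he : ∀ i j : b.support, P.pairingIn ℤ i j = A (e i) (e j)) {S : Finset (Fin n)} {ν : ℤ} (h : Spec A S ν) {J : Finset b.support} (hJ : J.map e.toEmbedding = S)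
    {w : Equiv.Perm ι} (hw : IsWJ b J w) : (ν : ℝ) ≤ nuB b w := by
  obtain ⟨l, J', g, r, f, f', hc, hg, hr, hν, hb⟩ := h
  have hJe : S.map e.symm.toEmbedding = J := by
    rw [← hJ, Finset.map_map]
    ext x
    simp
  have h1 := cert_IsWJ e he hc
  rw [hJe] at h1
  have hww : w = wW b (l.map e.symm) := isWJ_unique hw h1
  have hJs := cert_Js e he hc
  rw [← hww] at hJs
  have h2 : GW b w g := by
    refine ⟨l.map e.symm, redc_spec e he l hc.1, hww.symm, fun c hc1 => ?_⟩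
    have h2 := gn_gc e he (J' := J') hc1 l hc.1 Finset.univ
    rw [Finset.map_univ_equiv] at h2
    rw [hJs]
    have h3 : (g : ℝ) ≤ (FC.gc A J' Finset.univ l : ℝ) := by exact_mod_cast hg
    exact h3.trans h2
  have h3 : KR b w r := by
    rw [hww]
    exact rkc_spec e he hr
  have h4 := le_nuB h2 (by omega) h3
  refine le_trans ?_ h4
  have h5 : ν ≤ ((g + r : ℕ) : ℤ) := by
    push_cast
    exact hν
  exact_mod_cast h5

/-- **The table method**: for every nonempty `S` an exponent `ν S` which is at most `rank + 1` or has a certificate, and the inequality for integers. -/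
theorem ineqR_tab (h : Typ b A) {Om : Matrix (Fin n) (Fin n) ℤ} {den : ℤ} (hd : 0 < den) (hOm : omc A Om den) {l₀ : List (Fin n)} {τ : Equiv.Perm (Fin n)} (h₀ : opc A l₀ τ) {D : ℕ}
    (nu : Finset (Fin n) → ℤ) (hnu : ∀ S, S.Nonempty → nu S ≤ n + 1 ∨ Spec A S (nu S)) (hin : ∀ S, S.Nonempty → inc Om den τ D (nu S) S) : IneqR b ((D : ℝ) / 2) (nuB b) := by
  obtain ⟨e, he⟩ := h
  refine ineqR_B_of fun J hJ w hw => ?_
  have hS : (J.map e.toEmbedding).Nonempty := Finset.map_nonempty.2 hJ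
  refine ⟨(nu (J.map e.toEmbedding) : ℝ), ?_, fun Λ hΛ => ?_⟩
  · rcases hnu _ hS with h1 | h1
    · have h2 := rank_nuB (b := b) (w := w) ⟨J, hJ, hw⟩
      rw [card_of e] at h2
      refine le_trans ?_ h2
      exact_mod_cast h1
    · exact spec_le e he h1 rfl hw
  · have h1 := inc_spec e he hd hOm h₀ (hin _ hS) hw hΛ
    push_cast at h1
    exact h1

end

end Pool.Agent.Lib.L8.FN
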