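import Pool.Agent.Lib.L8.QF.KR
import Pool.Agent.Lib.L8.QF.G0
import Pool.Agent.Lib.L8.FN.Defs
import Pool.Agent.Lib.L8.FN.T1

/-!
# FN, file NQ0 (helper80): the exponents `rank + rank (1 - w)` of the quasi-split groups: `rank + 1`, the inequality from `J`, minors from words and orbits
-/

namespace Pool.Agent.Lib.L8.FN

set_option linter.unusedSectionVars false

open Matrix Pool.Agent.Lib.L1S Pool.Agent.Lib.L8.FL Pool.Agent.Lib.L8.F7 Pool.Agent.Lib.L8.FC Pool.Agent.Lib.L8.QF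

noncomputable section

variable {ι M N : Type} [Fintype ι] [DecidableEq ι] [AddCommGroup M] [Module ℚ M] [AddCommGroup N] [Module ℚ N]
  {P : RootPairing ι ℚ M N} [P.IsCrystallographic] [P.IsReduced] [P.IsIrreducible] [P.IsRootSystem] {b : P.Base}
  {K L : Type} [Field K] [NumberField K] [Field L] [NumberField L] [Algebra K L]

/-! ## 1. `κ ≥ 1` -/

theorem ck_nonpos (b : P.Base) (j : b.support) {β : ι} (h : ¬b.IsPos β) : ck b j β ≤ 0 := by
  have h1 : (mc b j (Sum.inr β) : ℚ) ≤ 0 := by exact_mod_cast mc_neg b h j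
  exact div_nonpos_of_nonpos_of_nonneg (mul_nonpos_of_nonpos_of_nonneg h1 (sq_pos _).le) (sq_pos _).le

theorem isWJ_neg {J : Finset b.support} {w : Equiv.Perm ι} (hw : IsWJ b J w) {j : b.support} (hj : j ∈ J) : ¬b.IsPos (w (j : ι)) := by
  rw [hw.2 _ (b.isPos_of_mem_support j.2)]
  have h1 : dJ b J (Sum.inr (j : ι)) = 1 := by
    unfold dJ
    rw [Finset.sum_eq_single j]
    · rw [mc_simple, if_pos rfl]
    · intro k _ hk
      rw [mc_simple, if_neg fun h => hk h.symm]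
    · intro h
      exact absurd hj h
  rw [h1]
  exact one_ne_zero

theorem self_orb (Q : QS b K L) (i : b.support) : i ∈ orb Q i := by
  classical
  unfold QF.orb
  rw [Finset.mem_filter]
  refine ⟨Finset.mem_univ _, 1, Subtype.ext ?_⟩
  show Q.act 1 (i : ι) = i
  rw [map_one]
  rfl

theorem orb_sub {Q : QS b K L} {J : Finset b.support} (hJ : InvJ Q J) {i : b.support} (hi : i ∈ J) : orb Q i ⊆ J := by
  classical
  intro j hj
  unfold QF.orb at hj
  rw [Finset.mem_filter] at hj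
  obtain ⟨s, rfl⟩ := hj.2
  exact (hJ s i).2 hi

/-- **`1 - w` is not `0` on the cocharacters which are fixed by the Galois group.** -/
theorem krq_one {Q : QS b K L} {J : Finset b.support} (hne : J.Nonempty) (hJ : InvJ Q J) {w : Equiv.Perm ι} (hw : IsWJ b J w) : KRQ Q w 1 := by
  obtain ⟨i, hi⟩ := hne
  have h1 : ∃ k, pQ Q w k i ≠ 0 := by
    by_contra hcon
    push Not at hcon
    set x : b.support → ℚ := fun m => ∑ j ∈ orb Q i, (ck b m (j : ι) - ck b m (w (j : ι))) with hx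
    have h2 : (b.cartanMatrix.map (Int.cast : ℤ → ℚ)).mulVec x = 0 := by
      funext k
      have h3 := hcon k
      unfold pQ at h3
      have h4 : ((∑ j ∈ orb Q i, FL.pK b w k j : ℤ) : ℚ) = 0 := by
        rw [h3]
        rfl
      push_cast at h4
      refine Eq.trans ?_ h4
      show ∑ m, (b.cartanMatrix k m : ℚ) * x m = ∑ j ∈ orb Q i, (FL.pK b w k j : ℚ)
      simp only [hx, Finset.mul_sum]
      rw [Finset.sum_comm]
      refine Finset.sum_congr rfl fun j _ => ?_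
      rw [pK_eq hw.1]
      push_cast
      have e1 : ((P.pairingIn ℤ (k : ι) (j : ι) : ℤ) : ℚ) = P.pairing (k : ι) (j : ι) := P.algebraMap_pairingIn ℤ _ _
      have e2 : ((P.pairingIn ℤ (k : ι) (w (j : ι)) : ℤ) : ℚ) = P.pairing (k : ι) (w (j : ι)) := P.algebraMap_pairingIn ℤ _ _
      rw [e1, e2, pairing_ck, pairing_ck, ← Finset.sum_sub_distrib]
      exact Finset.sum_congr rfl fun m _ => by ring
    have h3 : x = 0 := by
      refine Matrix.eq_zero_of_mulVec_eq_zero ?_ h2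
      have h4 := Matrix.nondegenerate_iff_det_ne_zero.1 b.cartanMatrix_nondegenerate
      have h5 : (b.cartanMatrix.map (Int.cast : ℤ → ℚ)).det = ((b.cartanMatrix.det : ℤ) : ℚ) := (RingHom.map_det (Int.castRingHom ℚ) b.cartanMatrix).symm
      rw [h5]
      exact_mod_cast h4
    have h4 : (1 : ℚ) ≤ x i := by
      have h5 : ∀ j ∈ orb Q i, (0 : ℚ) ≤ ck b i (j : ι) - ck b i (w (j : ι)) := fun j hj => by
        have h6 := ck_nonneg b i (b.isPos_of_mem_support j.2)
        have h7 := ck_nonpos b i (isWJ_neg hw (orb_sub hJ hi hj))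
        linarith
      have h6 := Finset.single_le_sum h5 (self_orb Q i)
      have h7 := ck_nonpos b i (isWJ_neg hw hi)
      rw [ck_simple, if_pos rfl] at h6
      have h8 : x i = ∑ j ∈ orb Q i, (ck b i (j : ι) - ck b i (w (j : ι))) := rfl
      rw [h8]
      linarith
    rw [h3] at h4
    have : (1 : ℚ) ≤ 0 := h4
    linarith
  obtain ⟨k, hk⟩ := h1
  refine ⟨fun _ => k, fun _ => i, ?_⟩
  rw [Matrix.det_fin_one]
  exact hk

theorem one_le_kapW {Q : QS b K L} {w : Equiv.Perm ι} (h : IsCQ Q w) : 1 ≤ kapW Q w := by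
  obtain ⟨J, h1, h2, h3⟩ := h
  exact le_kapW (krq_one h1 h2 h3)

/-- `rank + 1 ≤ ν_w`. -/
theorem rank_nuQ {Q : QS b K L} {w : Equiv.Perm ι} (h : IsCQ Q w) : (Fintype.card b.support : ℝ) + 1 ≤ nuQ Q w := by
  unfold nuQ
  have h1 : (1 : ℝ) ≤ (kapW Q w : ℝ) := by exact_mod_cast one_le_kapW h
  linarith

theorem le_nuQ {Q : QS b K L} {w : Equiv.Perm ι} {r : ℕ} (h : KRQ Q w r) : (Fintype.card b.support : ℝ) + r ≤ nuQ Q w := by
  unfold nuQ
  have h1 : (r : ℝ) ≤ (kapW Q w : ℝ) := by exact_mod_cast le_kapW h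
  linarith

/-! ## 2. The inequality -/

/-- The inequality from lower bounds of the exponents. -/
theorem ineqQ_of_J (Q : QS b K L) {D : ℝ} {nu : Equiv.Perm ι → ℝ} (h1 : ∀ w, IsCQ Q w → 1 ≤ nu w)
    (h : ∀ J : Finset b.support, J.Nonempty → InvJ Q J → ∀ w, IsWJ b J w → ∃ ν : ℝ, ν ≤ nu w ∧ InJ b D ν J w) : IneqQ Q D nu := by
  intro w hC
  refine ⟨h1 w hC, fun Λ hΛ _ => ?_⟩
  obtain ⟨J, hJ, hJQ, hw⟩ := hC
  obtain ⟨ν, hν, h2⟩ := h J hJ hJQ w hw
  rw [sum_xw, FC.Js_inv hw]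
  refine (h2 Λ hΛ).trans ?_
  have h8 : 0 ≤ ∑ k, Λ k := Finset.sum_nonneg fun k _ => ig_dom hΛ k
  exact mul_le_mul_of_nonneg_left (by linarith) (by linarith)

theorem one_le_nuQ {Q : QS b K L} {w : Equiv.Perm ι} (h : IsCQ Q w) : 1 ≤ nuQ Q w := by
  have h1 := rank_nuQ h
  have h2 : (0 : ℝ) ≤ (Fintype.card b.support : ℝ) := Nat.cast_nonneg _
  linarith

/-- **The numbers for `rank + 1`.** -/
theorem ineqQ_ci1 (Q : QS b K L) {D : ℝ} (h : CI1 b D) : IneqQ Q D (nuQ Q) :=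
  ineqQ_of_J Q (fun _ hw => one_le_nuQ hw) fun J hJ hJQ _ hw => ⟨_, rank_nuQ ⟨J, hJ, hJQ, hw⟩, inJ_ci1 h hw⟩

/-! ## 3. Minors from a word and the orbits -/

variable {n : ℕ} {A : Matrix (Fin n) (Fin n) ℤ}

/-- The entries for the orbits `O`. -/
def pqc (A : Matrix (Fin n) (Fin n) ℤ) (O : Fin n → Finset (Fin n)) (l : List (Fin n)) (k i : Fin n) : ℤ := ∑ j ∈ O i, pkc A l k j

theorem pqc_spec (e : b.support ≃ Fin n) (he : ∀ i j : b.support, P.pairingIn ℤ i j = A (e i) (e j)) {Q : QS b K L} {O : Fin n → Finset (Fin n)} {i : Fin n}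
    (hO : orb Q (e.symm i) = (O i).map e.symm.toEmbedding) (l : List (Fin n)) (k : Fin n) : pQ Q (wW b (l.map e.symm)) (e.symm k) (e.symm i) = pqc A O l k i := by
  unfold pQ pqc
  rw [hO, Finset.sum_map]
  exact Finset.sum_congr rfl fun j _ => pkc_spec e he l k j

/-- The certificate for the rank. -/
def rqc (A : Matrix (Fin n) (Fin n) ℤ) (O : Fin n → Finset (Fin n)) (l : List (Fin n)) (r : ℕ) (f g : Fin r → Fin n) : Prop := (Matrix.of fun a c => pqc A O l (f a) (g c)).det ≠ 0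

instance decRqc (A : Matrix (Fin n) (Fin n) ℤ) (O : Fin n → Finset (Fin n)) (l : List (Fin n)) (r : ℕ) (f g : Fin r → Fin n) : Decidable (rqc A O l r f g) := by
  unfold rqc
  infer_instance

theorem rqc_spec (e : b.support ≃ Fin n) (he : ∀ i j : b.support, P.pairingIn ℤ i j = A (e i) (e j)) {Q : QS b K L} {O : Fin n → Finset (Fin n)} {l : List (Fin n)} {r : ℕ} {f g : Fin r → Fin n}
    (hO : ∀ c, orb Q (e.symm (g c)) = (O (g c)).map e.symm.toEmbedding) (h : rqc A O l r f g) : KRQ Q (wW b (l.map e.symm)) r := by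
  refine ⟨fun a => e.symm (f a), fun c => e.symm (g c), ?_⟩
  have e1 : (Matrix.of fun a c => pQ Q (wW b (l.map e.symm)) (e.symm (f a)) (e.symm (g c))) = Matrix.of fun a c => pqc A O l (f a) (g c) := by
    refine Matrix.ext fun a c => ?_
    exact pqc_spec e he (hO c) l _
  rw [e1]
  exact h

/-- **The inequality for one `J`** with the exponent `rank + r`. -/
theorem line_q (e : b.support ≃ Fin n) (he : ∀ i j : b.support, P.pairingIn ℤ i j = A (e i) (e j)) {Om : Matrix (Fin n) (Fin n) ℤ} {den : ℤ} (hd : 0 < den) (hOm : omc A Om den)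
    {l₀ : List (Fin n)} {τ : Equiv.Perm (Fin n)} (h₀ : opc A l₀ τ) {Q : QS b K L} {O : Fin n → Finset (Fin n)} {l : List (Fin n)} {r : ℕ} {f g : Fin r → Fin n}
    (hO : ∀ c, orb Q (e.symm (g c)) = (O (g c)).map e.symm.toEmbedding) (h : rqc A O l r f g) {S S' : Finset (Fin n)} (hc : certc A l S S') {J : Finset b.support} (hJ : J.map e.toEmbedding = S)
    {w : Equiv.Perm ι} (hw : IsWJ b J w) {D : ℕ} (hin : inc Om den τ D (n + r) S) : ∃ ν : ℝ, ν ≤ nuQ Q w ∧ InJ b ((D : ℝ) / 2) ν J w := by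
  have hJe : S.map e.symm.toEmbedding = J := by
    rw [← hJ, Finset.map_map]
    ext x
    simp
  have h1 := cert_IsWJ e he hc
  rw [hJe] at h1
  have hww : w = wW b (l.map e.symm) := isWJ_unique hw h1
  refine ⟨(Fintype.card b.support : ℝ) + r, le_nuQ ?_, fun Λ hΛ => ?_⟩
  · rw [hww]
    exact rqc_spec e he hO h
  · rw [← hJ] at hin
    have h2 := inc_spec e he hd hOm h₀ hin hw hΛ
    rw [card_of e]
    push_cast at h2 ⊢
    exact h2

/-- **The inequality for one `J`** with the exponent `rank + 1`. -/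
theorem line_1 (e : b.support ≃ Fin n) (he : ∀ i j : b.support, P.pairingIn ℤ i j = A (e i) (e j)) {Om : Matrix (Fin n) (Fin n) ℤ} {den : ℤ} (hd : 0 < den) (hOm : omc A Om den)
    {l₀ : List (Fin n)} {τ : Equiv.Perm (Fin n)} (h₀ : opc A l₀ τ) {Q : QS b K L} {S : Finset (Fin n)} {J : Finset b.support} (hJ : J.map e.toEmbedding = S) (hne : J.Nonempty) (hJQ : InvJ Q J)
    {w : Equiv.Perm ι} (hw : IsWJ b J w) {D : ℕ} (hin : inc Om den τ D (n + 1) S) : ∃ ν : ℝ, ν ≤ nuQ Q w ∧ InJ b ((D : ℝ) / 2) ν J w := by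
  refine ⟨_, rank_nuQ ⟨J, hne, hJQ, hw⟩, fun Λ hΛ => ?_⟩
  rw [← hJ] at hin
  have h2 := inc_spec e he hd hOm h₀ hin hw hΛ
  rw [card_of e]
  push_cast at h2 ⊢
  exact h2

end

end Pool.Agent.Lib.L8.FN
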