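import Pool.Agent.Lib.L8.FN.NQ0

/-!
# FN, file NQ1 (helper80): the numbers of the quasi-split groups from a table
-/

namespace Pool.Agent.Lib.L8.FN

set_option linter.unusedSectionVars false

open Matrix Pool.Agent.Lib.L1S Pool.Agent.Lib.L8.FL Pool.Agent.Lib.L8.F7 Pool.Agent.Lib.L8.FC Pool.Agent.Lib.L8.QF

noncomputable section

variable {ι M N : Type} [Fintype ι] [DecidableEq ι] [AddCommGroup M] [Module ℚ M] [AddCommGroup N] [Module ℚ N]
  {P : RootPairing ι ℚ M N} [P.IsCrystallographic] [P.IsReduced] [P.IsIrreducible] [P.IsRootSystem] {b : P.Base}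
  {K L : Type} [Field K] [NumberField K] [Field L] [NumberField L] [Algebra K L] {n : ℕ} {A : Matrix (Fin n) (Fin n) ℤ}

/-! ## 1. The action in coordinates -/

/-- The action on `Fin n`. -/
def tq (e : b.support ≃ Fin n) (Q : QS b K L) (s : L ≃ₐ[K] L) : Equiv.Perm (Fin n) := (e.symm.trans (Q.da s).sp).trans e

theorem tq_apply (e : b.support ≃ Fin n) (Q : QS b K L) (s : L ≃ₐ[K] L) (i : b.support) : tq e Q s (e i) = e ((Q.da s).sp i) := by
  show e ((Q.da s).sp (e.symm (e i))) = _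
  rw [Equiv.symm_apply_apply]

/-- `τ` preserves the Cartan matrix. -/
def aut (A : Matrix (Fin n) (Fin n) ℤ) (τ : Equiv.Perm (Fin n)) : Prop := ∀ i j, A (τ i) (τ j) = A i j

instance decAut (A : Matrix (Fin n) (Fin n) ℤ) (τ : Equiv.Perm (Fin n)) : Decidable (aut A τ) := by
  unfold aut
  infer_instance

/-- `S` is stable under `τ`. -/
def stb (τ : Equiv.Perm (Fin n)) (S : Finset (Fin n)) : Prop := ∀ i, τ i ∈ S ↔ i ∈ S

instance decStb (τ : Equiv.Perm (Fin n)) (S : Finset (Fin n)) : Decidable (stb τ S) := by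
  unfold stb
  infer_instance

theorem tq_aut (e : b.support ≃ Fin n) (he : ∀ i j : b.support, P.pairingIn ℤ i j = A (e i) (e j)) (Q : QS b K L) (s : L ≃ₐ[K] L) : aut A (tq e Q s) := by
  intro i j
  obtain ⟨i, rfl⟩ := e.surjective i
  obtain ⟨j, rfl⟩ := e.surjective j
  rw [tq_apply, tq_apply, ← he, ← he]
  exact (Q.da s).pair _ _

theorem tq_stb (e : b.support ≃ Fin n) {Q : QS b K L} {J : Finset b.support} (hJ : InvJ Q J) (s : L ≃ₐ[K] L) : stb (tq e Q s) (J.map e.toEmbedding) := by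
  intro i
  obtain ⟨i, rfl⟩ := e.surjective i
  rw [tq_apply]
  have h1 : ∀ k, e k ∈ J.map e.toEmbedding ↔ k ∈ J := fun k => by
    rw [Finset.mem_map_equiv, Equiv.symm_apply_apply]
  rw [h1, h1]
  exact hJ s i

/-- The orbits for an action by `1` and `ρ`. -/
theorem orb_two (e : b.support ≃ Fin n) {Q : QS b K L} {ρ : Equiv.Perm (Fin n)} (h1 : ∀ s, tq e Q s = 1 ∨ tq e Q s = ρ) (h2 : ∃ s, tq e Q s = ρ) (i : Fin n) :
    orb Q (e.symm i) = ({i, ρ i} : Finset (Fin n)).map e.symm.toEmbedding := by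
  classical
  ext j
  obtain ⟨j, rfl⟩ := e.symm.surjective j
  have e1 : ∀ s, (Q.da s).sp (e.symm i) = e.symm j ↔ tq e Q s i = j := fun s => by
    show _ ↔ e ((Q.da s).sp (e.symm i)) = j
    exact e.eq_symm_apply
  have e2 : e.symm j ∈ ({i, ρ i} : Finset (Fin n)).map e.symm.toEmbedding ↔ j = i ∨ j = ρ i := by
    rw [Finset.mem_map_equiv, Equiv.symm_symm, Equiv.apply_symm_apply, Finset.mem_insert, Finset.mem_singleton]
  rw [e2]
  unfold QF.orb
  rw [Finset.mem_filter]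
  simp only [e1]
  constructor
  · rintro ⟨-, s, rfl⟩
    rcases h1 s with h | h
    · rw [h]
      exact Or.inl rfl
    · rw [h]
      exact Or.inr rfl
  · rintro (rfl | rfl)
    · refine ⟨Finset.mem_univ _, 1, ?_⟩
      show e ((Q.da 1).sp (e.symm j)) = j
      have h3 : (Q.da 1).sp (e.symm j) = e.symm j := by
        apply Subtype.ext
        show Q.act 1 ((e.symm j : b.support) : ι) = _
        rw [map_one]
        rfl
      rw [h3, Equiv.apply_symm_apply]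
    · obtain ⟨s, hs⟩ := h2
      exact ⟨Finset.mem_univ _, s, by rw [hs]⟩

/-! ## 2. The table -/

/-- A line of the table: `S` is stable at most under `ρ`, a word, a minor. -/
def LineQ (A Om : Matrix (Fin n) (Fin n) ℤ) (den : ℤ) (τ₀ : Equiv.Perm (Fin n)) (D : ℕ) (S : Finset (Fin n)) : Prop :=
  ∃ (ρ : Equiv.Perm (Fin n)) (l : List (Fin n)) (S' : Finset (Fin n)) (r : ℕ) (f g : Fin r → Fin n), (∀ τ, aut A τ → stb τ S → τ = 1 ∨ τ = ρ) ∧ rqc A (fun i => {i, ρ i}) l r f g ∧ certc A l S S' ∧ inc Om den τ₀ D (n + r) S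

/-- **The table method.** -/
theorem ineqQ_tab (h : Typ b A) {Om : Matrix (Fin n) (Fin n) ℤ} {den : ℤ} (hd : 0 < den) (hOm : omc A Om den) {l₀ : List (Fin n)} {τ₀ : Equiv.Perm (Fin n)} (h₀ : opc A l₀ τ₀) {D : ℕ}
    (Q : QS b K L) (hq : ∃ s i, (Q.da s).sp i ≠ i) (hin : ∀ S, S.Nonempty → (∃ τ, aut A τ ∧ τ ≠ 1 ∧ stb τ S) → inc Om den τ₀ D (n + 1) S ∨ LineQ A Om den τ₀ D S) : IneqQ Q ((D : ℝ) / 2) (nuQ Q) := by
  obtain ⟨e, he⟩ := h
  have hq' : ∃ s, tq e Q s ≠ 1 := by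
    obtain ⟨s, i, hi⟩ := hq
    refine ⟨s, fun h => hi ?_⟩
    have h1 := tq_apply e Q s i
    rw [h] at h1
    exact (e.injective h1).symm
  refine ineqQ_of_J Q (fun _ hw => one_le_nuQ hw) fun J hJ hJQ w hw => ?_
  obtain ⟨s, hs⟩ := hq'
  rcases hin _ (Finset.map_nonempty.2 hJ) ⟨tq e Q s, tq_aut e he Q s, hs, tq_stb e hJQ s⟩ with h1 | ⟨ρ, l, S', r, f, g, h1, h2, h3, h4⟩
  · exact line_1 e he hd hOm h₀ rfl hJ hJQ hw h1
  · have h5 : ∀ s, tq e Q s = 1 ∨ tq e Q s = ρ := fun s => h1 _ (tq_aut e he Q s) (tq_stb e hJQ s)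
    have h6 : ∃ s, tq e Q s = ρ := ⟨s, (h5 s).resolve_left hs⟩
    exact line_q e he hd hOm h₀ (O := fun i => {i, ρ i}) (fun c => orb_two e h5 h6 _) h2 h3 rfl hw h4

end

end Pool.Agent.Lib.L8.FN
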