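import Pool.Agent.Lib.L8.FN.T1

/-!
# FN, file TA (helper80): the tables of `A₁`, `A₂`, `A₃`, `A₄`, `A₅` (generated)
-/

namespace Pool.Agent.Lib.L8.FN

set_option linter.unusedSectionVars false
set_option maxRecDepth 100000

open Matrix Pool.Agent.Lib.L1S Pool.Agent.Lib.L8.FL Pool.Agent.Lib.L8.F7 Pool.Agent.Lib.L8.FC

noncomputable section

variable {ι M N : Type} [Fintype ι] [DecidableEq ι] [AddCommGroup M] [Module ℚ M] [AddCommGroup N] [Module ℚ N]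
  {P : RootPairing ι ℚ M N} [P.IsCrystallographic] [P.IsReduced] [P.IsIrreducible] [P.IsRootSystem] {b : P.Base}

/-! ## Type A1 -/

/-- `2` times the inverse of the Cartan matrix. -/
def omA1 : Matrix (Fin 1) (Fin 1) ℤ := !![1]

theorem omcA1 : omc (CartanMatrix.A 1) omA1 2 := by decide +kernel

theorem opcA1 : opc (CartanMatrix.A 1) [0] (Fin.revPerm) := by decide +kernel

/-- The exponents. -/
def nuA1 (S : Finset (Fin 1)) : ℤ := 2

theorem nusA1 (S : Finset (Fin 1)) (_ : S.Nonempty) : nuA1 S ≤ (1 : ℕ) + 1 ∨ Spec (CartanMatrix.A 1) S (nuA1 S) := by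
  unfold nuA1
  exact Or.inl (by norm_num)

theorem insA1 : ∀ S : Finset (Fin 1), S.Nonempty → inc omA1 2 (Fin.revPerm) 6 (nuA1 S) S := by decide +kernel

theorem ineqR_A1 (h : Typ b (CartanMatrix.A 1)) : IneqR b ((6 : ℕ) / 2) (nuB b) := ineqR_tab h (by norm_num) omcA1 opcA1 nuA1 nusA1 insA1

/-! ## Type A2 -/

/-- `3` times the inverse of the Cartan matrix. -/
def omA2 : Matrix (Fin 2) (Fin 2) ℤ := !![2, 1; 1, 2]

theorem omcA2 : omc (CartanMatrix.A 2) omA2 3 := by decide +kernel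

theorem opcA2 : opc (CartanMatrix.A 2) [0, 1, 0] (Fin.revPerm) := by decide +kernel

/-- The exponents. -/
def nuA2 (S : Finset (Fin 2)) : ℤ := if S = {0, 1} then 4 else 3

theorem spA2_01 : Spec (CartanMatrix.A 2) {0, 1} 4 :=
  ⟨[0, 1, 0], {0, 1}, 3, 1, ![0], ![0], by decide +kernel, by decide +kernel, by decide +kernel, by norm_num, by norm_num⟩

theorem nusA2 (S : Finset (Fin 2)) (_ : S.Nonempty) : nuA2 S ≤ (2 : ℕ) + 1 ∨ Spec (CartanMatrix.A 2) S (nuA2 S) := by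
  unfold nuA2
  by_cases h0 : S = {0, 1}
  · rw [if_pos h0, h0]
    exact Or.inr spA2_01
  rw [if_neg h0]
  exact Or.inl (by norm_num)

theorem insA2 : ∀ S : Finset (Fin 2), S.Nonempty → inc omA2 3 (Fin.revPerm) 16 (nuA2 S) S := by decide +kernel

theorem ineqR_A2 (h : Typ b (CartanMatrix.A 2)) : IneqR b ((16 : ℕ) / 2) (nuB b) := ineqR_tab h (by norm_num) omcA2 opcA2 nuA2 nusA2 insA2

/-! ## Type A3 -/

/-- `4` times the inverse of the Cartan matrix. -/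
def omA3 : Matrix (Fin 3) (Fin 3) ℤ := !![3, 2, 1; 2, 4, 2; 1, 2, 3]

theorem omcA3 : omc (CartanMatrix.A 3) omA3 4 := by decide +kernel

theorem opcA3 : opc (CartanMatrix.A 3) [0, 1, 2, 0, 1, 0] (Fin.revPerm) := by decide +kernel

/-- The exponents. -/
def nuA3 (S : Finset (Fin 3)) : ℤ := if S = {1} then 5 else if S = {0, 1} then 6 else if S = {0, 2} then 5 else if S = {1, 2} then 6 else if S = {0, 1, 2} then 7 else 4

theorem spA3_1 : Spec (CartanMatrix.A 3) {1} 5 :=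
  ⟨[1, 0, 2, 1], {1}, 3, 2, ![0, 1], ![0, 1], by decide +kernel, by decide +kernel, by decide +kernel, by norm_num, by norm_num⟩

theorem spA3_01 : Spec (CartanMatrix.A 3) {0, 1} 6 :=
  ⟨[1, 0, 1, 2, 1], {1, 2}, 5, 1, ![0], ![0], by decide +kernel, by decide +kernel, by decide +kernel, by norm_num, by norm_num⟩

theorem spA3_02 : Spec (CartanMatrix.A 3) {0, 2} 5 :=
  ⟨[0, 1, 2, 1, 0], {0, 2}, 4, 1, ![0], ![0], by decide +kernel, by decide +kernel, by decide +kernel, by norm_num, by norm_num⟩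

theorem spA3_12 : Spec (CartanMatrix.A 3) {1, 2} 6 :=
  ⟨[1, 2, 1, 0, 1], {0, 1}, 5, 1, ![0], ![0], by decide +kernel, by decide +kernel, by decide +kernel, by norm_num, by norm_num⟩

theorem spA3_012 : Spec (CartanMatrix.A 3) {0, 1, 2} 7 :=
  ⟨[0, 1, 0, 2, 1, 0], {0, 1, 2}, 5, 2, ![0, 1], ![0, 1], by decide +kernel, by decide +kernel, by decide +kernel, by norm_num, by norm_num⟩

theorem nusA3 (S : Finset (Fin 3)) (_ : S.Nonempty) : nuA3 S ≤ (3 : ℕ) + 1 ∨ Spec (CartanMatrix.A 3) S (nuA3 S) := by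
  unfold nuA3
  by_cases h0 : S = {1}
  · rw [if_pos h0, h0]
    exact Or.inr spA3_1
  rw [if_neg h0]
  by_cases h1 : S = {0, 1}
  · rw [if_pos h1, h1]
    exact Or.inr spA3_01
  rw [if_neg h1]
  by_cases h2 : S = {0, 2}
  · rw [if_pos h2, h2]
    exact Or.inr spA3_02
  rw [if_neg h2]
  by_cases h3 : S = {1, 2}
  · rw [if_pos h3, h3]
    exact Or.inr spA3_12
  rw [if_neg h3]
  by_cases h4 : S = {0, 1, 2}
  · rw [if_pos h4, h4]
    exact Or.inr spA3_012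
  rw [if_neg h4]
  exact Or.inl (by norm_num)

theorem insA3 : ∀ S : Finset (Fin 3), S.Nonempty → inc omA3 4 (Fin.revPerm) 33 (nuA3 S) S := by decide +kernel

theorem ineqR_A3 (h : Typ b (CartanMatrix.A 3)) : IneqR b ((33 : ℕ) / 2) (nuB b) := ineqR_tab h (by norm_num) omcA3 opcA3 nuA3 nusA3 insA3

/-! ## Type A4 -/

/-- `5` times the inverse of the Cartan matrix. -/
def omA4 : Matrix (Fin 4) (Fin 4) ℤ := !![4, 3, 2, 1; 3, 6, 4, 2; 2, 4, 6, 3; 1, 2, 3, 4]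

theorem omcA4 : omc (CartanMatrix.A 4) omA4 5 := by decide +kernel

theorem opcA4 : opc (CartanMatrix.A 4) [0, 1, 2, 3, 0, 1, 2, 0, 1, 0] (Fin.revPerm) := by decide +kernel

/-- The exponents. -/
def nuA4 (S : Finset (Fin 4)) : ℤ := if S = {0, 3} then 6 else if S = {1, 2} then 7 else if S = {0, 1, 2} then 8 else if S = {0, 1, 3} then 7 else if S = {0, 2, 3} then 7 else if S = {1, 2, 3} then 8 else if S = {0, 1, 2, 3} then 8 else 5

theorem spA4_03 : Spec (CartanMatrix.A 4) {0, 3} 6 :=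
  ⟨[0, 1, 2, 3, 2, 1, 0], {0, 3}, 5, 1, ![0], ![0], by decide +kernel, by decide +kernel, by decide +kernel, by norm_num, by norm_num⟩

theorem spA4_12 : Spec (CartanMatrix.A 4) {1, 2} 7 :=
  ⟨[1, 2, 1, 0, 1, 3, 2, 1], {1, 2}, 6, 1, ![0], ![0], by decide +kernel, by decide +kernel, by decide +kernel, by norm_num, by norm_num⟩

theorem spA4_012 : Spec (CartanMatrix.A 4) {0, 1, 2} 8 :=
  ⟨[2, 1, 0, 1, 2, 3, 1, 2, 1], {1, 2, 3}, 8, 0, Fin.elim0, Fin.elim0, by decide +kernel, by decide +kernel, by decide +kernel, by norm_num, by norm_num⟩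

theorem spA4_013 : Spec (CartanMatrix.A 4) {0, 1, 3} 7 :=
  ⟨[0, 1, 2, 3, 0, 1, 2, 1, 0], {0, 2, 3}, 6, 1, ![0], ![0], by decide +kernel, by decide +kernel, by decide +kernel, by norm_num, by norm_num⟩

theorem spA4_023 : Spec (CartanMatrix.A 4) {0, 2, 3} 7 :=
  ⟨[0, 1, 2, 3, 1, 2, 0, 1, 0], {0, 1, 3}, 6, 1, ![0], ![0], by decide +kernel, by decide +kernel, by decide +kernel, by norm_num, by norm_num⟩

theorem spA4_123 : Spec (CartanMatrix.A 4) {1, 2, 3} 8 :=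
  ⟨[1, 2, 3, 2, 1, 0, 1, 2, 1], {0, 1, 2}, 8, 0, Fin.elim0, Fin.elim0, by decide +kernel, by decide +kernel, by decide +kernel, by norm_num, by norm_num⟩

theorem spA4_0123 : Spec (CartanMatrix.A 4) {0, 1, 2, 3} 8 :=
  ⟨[0, 1, 0, 2, 1, 0, 3, 2, 1, 0], {0, 1, 2, 3}, 7, 1, ![0], ![0], by decide +kernel, by decide +kernel, by decide +kernel, by norm_num, by norm_num⟩

theorem nusA4 (S : Finset (Fin 4)) (_ : S.Nonempty) : nuA4 S ≤ (4 : ℕ) + 1 ∨ Spec (CartanMatrix.A 4) S (nuA4 S) := by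
  unfold nuA4
  by_cases h0 : S = {0, 3}
  · rw [if_pos h0, h0]
    exact Or.inr spA4_03
  rw [if_neg h0]
  by_cases h1 : S = {1, 2}
  · rw [if_pos h1, h1]
    exact Or.inr spA4_12
  rw [if_neg h1]
  by_cases h2 : S = {0, 1, 2}
  · rw [if_pos h2, h2]
    exact Or.inr spA4_012
  rw [if_neg h2]
  by_cases h3 : S = {0, 1, 3}
  · rw [if_pos h3, h3]
    exact Or.inr spA4_013
  rw [if_neg h3]
  by_cases h4 : S = {0, 2, 3}
  · rw [if_pos h4, h4]
    exact Or.inr spA4_023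
  rw [if_neg h4]
  by_cases h5 : S = {1, 2, 3}
  · rw [if_pos h5, h5]
    exact Or.inr spA4_123
  rw [if_neg h5]
  by_cases h6 : S = {0, 1, 2, 3}
  · rw [if_pos h6, h6]
    exact Or.inr spA4_0123
  rw [if_neg h6]
  exact Or.inl (by norm_num)

theorem insA4 : ∀ S : Finset (Fin 4), S.Nonempty → inc omA4 5 (Fin.revPerm) 56 (nuA4 S) S := by decide +kernel

theorem ineqR_A4 (h : Typ b (CartanMatrix.A 4)) : IneqR b ((56 : ℕ) / 2) (nuB b) := ineqR_tab h (by norm_num) omcA4 opcA4 nuA4 nusA4 insA4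

/-! ## Type A5 -/

/-- `6` times the inverse of the Cartan matrix. -/
def omA5 : Matrix (Fin 5) (Fin 5) ℤ := !![5, 4, 3, 2, 1; 4, 8, 6, 4, 2; 3, 6, 9, 6, 3; 2, 4, 6, 8, 4; 1, 2, 3, 4, 5]

theorem omcA5 : omc (CartanMatrix.A 5) omA5 6 := by decide +kernel

theorem opcA5 : opc (CartanMatrix.A 5) [0, 1, 2, 3, 4, 0, 1, 2, 3, 0, 1, 2, 0, 1, 0] (Fin.revPerm) := by decide +kernel

/-- The exponents. -/
def nuA5 (S : Finset (Fin 5)) : ℤ := if S = {0, 4} then 7 else if S = {1, 2} then 7 else if S = {2, 3} then 7 else if S = {0, 1, 2} then 7 else if S = {0, 1, 4} then 8 else if S = {0, 2, 3} then 7 else if S = {0, 2, 4} then 7 else if S = {0, 3, 4} then 8 else if S = {1, 2, 3} then 9 else if S = {1, 2, 4} then 7 else if S = {2, 3, 4} then 7 else if S = {0, 1, 2, 3} then 8 else if S = {0, 1, 2, 4} then 7 else if S = {0, 1, 3, 4} then 8 else if S = {0, 2, 3, 4} then 7 else if S = {1, 2, 3, 4} then 8 else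 if S = {0, 1, 2, 3, 4} then 8 else 6

theorem spA5_04 : Spec (CartanMatrix.A 5) {0, 4} 7 :=
  ⟨[0, 1, 2, 3, 4, 3, 2, 1, 0], {0, 4}, 6, 1, ![0], ![0], by decide +kernel, by decide +kernel, by decide +kernel, by norm_num, by norm_num⟩

theorem spA5_12 : Spec (CartanMatrix.A 5) {1, 2} 7 :=
  ⟨[1, 2, 3, 4, 1, 0, 1, 2, 3, 1, 2], {2, 3}, 7, 0, Fin.elim0, Fin.elim0, by decide +kernel, by decide +kernel, by decide +kernel, by norm_num, by norm_num⟩

theorem spA5_23 : Spec (CartanMatrix.A 5) {2, 3} 7 :=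
  ⟨[2, 3, 4, 1, 2, 3, 1, 0, 1, 2, 1], {1, 2}, 7, 0, Fin.elim0, Fin.elim0, by decide +kernel, by decide +kernel, by decide +kernel, by norm_num, by norm_num⟩

theorem spA5_012 : Spec (CartanMatrix.A 5) {0, 1, 2} 7 :=
  ⟨[2, 1, 0, 1, 2, 3, 4, 1, 2, 3, 1, 2], {2, 3, 4}, 9, 0, Fin.elim0, Fin.elim0, by decide +kernel, by decide +kernel, by decide +kernel, by norm_num, by norm_num⟩

theorem spA5_014 : Spec (CartanMatrix.A 5) {0, 1, 4} 8 :=
  ⟨[0, 1, 2, 3, 4, 0, 1, 2, 3, 2, 1, 0], {0, 3, 4}, 7, 1, ![0], ![0], by decide +kernel, by decide +kernel, by decide +kernel, by norm_num, by norm_num⟩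

theorem spA5_023 : Spec (CartanMatrix.A 5) {0, 2, 3} 7 :=
  ⟨[3, 2, 1, 0, 1, 2, 3, 4, 2, 3, 1, 2, 1], {1, 2, 4}, 9, 0, Fin.elim0, Fin.elim0, by decide +kernel, by decide +kernel, by decide +kernel, by norm_num, by norm_num⟩

theorem spA5_024 : Spec (CartanMatrix.A 5) {0, 2, 4} 7 :=
  ⟨[0, 1, 2, 1, 0, 3, 2, 1, 4, 3, 2, 1, 0], {0, 2, 4}, 7, 0, Fin.elim0, Fin.elim0, by decide +kernel, by decide +kernel, by decide +kernel, by norm_num, by norm_num⟩

theorem spA5_034 : Spec (CartanMatrix.A 5) {0, 3, 4} 8 :=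
  ⟨[0, 1, 2, 3, 4, 2, 3, 1, 2, 0, 1, 0], {0, 1, 4}, 7, 1, ![0], ![0], by decide +kernel, by decide +kernel, by decide +kernel, by norm_num, by norm_num⟩

theorem spA5_123 : Spec (CartanMatrix.A 5) {1, 2, 3} 9 :=
  ⟨[1, 2, 1, 3, 2, 1, 0, 1, 2, 4, 3, 2, 1], {1, 2, 3}, 9, 0, Fin.elim0, Fin.elim0, by decide +kernel, by decide +kernel, by decide +kernel, by norm_num, by norm_num⟩

theorem spA5_124 : Spec (CartanMatrix.A 5) {1, 2, 4} 7 :=
  ⟨[1, 2, 3, 4, 3, 2, 1, 0, 1, 2, 3, 1, 2], {0, 2, 3}, 9, 0, Fin.elim0, Fin.elim0, by decide +kernel, by decide +kernel, by decide +kernel, by norm_num, by norm_num⟩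

theorem spA5_234 : Spec (CartanMatrix.A 5) {2, 3, 4} 7 :=
  ⟨[2, 3, 4, 1, 2, 3, 2, 1, 0, 1, 2, 1], {0, 1, 2}, 9, 0, Fin.elim0, Fin.elim0, by decide +kernel, by decide +kernel, by decide +kernel, by norm_num, by norm_num⟩

theorem spA5_0123 : Spec (CartanMatrix.A 5) {0, 1, 2, 3} 8 :=
  ⟨[3, 2, 1, 0, 1, 2, 3, 4, 1, 2, 3, 1, 2, 1], {1, 2, 3, 4}, 11, 0, Fin.elim0, Fin.elim0, by decide +kernel, by decide +kernel, by decide +kernel, by norm_num, by norm_num⟩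

theorem spA5_0124 : Spec (CartanMatrix.A 5) {0, 1, 2, 4} 7 :=
  ⟨[0, 1, 2, 3, 4, 0, 1, 2, 3, 0, 1, 2, 1, 0], {0, 2, 3, 4}, 8, 0, Fin.elim0, Fin.elim0, by decide +kernel, by decide +kernel, by decide +kernel, by norm_num, by norm_num⟩

theorem spA5_0134 : Spec (CartanMatrix.A 5) {0, 1, 3, 4} 8 :=
  ⟨[0, 1, 0, 2, 1, 3, 2, 1, 0, 4, 3, 2, 1, 0], {0, 1, 3, 4}, 8, 0, Fin.elim0, Fin.elim0, by decide +kernel, by decide +kernel, by decide +kernel, by norm_num, by norm_num⟩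

theorem spA5_0234 : Spec (CartanMatrix.A 5) {0, 2, 3, 4} 7 :=
  ⟨[0, 1, 2, 3, 4, 1, 2, 3, 0, 1, 2, 0, 1, 0], {0, 1, 2, 4}, 8, 0, Fin.elim0, Fin.elim0, by decide +kernel, by decide +kernel, by decide +kernel, by norm_num, by norm_num⟩

theorem spA5_1234 : Spec (CartanMatrix.A 5) {1, 2, 3, 4} 8 :=
  ⟨[1, 2, 3, 4, 3, 2, 1, 0, 1, 2, 3, 1, 2, 1], {0, 1, 2, 3}, 11, 0, Fin.elim0, Fin.elim0, by decide +kernel, by decide +kernel, by decide +kernel, by norm_num, by norm_num⟩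

theorem spA5_01234 : Spec (CartanMatrix.A 5) {0, 1, 2, 3, 4} 8 :=
  ⟨[0, 1, 0, 2, 1, 0, 3, 2, 1, 0, 4, 3, 2, 1, 0], {0, 1, 2, 3, 4}, 9, 0, Fin.elim0, Fin.elim0, by decide +kernel, by decide +kernel, by decide +kernel, by norm_num, by norm_num⟩

theorem nusA5 (S : Finset (Fin 5)) (_ : S.Nonempty) : nuA5 S ≤ (5 : ℕ) + 1 ∨ Spec (CartanMatrix.A 5) S (nuA5 S) := by
  unfold nuA5
  by_cases h0 : S = {0, 4}
  · rw [if_pos h0, h0]
    exact Or.inr spA5_04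
  rw [if_neg h0]
  by_cases h1 : S = {1, 2}
  · rw [if_pos h1, h1]
    exact Or.inr spA5_12
  rw [if_neg h1]
  by_cases h2 : S = {2, 3}
  · rw [if_pos h2, h2]
    exact Or.inr spA5_23
  rw [if_neg h2]
  by_cases h3 : S = {0, 1, 2}
  · rw [if_pos h3, h3]
    exact Or.inr spA5_012
  rw [if_neg h3]
  by_cases h4 : S = {0, 1, 4}
  · rw [if_pos h4, h4]
    exact Or.inr spA5_014
  rw [if_neg h4]
  by_cases h5 : S = {0, 2, 3}
  · rw [if_pos h5, h5]
    exact Or.inr spA5_023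
  rw [if_neg h5]
  by_cases h6 : S = {0, 2, 4}
  · rw [if_pos h6, h6]
    exact Or.inr spA5_024
  rw [if_neg h6]
  by_cases h7 : S = {0, 3, 4}
  · rw [if_pos h7, h7]
    exact Or.inr spA5_034
  rw [if_neg h7]
  by_cases h8 : S = {1, 2, 3}
  · rw [if_pos h8, h8]
    exact Or.inr spA5_123
  rw [if_neg h8]
  by_cases h9 : S = {1, 2, 4}
  · rw [if_pos h9, h9]
    exact Or.inr spA5_124
  rw [if_neg h9]
  by_cases h10 : S = {2, 3, 4}
  · rw [if_pos h10, h10]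
    exact Or.inr spA5_234
  rw [if_neg h10]
  by_cases h11 : S = {0, 1, 2, 3}
  · rw [if_pos h11, h11]
    exact Or.inr spA5_0123
  rw [if_neg h11]
  by_cases h12 : S = {0, 1, 2, 4}
  · rw [if_pos h12, h12]
    exact Or.inr spA5_0124
  rw [if_neg h12]
  by_cases h13 : S = {0, 1, 3, 4}
  · rw [if_pos h13, h13]
    exact Or.inr spA5_0134
  rw [if_neg h13]
  by_cases h14 : S = {0, 2, 3, 4}
  · rw [if_pos h14, h14]
    exact Or.inr spA5_0234
  rw [if_neg h14]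
  by_cases h15 : S = {1, 2, 3, 4}
  · rw [if_pos h15, h15]
    exact Or.inr spA5_1234
  rw [if_neg h15]
  by_cases h16 : S = {0, 1, 2, 3, 4}
  · rw [if_pos h16, h16]
    exact Or.inr spA5_01234
  rw [if_neg h16]
  exact Or.inl (by norm_num)

theorem insA5 : ∀ S : Finset (Fin 5), S.Nonempty → inc omA5 6 (Fin.revPerm) 85 (nuA5 S) S := by decide +kernel

theorem ineqR_A5 (h : Typ b (CartanMatrix.A 5)) : IneqR b ((85 : ℕ) / 2) (nuB b) := ineqR_tab h (by norm_num) omcA5 opcA5 nuA5 nusA5 insA5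

end

end Pool.Agent.Lib.L8.FN
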