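import Pool.Agent.Lib.L8.FN.T1

/-!
# FN, file TD (helper80): the tables of `D₄`, `D₅`, `D₆` (generated)
-/

namespace Pool.Agent.Lib.L8.FN

set_option linter.unusedSectionVars false
set_option maxRecDepth 100000

open Matrix Pool.Agent.Lib.L1S Pool.Agent.Lib.L8.FL Pool.Agent.Lib.L8.F7 Pool.Agent.Lib.L8.FC

noncomputable section

variable {ι M N : Type} [Fintype ι] [DecidableEq ι] [AddCommGroup M] [Module ℚ M] [AddCommGroup N] [Module ℚ N]
  {P : RootPairing ι ℚ M N} [P.IsCrystallographic] [P.IsReduced] [P.IsIrreducible] [P.IsRootSystem] {b : P.Base}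

/-! ## Type D4 -/

/-- `2` times the inverse of the Cartan matrix. -/
def omD4 : Matrix (Fin 4) (Fin 4) ℤ := !![2, 2, 1, 1; 2, 4, 2, 2; 1, 2, 2, 1; 1, 2, 1, 2]

theorem omcD4 : omc (CartanMatrix.D 4) omD4 2 := by decide +kernel

theorem opcD4 : opc (CartanMatrix.D 4) [3, 1, 2, 0, 1, 3, 0, 1, 2, 0, 1, 0] (1) := by decide +kernel

/-- The exponents. -/
def nuD4 (S : Finset (Fin 4)) : ℤ := if S = {0} then 6 else if S = {2} then 6 else if S = {3} then 6 else if S = {0, 1} then 8 else if S = {0, 2} then 6 else if S = {0, 3} then 6 else if S = {1, 2} then 8 else if S = {1, 3} then 8 else if S = {2, 3} then 6 else if S = {0, 1, 2} then 8 else if S = {0, 1, 3} then 8 else if S = {0, 2, 3} then 6 else if S = {1, 2, 3} then 8 else if S = {0, 1, 2, 3} then 8 else 5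

theorem spD4_0 : Spec (CartanMatrix.D 4) {0} 6 :=
  ⟨[0, 1, 2, 3, 1, 0], {0}, 4, 2, ![0, 2], ![0, 2], by decide +kernel, by decide +kernel, by decide +kernel, by norm_num, by norm_num⟩

theorem spD4_2 : Spec (CartanMatrix.D 4) {2} 6 :=
  ⟨[2, 1, 0, 3, 1, 2], {2}, 4, 2, ![0, 2], ![0, 2], by decide +kernel, by decide +kernel, by decide +kernel, by norm_num, by norm_num⟩

theorem spD4_3 : Spec (CartanMatrix.D 4) {3} 6 :=
  ⟨[3, 1, 0, 2, 1, 3], {3}, 4, 2, ![0, 3], ![0, 3], by decide +kernel, by decide +kernel, by decide +kernel, by norm_num, by norm_num⟩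

theorem spD4_01 : Spec (CartanMatrix.D 4) {0, 1} 8 :=
  ⟨[0, 1, 0, 2, 1, 3, 1, 0, 2, 1], {0, 1}, 6, 2, ![0, 1], ![0, 1], by decide +kernel, by decide +kernel, by decide +kernel, by norm_num, by norm_num⟩

theorem spD4_02 : Spec (CartanMatrix.D 4) {0, 2} 6 :=
  ⟨[0, 1, 2, 1, 0, 3, 1, 0, 2], {0, 2}, 5, 1, ![0], ![0], by decide +kernel, by decide +kernel, by decide +kernel, by norm_num, by norm_num⟩

theorem spD4_03 : Spec (CartanMatrix.D 4) {0, 3} 6 :=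
  ⟨[0, 1, 3, 1, 0, 2, 1, 0, 3], {0, 3}, 5, 1, ![0], ![0], by decide +kernel, by decide +kernel, by decide +kernel, by norm_num, by norm_num⟩

theorem spD4_12 : Spec (CartanMatrix.D 4) {1, 2} 8 :=
  ⟨[1, 0, 2, 1, 0, 3, 1, 0, 2, 1], {1, 2}, 6, 2, ![1, 2], ![1, 2], by decide +kernel, by decide +kernel, by decide +kernel, by norm_num, by norm_num⟩

theorem spD4_13 : Spec (CartanMatrix.D 4) {1, 3} 8 :=
  ⟨[1, 0, 3, 1, 0, 2, 1, 0, 3, 1], {1, 3}, 6, 2, ![1, 3], ![1, 3], by decide +kernel, by decide +kernel, by decide +kernel, by norm_num, by norm_num⟩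

theorem spD4_23 : Spec (CartanMatrix.D 4) {2, 3} 6 :=
  ⟨[2, 1, 3, 1, 0, 1, 2, 1, 3], {2, 3}, 5, 1, ![0], ![0], by decide +kernel, by decide +kernel, by decide +kernel, by norm_num, by norm_num⟩

theorem spD4_012 : Spec (CartanMatrix.D 4) {0, 1, 2} 8 :=
  ⟨[0, 1, 0, 2, 1, 0, 3, 1, 0, 2, 1], {0, 1, 2}, 7, 1, ![0], ![0], by decide +kernel, by decide +kernel, by decide +kernel, by norm_num, by norm_num⟩

theorem spD4_013 : Spec (CartanMatrix.D 4) {0, 1, 3} 8 :=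
  ⟨[0, 1, 0, 3, 1, 0, 2, 1, 0, 3, 1], {0, 1, 3}, 7, 1, ![0], ![0], by decide +kernel, by decide +kernel, by decide +kernel, by norm_num, by norm_num⟩

theorem spD4_023 : Spec (CartanMatrix.D 4) {0, 2, 3} 6 :=
  ⟨[0, 1, 2, 1, 0, 3, 1, 0, 2, 1, 3], {0, 2, 3}, 4, 2, ![0, 2], ![0, 2], by decide +kernel, by decide +kernel, by decide +kernel, by norm_num, by norm_num⟩

theorem spD4_123 : Spec (CartanMatrix.D 4) {1, 2, 3} 8 :=
  ⟨[1, 2, 1, 3, 1, 0, 1, 2, 1, 3, 1], {1, 2, 3}, 7, 1, ![1], ![1], by decide +kernel, by decide +kernel, by decide +kernel, by norm_num, by norm_num⟩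

theorem spD4_0123 : Spec (CartanMatrix.D 4) {0, 1, 2, 3} 8 :=
  ⟨[0, 1, 0, 2, 1, 0, 3, 1, 0, 2, 1, 3], {0, 1, 2, 3}, 4, 4, ![0, 1, 2, 3], ![0, 1, 2, 3], by decide +kernel, by decide +kernel, by decide +kernel, by norm_num, by norm_num⟩

theorem nusD4 (S : Finset (Fin 4)) (_ : S.Nonempty) : nuD4 S ≤ (4 : ℕ) + 1 ∨ Spec (CartanMatrix.D 4) S (nuD4 S) := by
  unfold nuD4
  by_cases h0 : S = {0}
  · rw [if_pos h0, h0]
    exact Or.inr spD4_0
  rw [if_neg h0]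
  by_cases h1 : S = {2}
  · rw [if_pos h1, h1]
    exact Or.inr spD4_2
  rw [if_neg h1]
  by_cases h2 : S = {3}
  · rw [if_pos h2, h2]
    exact Or.inr spD4_3
  rw [if_neg h2]
  by_cases h3 : S = {0, 1}
  · rw [if_pos h3, h3]
    exact Or.inr spD4_01
  rw [if_neg h3]
  by_cases h4 : S = {0, 2}
  · rw [if_pos h4, h4]
    exact Or.inr spD4_02
  rw [if_neg h4]
  by_cases h5 : S = {0, 3}
  · rw [if_pos h5, h5]
    exact Or.inr spD4_03
  rw [if_neg h5]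
  by_cases h6 : S = {1, 2}
  · rw [if_pos h6, h6]
    exact Or.inr spD4_12
  rw [if_neg h6]
  by_cases h7 : S = {1, 3}
  · rw [if_pos h7, h7]
    exact Or.inr spD4_13
  rw [if_neg h7]
  by_cases h8 : S = {2, 3}
  · rw [if_pos h8, h8]
    exact Or.inr spD4_23
  rw [if_neg h8]
  by_cases h9 : S = {0, 1, 2}
  · rw [if_pos h9, h9]
    exact Or.inr spD4_012
  rw [if_neg h9]
  by_cases h10 : S = {0, 1, 3}
  · rw [if_pos h10, h10]
    exact Or.inr spD4_013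
  rw [if_neg h10]
  by_cases h11 : S = {0, 2, 3}
  · rw [if_pos h11, h11]
    exact Or.inr spD4_023
  rw [if_neg h11]
  by_cases h12 : S = {1, 2, 3}
  · rw [if_pos h12, h12]
    exact Or.inr spD4_123
  rw [if_neg h12]
  by_cases h13 : S = {0, 1, 2, 3}
  · rw [if_pos h13, h13]
    exact Or.inr spD4_0123
  rw [if_neg h13]
  exact Or.inl (by norm_num)

theorem insD4 : ∀ S : Finset (Fin 4), S.Nonempty → inc omD4 2 (1) 72 (nuD4 S) S := by decide +kernel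

theorem ineqR_D4 (h : Typ b (CartanMatrix.D 4)) : IneqR b ((72 : ℕ) / 2) (nuB b) := ineqR_tab h (by norm_num) omcD4 opcD4 nuD4 nusD4 insD4

/-! ## Type D5 -/

/-- `4` times the inverse of the Cartan matrix. -/
def omD5 : Matrix (Fin 5) (Fin 5) ℤ := !![4, 4, 4, 2, 2; 4, 8, 8, 4, 4; 4, 8, 12, 6, 6; 2, 4, 6, 5, 3; 2, 4, 6, 3, 5]

theorem omcD5 : omc (CartanMatrix.D 5) omD5 4 := by decide +kernel

theorem opcD5 : opc (CartanMatrix.D 5) [3, 2, 4, 1, 2, 3, 0, 1, 2, 4, 0, 1, 2, 3, 0, 1, 2, 0, 1, 0] (Equiv.swap 3 4) := by decide +kernel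

/-- The exponents. -/
def nuD5 (S : Finset (Fin 5)) : ℤ := if S = {0} then 7 else if S = {0, 1} then 8 else 6

theorem spD5_0 : Spec (CartanMatrix.D 5) {0} 7 :=
  ⟨[0, 1, 2, 3, 4, 2, 1, 0], {0}, 5, 2, ![0, 3], ![0, 3], by decide +kernel, by decide +kernel, by decide +kernel, by norm_num, by norm_num⟩

theorem spD5_01 : Spec (CartanMatrix.D 5) {0, 1} 8 :=
  ⟨[0, 1, 0, 2, 1, 3, 2, 4, 2, 1, 0, 3, 2, 1], {0, 1}, 7, 1, ![0], ![0], by decide +kernel, by decide +kernel, by decide +kernel, by norm_num, by norm_num⟩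

theorem nusD5 (S : Finset (Fin 5)) (_ : S.Nonempty) : nuD5 S ≤ (5 : ℕ) + 1 ∨ Spec (CartanMatrix.D 5) S (nuD5 S) := by
  unfold nuD5
  by_cases h0 : S = {0}
  · rw [if_pos h0, h0]
    exact Or.inr spD5_0
  rw [if_neg h0]
  by_cases h1 : S = {0, 1}
  · rw [if_pos h1, h1]
    exact Or.inr spD5_01
  rw [if_neg h1]
  exact Or.inl (by norm_num)

theorem insD5 : ∀ S : Finset (Fin 5), S.Nonempty → inc omD5 4 (Equiv.swap 3 4) 120 (nuD5 S) S := by decide +kernel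

theorem ineqR_D5 (h : Typ b (CartanMatrix.D 5)) : IneqR b ((120 : ℕ) / 2) (nuB b) := ineqR_tab h (by norm_num) omcD5 opcD5 nuD5 nusD5 insD5

/-! ## Type D6 -/

/-- `2` times the inverse of the Cartan matrix. -/
def omD6 : Matrix (Fin 6) (Fin 6) ℤ := !![2, 2, 2, 2, 1, 1; 2, 4, 4, 4, 2, 2; 2, 4, 6, 6, 3, 3; 2, 4, 6, 8, 4, 4; 1, 2, 3, 4, 3, 2; 1, 2, 3, 4, 2, 3]

theorem omcD6 : omc (CartanMatrix.D 6) omD6 2 := by decide +kernel

theorem opcD6 : opc (CartanMatrix.D 6) [5, 3, 4, 2, 3, 5, 1, 2, 3, 4, 0, 1, 2, 3, 5, 0, 1, 2, 3, 4, 0, 1, 2, 3, 0, 1, 2, 0, 1, 0] (1) := by decide +kernel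

/-- The exponents. -/
def nuD6 (S : Finset (Fin 6)) : ℤ := if S = {0} then 8 else if S = {0, 1} then 8 else 7

theorem spD6_0 : Spec (CartanMatrix.D 6) {0} 8 :=
  ⟨[0, 1, 2, 3, 4, 5, 3, 2, 1, 0], {0}, 6, 2, ![0, 4], ![0, 4], by decide +kernel, by decide +kernel, by decide +kernel, by norm_num, by norm_num⟩

theorem spD6_01 : Spec (CartanMatrix.D 6) {0, 1} 8 :=
  ⟨[0, 1, 0, 2, 1, 3, 2, 4, 3, 5, 3, 2, 1, 0, 4, 3, 2, 1], {0, 1}, 8, 0, Fin.elim0, Fin.elim0, by decide +kernel, by decide +kernel, by decide +kernel, by norm_num, by norm_num⟩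

theorem nusD6 (S : Finset (Fin 6)) (_ : S.Nonempty) : nuD6 S ≤ (6 : ℕ) + 1 ∨ Spec (CartanMatrix.D 6) S (nuD6 S) := by
  unfold nuD6
  by_cases h0 : S = {0}
  · rw [if_pos h0, h0]
    exact Or.inr spD6_0
  rw [if_neg h0]
  by_cases h1 : S = {0, 1}
  · rw [if_pos h1, h1]
    exact Or.inr spD6_01
  rw [if_neg h1]
  exact Or.inl (by norm_num)

theorem insD6 : ∀ S : Finset (Fin 6), S.Nonempty → inc omD6 2 (1) 180 (nuD6 S) S := by decide +kernel

theorem ineqR_D6 (h : Typ b (CartanMatrix.D 6)) : IneqR b ((180 : ℕ) / 2) (nuB b) := ineqR_tab h (by norm_num) omcD6 opcD6 nuD6 nusD6 insD6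

end

end Pool.Agent.Lib.L8.FN
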