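import Pool.Agent.Lib.L8.FN.NQ1
import Pool.Agent.Lib.L8.FN.TA
import Pool.Agent.Lib.L8.FN.TD

/-!
# FN, file NQ2 (helper80): the tables of the outer forms of `A₃`, `A₄`, `A₅`, `D₄` (generated)
-/

namespace Pool.Agent.Lib.L8.FN

set_option linter.unusedSectionVars false
set_option maxRecDepth 100000

open Matrix Pool.Agent.Lib.L1S Pool.Agent.Lib.L8.FL Pool.Agent.Lib.L8.F7 Pool.Agent.Lib.L8.FC Pool.Agent.Lib.L8.QF

noncomputable section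

variable {ι M N : Type} [Fintype ι] [DecidableEq ι] [AddCommGroup M] [Module ℚ M] [AddCommGroup N] [Module ℚ N]
  {P : RootPairing ι ℚ M N} [P.IsCrystallographic] [P.IsReduced] [P.IsIrreducible] [P.IsRootSystem] {b : P.Base}
  {K L : Type} [Field K] [NumberField K] [Field L] [NumberField L] [Algebra K L]

/-! ## Type A3 -/

theorem lqA3_012 : LineQ (CartanMatrix.A 3) omA3 4 (Fin.revPerm) 30 {0, 1, 2} :=
  ⟨Fin.revPerm, [0, 1, 0, 2, 1, 0], {0, 1, 2}, 2, ![0, 1], ![0, 1], by decide +kernel, by decide +kernel, by decide +kernel, by decide +kernel⟩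

theorem inqA3 : ∀ S : Finset (Fin 3), S.Nonempty → (∃ τ, aut (CartanMatrix.A 3) τ ∧ τ ≠ 1 ∧ stb τ S) → inc omA3 4 (Fin.revPerm) 30 (3 + 1) S ∨ S = {0, 1, 2} := by decide +kernel

theorem ineqQ_A3 (h : Typ b (CartanMatrix.A 3)) (Q : QS b K L) (hq : ∃ s i, (Q.da s).sp i ≠ i) : IneqQ Q ((30 : ℕ) / 2) (nuQ Q) := by
  refine ineqQ_tab h (by norm_num) omcA3 opcA3 Q hq fun S h1 h2 => ?_
  rcases inqA3 S h1 h2 with h | rfl
  · exact Or.inl h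
  · exact Or.inr lqA3_012

/-! ## Type A4 -/

theorem lqA4_0123 : LineQ (CartanMatrix.A 4) omA4 5 (Fin.revPerm) 51 {0, 1, 2, 3} :=
  ⟨Fin.revPerm, [0, 1, 0, 2, 1, 0, 3, 2, 1, 0], {0, 1, 2, 3}, 2, ![0, 1], ![0, 1], by decide +kernel, by decide +kernel, by decide +kernel, by decide +kernel⟩

theorem inqA4 : ∀ S : Finset (Fin 4), S.Nonempty → (∃ τ, aut (CartanMatrix.A 4) τ ∧ τ ≠ 1 ∧ stb τ S) → inc omA4 5 (Fin.revPerm) 51 (4 + 1) S ∨ S = {0, 1, 2, 3} := by decide +kernel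

theorem ineqQ_A4 (h : Typ b (CartanMatrix.A 4)) (Q : QS b K L) (hq : ∃ s i, (Q.da s).sp i ≠ i) : IneqQ Q ((51 : ℕ) / 2) (nuQ Q) := by
  refine ineqQ_tab h (by norm_num) omcA4 opcA4 Q hq fun S h1 h2 => ?_
  rcases inqA4 S h1 h2 with h | rfl
  · exact Or.inl h
  · exact Or.inr lqA4_0123

/-! ## Type A5 -/

theorem lqA5_123 : LineQ (CartanMatrix.A 5) omA5 6 (Fin.revPerm) 80 {1, 2, 3} :=
  ⟨Fin.revPerm, [1, 2, 1, 3, 2, 1, 0, 1, 2, 4, 3, 2, 1], {1, 2, 3}, 2, ![1, 2], ![1, 2], by decide +kernel, by decide +kernel, by decide +kernel, by decide +kernel⟩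

theorem inqA5 : ∀ S : Finset (Fin 5), S.Nonempty → (∃ τ, aut (CartanMatrix.A 5) τ ∧ τ ≠ 1 ∧ stb τ S) → inc omA5 6 (Fin.revPerm) 80 (5 + 1) S ∨ S = {1, 2, 3} := by decide +kernel

theorem ineqQ_A5 (h : Typ b (CartanMatrix.A 5)) (Q : QS b K L) (hq : ∃ s i, (Q.da s).sp i ≠ i) : IneqQ Q ((80 : ℕ) / 2) (nuQ Q) := by
  refine ineqQ_tab h (by norm_num) omcA5 opcA5 Q hq fun S h1 h2 => ?_
  rcases inqA5 S h1 h2 with h | rfl
  · exact Or.inl h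
  · exact Or.inr lqA5_123

/-! ## Type D4 -/

theorem lqD4_01 : LineQ (CartanMatrix.D 4) omD4 2 (1) 66 {0, 1} :=
  ⟨Equiv.swap 2 3, [0, 1, 0, 2, 1, 3, 1, 0, 2, 1], {0, 1}, 2, ![0, 1], ![0, 1], by decide +kernel, by decide +kernel, by decide +kernel, by decide +kernel⟩

theorem lqD4_12 : LineQ (CartanMatrix.D 4) omD4 2 (1) 66 {1, 2} :=
  ⟨Equiv.swap 0 3, [1, 0, 2, 1, 0, 3, 1, 0, 2, 1], {1, 2}, 2, ![1, 2], ![1, 2], by decide +kernel, by decide +kernel, by decide +kernel, by decide +kernel⟩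

theorem lqD4_13 : LineQ (CartanMatrix.D 4) omD4 2 (1) 66 {1, 3} :=
  ⟨Equiv.swap 0 2, [1, 0, 3, 1, 0, 2, 1, 0, 3, 1], {1, 3}, 2, ![1, 3], ![1, 3], by decide +kernel, by decide +kernel, by decide +kernel, by decide +kernel⟩

theorem lqD4_012 : LineQ (CartanMatrix.D 4) omD4 2 (1) 66 {0, 1, 2} :=
  ⟨Equiv.swap 0 2, [0, 1, 0, 2, 1, 0, 3, 1, 0, 2, 1], {0, 1, 2}, 2, ![0, 1], ![0, 1], by decide +kernel, by decide +kernel, by decide +kernel, by decide +kernel⟩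

theorem lqD4_013 : LineQ (CartanMatrix.D 4) omD4 2 (1) 66 {0, 1, 3} :=
  ⟨Equiv.swap 0 3, [0, 1, 0, 3, 1, 0, 2, 1, 0, 3, 1], {0, 1, 3}, 2, ![0, 1], ![0, 1], by decide +kernel, by decide +kernel, by decide +kernel, by decide +kernel⟩

theorem lqD4_123 : LineQ (CartanMatrix.D 4) omD4 2 (1) 66 {1, 2, 3} :=
  ⟨Equiv.swap 2 3, [1, 2, 1, 3, 1, 0, 1, 2, 1, 3, 1], {1, 2, 3}, 2, ![1, 2], ![1, 2], by decide +kernel, by decide +kernel, by decide +kernel, by decide +kernel⟩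

theorem inqD4 : ∀ S : Finset (Fin 4), S.Nonempty → (∃ τ, aut (CartanMatrix.D 4) τ ∧ τ ≠ 1 ∧ stb τ S) → inc omD4 2 (1) 66 (4 + 1) S ∨ S = {0, 1} ∨ S = {1, 2} ∨ S = {1, 3} ∨ S = {0, 1, 2} ∨ S = {0, 1, 3} ∨ S = {1, 2, 3} := by decide +kernel

theorem ineqQ_D4 (h : Typ b (CartanMatrix.D 4)) (Q : QS b K L) (hq : ∃ s i, (Q.da s).sp i ≠ i) : IneqQ Q ((66 : ℕ) / 2) (nuQ Q) := by
  refine ineqQ_tab h (by norm_num) omcD4 opcD4 Q hq fun S h1 h2 => ?_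
  rcases inqD4 S h1 h2 with h | rfl | rfl | rfl | rfl | rfl | rfl
  · exact Or.inl h
  · exact Or.inr lqD4_01
  · exact Or.inr lqD4_12
  · exact Or.inr lqD4_13
  · exact Or.inr lqD4_012
  · exact Or.inr lqD4_013
  · exact Or.inr lqD4_123

end

end Pool.Agent.Lib.L8.FN
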