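import Pool.Agent.Lib.L8.FN.NQ2
import Pool.Agent.Lib.L8.FL.BH

/-!
# FN, file NQ3 (helper80): the exponents and the numbers of the outer forms
-/

namespace Pool.Agent.Lib.L8.FN

set_option linter.unusedSectionVars false

open Matrix Pool.Agent.Lib.L1S Pool.Agent.Lib.L8.FL Pool.Agent.Lib.L8.F7 Pool.Agent.Lib.L8.FC Pool.Agent.Lib.L8.QF

noncomputable section

variable {ι M N : Type} [Fintype ι] [DecidableEq ι] [AddCommGroup M] [Module ℚ M] [AddCommGroup N] [Module ℚ N]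
  {P : RootPairing ι ℚ M N} [P.IsCrystallographic] [P.IsReduced] [P.IsIrreducible] [P.IsRootSystem] {b : P.Base}
  {K L : Type} [Field K] [NumberField K] [Field L] [NumberField L] [Algebra K L]

/-! ## 1. Type `A₂` -/

theorem inqA2 : ∀ S : Finset (Fin 2), S.Nonempty → (∃ τ, aut (CartanMatrix.A 2) τ ∧ τ ≠ 1 ∧ stb τ S) → inc omA2 3 (Fin.revPerm) 16 4 S := by decide +kernel

/-- The outer forms of `A₂`, with the exponent `4`. -/
theorem ineqQ_A2 (h : Typ b (CartanMatrix.A 2)) (Q : QS b K L) (hq : ∃ s i, (Q.da s).sp i ≠ i) : IneqQ Q ((16 : ℕ) / 2) fun _ => 4 := by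
  obtain ⟨e, he⟩ := h
  obtain ⟨s, i, hi⟩ := hq
  have hs : tq e Q s ≠ 1 := fun h => hi (by
    have h1 := tq_apply e Q s i
    rw [h] at h1
    exact (e.injective h1).symm)
  refine ineqQ_of_J Q (fun _ _ => by norm_num) fun J hJ hJQ w hw => ⟨4, le_rfl, fun Λ hΛ => ?_⟩
  have h1 := inqA2 _ (Finset.map_nonempty.2 hJ) ⟨tq e Q s, tq_aut e he Q s, hs, tq_stb e hJQ s⟩
  have h2 := inc_spec e he (by norm_num) omcA2 opcA2 h1 hw hΛ
  push_cast at h2 ⊢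
  exact h2

/-! ## 2. All types -/

/-- Twice the numbers of the outer forms. -/
def DimO (b : P.Base) (D : ℕ) : Prop :=
  (∃ n : ℕ, (n = 2 ∧ Typ b (CartanMatrix.A n) ∧ D = 16) ∨ (n = 3 ∧ Typ b (CartanMatrix.A n) ∧ D = 30) ∨ (n = 4 ∧ Typ b (CartanMatrix.A n) ∧ D = 51) ∨ (5 ≤ n ∧ Typ b (CartanMatrix.A n) ∧ D = n * (3 * n + 1)) ∨
    (4 ≤ n ∧ Typ b (CartanMatrix.D n) ∧ D = 2 * (n - 1) * (3 * n - 1))) ∨ (Typ b CartanMatrix.E₆ ∧ D = 312)

/-- The rank is determined by the type. -/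
theorem typ_card {n : ℕ} {A : Matrix (Fin n) (Fin n) ℤ} (h : Typ b A) : Fintype.card b.support = n := by
  obtain ⟨e, -⟩ := h
  exact card_of e

theorem not_A2 {n : ℕ} {A : Matrix (Fin n) (Fin n) ℤ} (h : Typ b A) (hn : n ≠ 2) : ¬Typ b (CartanMatrix.A 2) := fun h2 => hn ((typ_card h).symm.trans (typ_card h2))

open scoped Classical in
/-- **The exponents of the outer forms**: `rank + rank (1 - w)`; `4` for `A₂`. -/
def nuN (Q : QS b K L) (w : Equiv.Perm ι) : ℝ := if Typ b (CartanMatrix.A 2) then 4 else nuQ Q w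

theorem nuN_A2 (Q : QS b K L) (h : Typ b (CartanMatrix.A 2)) : nuN Q = fun _ => 4 := by
  funext w
  unfold nuN
  rw [if_pos h]

theorem nuN_ne (Q : QS b K L) (h : ¬Typ b (CartanMatrix.A 2)) : nuN Q = nuQ Q := by
  funext w
  unfold nuN
  rw [if_neg h]

/-- **The numbers of the outer forms.** -/
theorem ineqQ_dimO (Q : QS b K L) (hq : ∃ s i, (Q.da s).sp i ≠ i) {D : ℕ} (h : DimO b D) : IneqQ Q ((D : ℝ) / 2) (nuN Q) := by
  rcases h with ⟨n, ⟨rfl, h, rfl⟩ | ⟨rfl, h, rfl⟩ | ⟨rfl, h, rfl⟩ | ⟨hn, h, rfl⟩ | ⟨hn, h, rfl⟩⟩ | ⟨h, rfl⟩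
  · rw [nuN_A2 Q h]
    exact ineqQ_A2 h Q hq
  · rw [nuN_ne Q (not_A2 h (by norm_num))]
    exact ineqQ_A3 h Q hq
  · rw [nuN_ne Q (not_A2 h (by norm_num))]
    exact ineqQ_A4 h Q hq
  · rw [nuN_ne Q (not_A2 h (by omega))]
    rcases Nat.lt_or_ge n 6 with h6 | h6
    · have h5 : n = 5 := by omega
      subst h5
      exact ineqQ_A5 h Q hq
    · exact ineqQ_ci1 Q (ci1_big (Or.inl ⟨n, Or.inr (Or.inl ⟨h6, h, rfl⟩)⟩))
  · rw [nuN_ne Q (not_A2 h (by omega))]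
    rcases Nat.lt_or_ge n 5 with h5 | h5
    · have h4 : n = 4 := by omega
      subst h4
      exact ineqQ_D4 h Q hq
    · exact ineqQ_ci1 Q (ci1_big (Or.inl ⟨n, Or.inr (Or.inr (Or.inr (Or.inr (Or.inr (Or.inr ⟨h5, h, rfl⟩)))))⟩))
  · rw [nuN_ne Q (not_A2 h (by norm_num))]
    exact ineqQ_ci1 Q (ci1_big (Or.inr (Or.inr (Or.inr (Or.inl ⟨h, rfl⟩)))))

end

end Pool.Agent.Lib.L8.FN
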