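import Pool.Agent.Lib.L8.F7.IA
import Pool.Agent.Lib.L8.F7.ID
import Pool.Agent.Lib.L8.F7.IB

/-!
# FN S0: exact certificates for the inequality of a set of nodes (helper66)
-/

namespace Pool.Agent.Lib.L8.FN

open Matrix Pool.Agent.Lib.L8.F7

/-- The certificate, two nodes. -/
theorem s0_two {n : ℕ} {A : Matrix (Fin n) (Fin n) ℤ} {S : Finset (Fin n)} {e g : Fin n → ℝ} (he : ∀ i, F7.pr A e i = if i ∈ S then 1 else 0) {D cc : ℝ} {j j' : Fin n}
    (hg : ∀ k, rw' A g k = (if k = j then D else 0) + (if k = j' then D else 0) - cc) : D * (e j + e j') - cc * ∑ k, e k = ∑ i ∈ S, g i := by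
  have h1 := dual A e g
  have h2 : ∑ i, F7.pr A e i * g i = ∑ i ∈ S, g i := by
    simp only [he, ite_mul, one_mul, zero_mul]
    rw [Finset.sum_ite_mem, Finset.univ_inter]
  have h3 : ∑ k, e k * rw' A g k = D * (e j + e j') - cc * ∑ k, e k := by
    simp only [hg, mul_sub, mul_add, Finset.sum_sub_distrib, Finset.sum_add_distrib, mul_ite, mul_zero, Finset.sum_ite_eq', Finset.mem_univ, if_true]
    rw [← Finset.sum_mul]
    ring
  rw [← h3, ← h1, h2]

/-- The certificate, one node. -/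
theorem s0_one {n : ℕ} {A : Matrix (Fin n) (Fin n) ℤ} {S : Finset (Fin n)} {e g : Fin n → ℝ} (he : ∀ i, F7.pr A e i = if i ∈ S then 1 else 0) {D cc : ℝ} {j : Fin n}
    (hg : ∀ k, rw' A g k = (if k = j then D else 0) - cc) : D * e j - cc * ∑ k, e k = ∑ i ∈ S, g i := by
  have h1 := dual A e g
  have h2 : ∑ i, F7.pr A e i * g i = ∑ i ∈ S, g i := by
    simp only [he, ite_mul, one_mul, zero_mul]
    rw [Finset.sum_ite_mem, Finset.univ_inter]
  have h3 : ∑ k, e k * rw' A g k = D * e j - cc * ∑ k, e k := by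
    simp only [hg, mul_sub, Finset.sum_sub_distrib, mul_ite, mul_zero, Finset.sum_ite_eq', Finset.mem_univ, if_true]
    rw [← Finset.sum_mul]
    ring
  rw [← h3, ← h1, h2]

/-- One positive entry. -/
theorem s0_le {n : ℕ} {S : Finset (Fin n)} {g : Fin n → ℝ} {X : ℝ} {j : Fin n} (hX : 0 ≤ X) (hj : g j ≤ X) (h : ∀ i, i ≠ j → g i ≤ 0) : ∑ i ∈ S, g i ≤ X := by
  have h1 : ∀ i ∈ S, g i ≤ if i = j then X else 0 := by
    intro i _
    by_cases hi : i = j
    · rw [if_pos hi, hi]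
      exact hj
    · rw [if_neg hi]
      exact h i hi
  refine (Finset.sum_le_sum h1).trans ?_
  rw [Finset.sum_ite_eq' S j (fun _ => X)]
  split_ifs
  · exact le_rfl
  · exact hX

/-- One positive entry, the others are at most `-δ`. -/
theorem s0_lt {n : ℕ} {S : Finset (Fin n)} {g : Fin n → ℝ} {X δ : ℝ} {j : Fin n} (hδ : 0 ≤ δ) (hX : δ ≤ X) (hj : g j ≤ X) (h : ∀ i, i ≠ j → g i ≤ -δ) (hS : S ≠ {j}) :
    ∑ i ∈ S, g i ≤ X - δ := by
  by_cases hjS : j ∈ S
  · obtain ⟨i, hi, hij⟩ : ∃ i ∈ S, i ≠ j := by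
      by_contra hcon
      push Not at hcon
      exact hS (Finset.eq_singleton_iff_unique_mem.2 ⟨hjS, hcon⟩)
    have h1 : ∀ k ∈ S, g k ≤ (if k = j then X else 0) + (if k = i then -δ else 0) := by
      intro k _
      by_cases hk : k = j
      · have hki : k ≠ i := fun h' => hij (h'.symm.trans hk)
        rw [if_pos hk, if_neg hki, hk, add_zero]
        exact hj
      · rw [if_neg hk, zero_add]
        by_cases hki : k = i
        · rw [if_pos hki]
          exact h k hk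
        · rw [if_neg hki]
          exact (h k hk).trans (by linarith)
    refine (Finset.sum_le_sum h1).trans (le_of_eq ?_)
    rw [Finset.sum_add_distrib, Finset.sum_ite_eq' S j (fun _ => X), Finset.sum_ite_eq' S i (fun _ => -δ), if_pos hjS, if_pos hi]
    ring
  · refine (Finset.sum_nonpos fun i hi => (h i ?_).trans (by linarith)).trans (by linarith)
    intro h'
    rw [h'] at hi
    exact hjS hi

/-- The vector for a node of the path of `D_n`. -/
theorem s0_vecD {n : ℕ} (hn : 4 ≤ n) (D c : ℝ) (j : Fin n) (hj : (j : ℕ) + 2 < n) :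
    ∃ g : Fin n → ℝ, (∀ k, rw' (CartanMatrix.D n) g k = (if k = j then D else 0) - c) ∧
      (∀ i : Fin n, (i : ℕ) + 2 < n → g i = D * ((min ((i : ℕ) + 1) ((j : ℕ) + 1) : ℕ) : ℝ) - c * ((((i : ℕ) : ℝ) + 1) * (2 * n - 2 - (i : ℕ))) / 2) ∧
      ∀ i : Fin n, n ≤ (i : ℕ) + 2 → g i = (D * (((j : ℕ) : ℝ) + 1) - c * (n * ((n : ℝ) - 1)) / 2) / 2 := by
  obtain ⟨J, hJ⟩ : ∃ J, J = (j : ℕ) + 1 := ⟨_, rfl⟩
  obtain ⟨G, hG⟩ : ∃ G : ℕ → ℝ, ∀ x : ℕ, G x = D * ((min x J : ℕ) : ℝ) - c * ((x : ℝ) * (2 * n - 1 - x)) / 2 :=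
    ⟨_, fun x => rfl⟩
  have hG0 : G 0 = 0 := by
    rw [hG]
    simp
  have hn1 : ((n - 1 : ℕ) : ℝ) = n - 1 := by
    rw [Nat.cast_sub (by omega)]
    simp
  have hn2 : ((n - 2 : ℕ) : ℝ) = n - 2 := by
    rw [Nat.cast_sub (by omega)]
    simp
  have hJr : (J : ℝ) = ((j : ℕ) : ℝ) + 1 := by
    rw [hJ]
    push_cast
    ring
  have hGn : G (n - 1) = D * (((j : ℕ) : ℝ) + 1) - c * (n * ((n : ℝ) - 1)) / 2 := by
    rw [hG, min_eq_right (show J ≤ n - 1 by omega), hn1, hJr]
    ring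
  have hend : G (n - 1) - G (n - 2) = - c := by
    rw [hG, hG, min_eq_right (show J ≤ n - 1 by omega), min_eq_right (show J ≤ n - 2 by omega), hn1, hn2]
    ring
  have hstep : ∀ k : ℕ, 2 * G (k + 1) - G k - G (k + 2) = (if k = (j : ℕ) then D else 0) - c := by
    intro k
    rw [hG, hG, hG]
    have h1 : 2 * ((min (k + 1) J : ℕ) : ℝ) - ((min k J : ℕ) : ℝ) - ((min (k + 2) J : ℕ) : ℝ) = if k = (j : ℕ) then 1 else 0 := by
      rcases lt_trichotomy k (j : ℕ) with h | h | h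
      · rw [if_neg (by omega), min_eq_left (show k + 1 ≤ J by omega), min_eq_left (show k ≤ J by omega), min_eq_left (show k + 2 ≤ J by omega)]
        push_cast
        ring
      · rw [if_pos h, min_eq_left (show k + 1 ≤ J by omega), min_eq_left (show k ≤ J by omega), min_eq_right (show J ≤ k + 2 by omega)]
        have h2 : J = k + 1 := by omega
        rw [h2]
        push_cast
        ring
      · rw [if_neg (by omega), min_eq_right (show J ≤ k + 1 by omega), min_eq_right (show J ≤ k by omega), min_eq_right (show J ≤ k + 2 by omega)]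
        ring
    have h2 : (if k = (j : ℕ) then D else 0) = D * (if k = (j : ℕ) then 1 else 0) := by
      split_ifs <;> ring
    rw [h2, ← h1]
    push_cast
    ring
  refine ⟨fun i : Fin n => if (i : ℕ) + 2 < n then G (i + 1) else if (i : ℕ) + 2 = n then G (n - 1) / 2 else G (n - 1) / 2, ?_, ?_, ?_⟩
  · intro k
    rw [rowD n (by omega) G (G (n - 1) / 2) (G (n - 1) / 2) hG0 (by ring) k]
    have hkj : (k = j) ↔ ((k : ℕ) = (j : ℕ)) := Fin.ext_iff
    by_cases hk : (k : ℕ) + 2 < n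
    · rw [if_pos hk, hstep]
      by_cases h : k = j
      · rw [if_pos h, if_pos (hkj.1 h)]
      · rw [if_neg h, if_neg fun h' => h (hkj.2 h')]
    · rw [if_neg hk]
      have h : k ≠ j := fun h' => hk (by rw [h']; exact hj)
      rw [if_neg h]
      split_ifs
      · linarith
      · linarith
  · intro i hi
    show (if (i : ℕ) + 2 < n then G (i + 1) else if (i : ℕ) + 2 = n then G (n - 1) / 2 else G (n - 1) / 2) = _
    rw [if_pos hi, hG, hJ]
    push_cast
    ring
  · intro i hi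
    show (if (i : ℕ) + 2 < n then G (i + 1) else if (i : ℕ) + 2 = n then G (n - 1) / 2 else G (n - 1) / 2) = _
    rw [if_neg (by omega), ite_self, hGn]

/-- The vector for a spin node of `D_n`. -/
theorem s0_vecS {n : ℕ} (hn : 4 ≤ n) (D c : ℝ) (j : Fin n) (hj : n ≤ (j : ℕ) + 2) :
    ∃ g : Fin n → ℝ, (∀ k, rw' (CartanMatrix.D n) g k = (if k = j then D else 0) - c) ∧
      (∀ i : Fin n, (i : ℕ) + 2 < n → g i = D * (((i : ℕ) : ℝ) + 1) / 2 - c * ((((i : ℕ) : ℝ) + 1) * (2 * n - 2 - (i : ℕ))) / 2) ∧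
      g j = D * n / 4 - c * (n * ((n : ℝ) - 1)) / 4 ∧
      ∀ i : Fin n, n ≤ (i : ℕ) + 2 → i ≠ j → g i = D * ((n : ℝ) - 2) / 4 - c * (n * ((n : ℝ) - 1)) / 4 := by
  have hjn := j.2
  obtain ⟨G, hG⟩ : ∃ G : ℕ → ℝ, ∀ x : ℕ, G x = D * x / 2 - c * ((x : ℝ) * (2 * n - 1 - x)) / 2 :=
    ⟨_, fun x => rfl⟩
  have hG0 : G 0 = 0 := by
    rw [hG]
    simp
  have hn1 : ((n - 1 : ℕ) : ℝ) = n - 1 := by
    rw [Nat.cast_sub (by omega)]
    simp
  have hn2 : ((n - 2 : ℕ) : ℝ) = n - 2 := by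
    rw [Nat.cast_sub (by omega)]
    simp
  obtain ⟨u, hu⟩ : ∃ u : ℝ, u = (G (n - 2) - c + (if (j : ℕ) + 2 = n then D else 0)) / 2 := ⟨_, rfl⟩
  obtain ⟨v, hv⟩ : ∃ v : ℝ, v = (G (n - 2) - c + (if (j : ℕ) + 2 = n then 0 else D)) / 2 := ⟨_, rfl⟩
  have huv : u + v = G (n - 1) := by
    have h1 : G (n - 1) = G (n - 2) + D / 2 - c := by
      rw [hG, hG, hn1, hn2]
      ring
    rw [h1, hu, hv]
    split_ifs <;> ring
  have hrow := rowD n (by omega) G u v hG0 huv
  have hE1 : (G (n - 2) - c + D) / 2 = D * n / 4 - c * (n * ((n : ℝ) - 1)) / 4 := by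
    rw [hG, hn2]
    ring
  have hE2 : (G (n - 2) - c) / 2 = D * ((n : ℝ) - 2) / 4 - c * (n * ((n : ℝ) - 1)) / 4 := by
    rw [hG, hn2]
    ring
  refine ⟨fun i : Fin n => if (i : ℕ) + 2 < n then G (i + 1) else if (i : ℕ) + 2 = n then u else v, ?_, ?_, ?_, ?_⟩
  · intro k
    rw [hrow k]
    have hk := k.2
    by_cases c1 : (k : ℕ) + 2 < n
    · have c4 : k ≠ j := by
        intro h
        rw [h] at c1
        omega
      rw [if_pos c1, if_neg c4, hG, hG, hG]
      push_cast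
      ring
    · rw [if_neg c1]
      by_cases c2 : (k : ℕ) + 2 = n
      · rw [if_pos c2, hu]
        by_cases c3 : (j : ℕ) + 2 = n
        · have c4 : k = j := Fin.ext (by omega)
          rw [if_pos c3, if_pos c4]
          ring
        · have c4 : k ≠ j := by
            intro h
            rw [h] at c2
            exact c3 c2
          rw [if_neg c3, if_neg c4]
          ring
      · rw [if_neg c2, hv]
        by_cases c3 : (j : ℕ) + 2 = n
        · have c4 : k ≠ j := by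
            intro h
            rw [h] at c2
            exact c2 c3
          rw [if_pos c3, if_neg c4]
          ring
        · have c4 : k = j := Fin.ext (by omega)
          rw [if_neg c3, if_pos c4]
          ring
  · intro i hi
    show (if (i : ℕ) + 2 < n then G (i + 1) else if (i : ℕ) + 2 = n then u else v) = _
    rw [if_pos hi, hG]
    push_cast
    ring
  · show (if (j : ℕ) + 2 < n then G (j + 1) else if (j : ℕ) + 2 = n then u else v) = _
    rw [if_neg (by omega), ← hE1]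
    by_cases c3 : (j : ℕ) + 2 = n
    · rw [if_pos c3, hu, if_pos c3]
    · rw [if_neg c3, hv, if_neg c3]
  · intro i hi hij
    show (if (i : ℕ) + 2 < n then G (i + 1) else if (i : ℕ) + 2 = n then u else v) = _
    have hi' := i.2
    have hne : (i : ℕ) ≠ (j : ℕ) := fun h => hij (Fin.ext h)
    rw [if_neg (by omega), ← hE2]
    by_cases c2 : (i : ℕ) + 2 = n
    · rw [if_pos c2, hu, if_neg (by omega), add_zero]
    · rw [if_neg c2, hv, if_pos (by omega), add_zero]

/-- The vector for a node of `B_n`. -/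
theorem s0_vecB {n : ℕ} (hn : 2 ≤ n) (D c : ℝ) (j : Fin n) :
    ∃ g : Fin n → ℝ, (∀ k, rw' (CartanMatrix.B n) g k = (if k = j then D else 0) - c) ∧
      (∀ i : Fin n, (i : ℕ) + 1 < n → g i = D * ((min ((i : ℕ) + 1) ((j : ℕ) + 1) : ℕ) : ℝ) - c * ((((i : ℕ) : ℝ) + 1) * (2 * n - (i : ℕ))) / 2) ∧
      ∀ i : Fin n, (i : ℕ) + 1 = n → g i = (D * (((j : ℕ) : ℝ) + 1) - c * (n * ((n : ℝ) + 1)) / 2) / 2 := by
  have hjlt := j.2
  obtain ⟨J, hJ⟩ : ∃ J, J = (j : ℕ) + 1 := ⟨_, rfl⟩
  have hJr : (J : ℝ) = ((j : ℕ) : ℝ) + 1 := by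
    rw [hJ]
    push_cast
    ring
  obtain ⟨G, hG⟩ : ∃ G : ℕ → ℝ, ∀ x : ℕ, G x = D * ((min x J : ℕ) : ℝ) - c * ((x : ℝ) * (2 * n + 1 - x)) / 2 :=
    ⟨_, fun x => rfl⟩
  have hG0 : G 0 = 0 := by
    rw [hG]
    simp
  have hn1 : ((n - 1 : ℕ) : ℝ) = n - 1 := by
    rw [Nat.cast_sub (by omega)]
    simp
  have hGn : G n = D * (((j : ℕ) : ℝ) + 1) - c * (n * ((n : ℝ) + 1)) / 2 := by
    rw [hG, min_eq_right (show J ≤ n by omega), hJr]
    ring
  have hstep : ∀ k : ℕ, 2 * G (k + 1) - G k - G (k + 2) = (if k = (j : ℕ) then D else 0) - c := by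
    intro k
    rw [hG, hG, hG]
    have h1 : 2 * ((min (k + 1) J : ℕ) : ℝ) - ((min k J : ℕ) : ℝ) - ((min (k + 2) J : ℕ) : ℝ) = if k = (j : ℕ) then 1 else 0 := by
      rcases lt_trichotomy k (j : ℕ) with h | h | h
      · rw [if_neg (by omega), min_eq_left (show k + 1 ≤ J by omega), min_eq_left (show k ≤ J by omega), min_eq_left (show k + 2 ≤ J by omega)]
        push_cast
        ring
      · rw [if_pos h, min_eq_left (show k + 1 ≤ J by omega), min_eq_left (show k ≤ J by omega), min_eq_right (show J ≤ k + 2 by omega)]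
        have h2 : J = k + 1 := by omega
        rw [h2]
        push_cast
        ring
      · rw [if_neg (by omega), min_eq_right (show J ≤ k + 1 by omega), min_eq_right (show J ≤ k by omega), min_eq_right (show J ≤ k + 2 by omega)]
        ring
    have h2 : (if k = (j : ℕ) then D else 0) = D * (if k = (j : ℕ) then 1 else 0) := by
      split_ifs <;> ring
    rw [h2, ← h1]
    push_cast
    ring
  have hend : G n - G (n - 1) = (if (j : ℕ) + 1 = n then D else 0) - c := by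
    rw [hG, hG, hn1, min_eq_right (show J ≤ n by omega)]
    by_cases h : (j : ℕ) + 1 = n
    · rw [if_pos h, min_eq_left (show n - 1 ≤ J by omega), hn1]
      have h2 : (J : ℝ) = n := by
        rw [hJ]
        exact_mod_cast h
      rw [h2]
      ring
    · rw [if_neg h, min_eq_right (show J ≤ n - 1 by omega)]
      ring
  refine ⟨fun i : Fin n => if (i : ℕ) + 1 = n then G n / 2 else G (i + 1), ?_, ?_, ?_⟩
  · intro k
    rw [rowB n G hG0 k]
    have hkj : (k = j) ↔ ((k : ℕ) = (j : ℕ)) := Fin.ext_iff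
    have hk2 := k.2
    by_cases hk : (k : ℕ) + 1 < n
    · rw [if_pos hk, hstep]
      by_cases h : k = j
      · rw [if_pos h, if_pos (hkj.1 h)]
      · rw [if_neg h, if_neg fun h' => h (hkj.2 h')]
    · rw [if_neg hk, hend]
      by_cases h : k = j
      · have h3 : (j : ℕ) + 1 = n := by
          rw [← h]
          omega
        rw [if_pos h, if_pos h3]
      · have h3 : ¬ (j : ℕ) + 1 = n := fun h' => h (Fin.ext (by omega))
        rw [if_neg h, if_neg h3]
  · intro i hi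
    show (if (i : ℕ) + 1 = n then G n / 2 else G (i + 1)) = _
    rw [if_neg (by omega), hG, hJ]
    push_cast
    ring
  · intro i hi
    show (if (i : ℕ) + 1 = n then G n / 2 else G (i + 1)) = _
    rw [if_pos hi, hGn]

/-- The vector for `e j + e j.rev`, type `A_n`. -/
theorem s0_vecA {n : ℕ} (D c : ℝ) (j : Fin n) :
    ∃ g : Fin n → ℝ, (∀ k, rw' (CartanMatrix.A n) g k = (if k = j then D else 0) + (if k = j.rev then D else 0) - 2 * c) ∧
      ∀ i : Fin n, g i = D * ((min (min ((i : ℕ) + 1) (n - (i : ℕ))) (min ((j : ℕ) + 1) (n - (j : ℕ))) : ℕ) : ℝ) - c * ((((i : ℕ) : ℝ) + 1) * (n - (i : ℕ))) := by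
  have hjlt := j.2
  obtain ⟨b, hb⟩ : ∃ b, n = (j : ℕ) + b := ⟨n - j, by omega⟩
  have hb1 : 1 ≤ b := by omega
  obtain ⟨G, hG⟩ : ∃ G : ℕ → ℝ, ∀ x : ℕ, G x = D * (ia_T n j b x : ℝ) - c * ((x : ℝ) * (n + 1 - x)) :=
    ⟨_, fun x => rfl⟩
  have hG0 : G 0 = 0 := by
    have h1 : ia_T n j b 0 = 0 := by unfold ia_T; omega
    rw [hG, h1]
    simp
  have hGn : G (n + 1) = 0 := by
    have h1 : ia_T n j b (n + 1) = 0 := by unfold ia_T; omega
    rw [hG, h1]
    simp
  have hrev : (j.rev : ℕ) = n - ((j : ℕ) + 1) := by simp [Fin.rev]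
  refine ⟨fun i => G (i + 1), ?_, ?_⟩
  · intro k
    rw [rowA n G hG0 hGn k]
    have h1 := ia_T_rec n j b k hb hb1 k.2
    have h2 : (2 : ℝ) * ia_T n j b (k + 1) = ia_T n j b k + ia_T n j b (k + 2) + (if (k : ℕ) = j then 1 else 0) + (if (k : ℕ) = n - ((j : ℕ) + 1) then 1 else 0) := by
      exact_mod_cast h1
    have h3 : (k = j) ↔ (k : ℕ) = j := by rw [Fin.ext_iff]
    have h4 : (k = j.rev) ↔ (k : ℕ) = n - ((j : ℕ) + 1) := by rw [Fin.ext_iff, hrev]
    have h6 : (if k = j then D else 0) = D * (if (k : ℕ) = j then 1 else 0) := by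
      simp only [h3]
      split_ifs <;> ring
    have h7 : (if k = j.rev then D else 0) = D * (if (k : ℕ) = n - ((j : ℕ) + 1) then 1 else 0) := by
      simp only [h4]
      split_ifs <;> ring
    rw [h6, h7, hG, hG, hG]
    have h5 : (ia_T n j b (k + 1) : ℝ) = (ia_T n j b k + ia_T n j b (k + 2) + (if (k : ℕ) = j then 1 else 0) + (if (k : ℕ) = n - ((j : ℕ) + 1) then 1 else 0)) / 2 := by linarith
    rw [h5]
    push_cast
    ring
  · intro i
    show G ((i : ℕ) + 1) = _
    have hi := i.2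
    have h1 : ia_T n j b ((i : ℕ) + 1) = min (min ((i : ℕ) + 1) (n - (i : ℕ))) (min ((j : ℕ) + 1) (n - (j : ℕ))) := by
      unfold ia_T
      omega
    rw [hG, h1]
    push_cast
    ring

end Pool.Agent.Lib.L8.FN
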