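import Pool.Agent.Lib.L8.FN.Defs
import Pool.Agent.Lib.L8.FN.S0

/-!
# FN SA: the inequality of the final table, type `A_n`, `n ≥ 8` (helper66)
-/

namespace Pool.Agent.Lib.L8.FN

open Matrix Pool.Agent.Lib.L8.F7

/-- Two positive entries. -/
theorem sa_le {n : ℕ} {S : Finset (Fin n)} {g : Fin n → ℝ} {X : ℝ} {j j' : Fin n} (hX : 0 ≤ X) (hj : g j ≤ X) (hj' : g j' ≤ X) (h : ∀ i, i ≠ j → i ≠ j' → g i ≤ 0) :
    ∑ i ∈ S, g i ≤ 2 * X := by
  have h1 : ∀ i ∈ S, g i ≤ (if i = j then X else 0) + (if i = j' then X else 0) := by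
    intro i _
    by_cases hi : i = j
    · rw [if_pos hi, hi]
      split_ifs
      · linarith
      · linarith
    · rw [if_neg hi, zero_add]
      by_cases hi' : i = j'
      · rw [if_pos hi', hi']
        exact hj'
      · rw [if_neg hi']
        exact h i hi hi'
  refine (Finset.sum_le_sum h1).trans ?_
  rw [Finset.sum_add_distrib, Finset.sum_ite_eq' S j (fun _ => X), Finset.sum_ite_eq' S j' (fun _ => X)]
  split_ifs <;> linarith

/-- Two positive entries, the others are at most `-δ`. -/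
theorem sa_lt {n : ℕ} {S : Finset (Fin n)} {g : Fin n → ℝ} {X δ : ℝ} {j j' : Fin n} (hjj : j ≠ j') (hδ : 0 ≤ δ) (hX : δ ≤ X) (hj : g j ≤ X) (hj' : g j' ≤ X) (h : ∀ i, i ≠ j → i ≠ j' → g i ≤ -δ)
    (hS : S ≠ {j, j'}) : ∑ i ∈ S, g i ≤ 2 * X - δ := by
  by_cases hjS : j ∈ S
  · by_cases hjS' : j' ∈ S
    · obtain ⟨i, hi, hij, hij'⟩ : ∃ i ∈ S, i ≠ j ∧ i ≠ j' := by
        by_contra hcon
        push Not at hcon
        apply hS
        ext x
        rw [Finset.mem_insert, Finset.mem_singleton]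
        constructor
        · intro hx
          by_cases h1 : x = j
          · exact Or.inl h1
          · exact Or.inr (hcon x hx h1)
        · rintro (h1 | h1)
          · rw [h1]
            exact hjS
          · rw [h1]
            exact hjS'
      have h1 : ∀ k ∈ S, g k ≤ (if k = j then X else 0) + (if k = j' then X else 0) + (if k = i then -δ else 0) := by
        intro k _
        by_cases hk : k = j
        · have hki : k ≠ i := fun h' => hij (h'.symm.trans hk)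
          have hki' : k ≠ j' := fun h' => hjj (hk.symm.trans h')
          rw [if_pos hk, if_neg hki, if_neg hki', hk]
          linarith
        · rw [if_neg hk, zero_add]
          by_cases hk' : k = j'
          · have hki : k ≠ i := fun h' => hij' (h'.symm.trans hk')
            rw [if_pos hk', if_neg hki, hk', add_zero]
            exact hj'
          · rw [if_neg hk', zero_add]
            by_cases hki : k = i
            · rw [if_pos hki]
              exact h k hk hk'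
            · rw [if_neg hki]
              exact (h k hk hk').trans (by linarith)
      refine (Finset.sum_le_sum h1).trans (le_of_eq ?_)
      rw [Finset.sum_add_distrib, Finset.sum_add_distrib, Finset.sum_ite_eq' S j (fun _ => X), Finset.sum_ite_eq' S j' (fun _ => X), Finset.sum_ite_eq' S i (fun _ => -δ), if_pos hjS, if_pos hjS', if_pos hi]
      ring
    · have h1 : ∑ i ∈ S, g i ≤ X := by
        have h2 : ∀ i ∈ S, g i ≤ if i = j then X else 0 := by
          intro i hi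
          have hi' : i ≠ j' := fun h' => hjS' (by rw [← h']; exact hi)
          by_cases hij : i = j
          · rw [if_pos hij, hij]
            exact hj
          · rw [if_neg hij]
            exact (h i hij hi').trans (by linarith)
        refine (Finset.sum_le_sum h2).trans ?_
        rw [Finset.sum_ite_eq' S j (fun _ => X)]
        split_ifs <;> linarith
      linarith
  · have h1 : ∑ i ∈ S, g i ≤ X := by
      have h2 : ∀ i ∈ S, g i ≤ if i = j' then X else 0 := by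
        intro i hi
        have hi' : i ≠ j := fun h' => hjS (by rw [← h']; exact hi)
        by_cases hij : i = j'
        · rw [if_pos hij, hij]
          exact hj'
        · rw [if_neg hij]
          exact (h i hi' hij).trans (by linarith)
      refine (Finset.sum_le_sum h2).trans ?_
      rw [Finset.sum_ite_eq' S j' (fun _ => X)]
      split_ifs <;> linarith
    linarith

theorem sa_key {n a b : ℝ} (hn : 8 ≤ n) (ha : 1 ≤ a) (hb : 2 * b ≤ n + 1) (h : (b = 2 ∧ a = 1) ∨ (b = 3 ∧ a ≤ 2) ∨ (4 ≤ b ∧ a ≤ b - 1)) :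
    n * (3 * n + 2) / 2 * a ≤ b * (n + 1 - b) * (a * (n + 1 - a)) := by
  have h3 : n * (3 * n + 2) / 2 ≤ (n + 1 - a) * (b * (n + 1 - b)) := by
    rcases h with ⟨h1, h2⟩ | ⟨h1, h2⟩ | ⟨h1, h2⟩
    · rw [h1, h2]
      nlinarith
    · rw [h1]
      have h5 : (n - 1) * (3 * (n + 1 - 3)) ≤ (n + 1 - a) * (3 * (n + 1 - 3)) := mul_le_mul_of_nonneg_right (by linarith) (by linarith)
      refine le_trans ?_ h5
      nlinarith
    · have h4 : 4 * (n - 3) ≤ b * (n + 1 - b) := by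
        nlinarith [mul_nonneg (show (0 : ℝ) ≤ b - 4 by linarith) (show (0 : ℝ) ≤ n - 3 - b by linarith)]
      have h5 : (n + 3) / 2 * (4 * (n - 3)) ≤ (n + 1 - a) * (b * (n + 1 - b)) := mul_le_mul (by linarith) h4 (by linarith) (by linarith)
      refine le_trans ?_ h5
      nlinarith
  have h7 := mul_le_mul_of_nonneg_left h3 (show (0 : ℝ) ≤ a by linarith)
  calc n * (3 * n + 2) / 2 * a = a * (n * (3 * n + 2) / 2) := by ring
    _ ≤ a * ((n + 1 - a) * (b * (n + 1 - b))) := h7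
    _ = b * (n + 1 - b) * (a * (n + 1 - a)) := by ring

theorem sa_keyN {n a b : ℕ} (hn : 8 ≤ n) (ha : 1 ≤ a) (hab : a < b) (hb : 2 * b ≤ n + 1) :
    (n : ℝ) * (3 * n + 2) / 2 * a ≤ (b : ℝ) * (n + 1 - b) * (a * (n + 1 - a)) := by
  refine sa_key (by exact_mod_cast hn) (by exact_mod_cast ha) (by exact_mod_cast hb) ?_
  have h1 : (b = 2 ∧ a = 1) ∨ (b = 3 ∧ a ≤ 2) ∨ (4 ≤ b ∧ a + 1 ≤ b) := by omega
  rcases h1 with ⟨h1, h2⟩ | ⟨h1, h2⟩ | ⟨h1, h2⟩
  · left
    exact ⟨by exact_mod_cast h1, by exact_mod_cast h2⟩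
  · right
    left
    exact ⟨by exact_mod_cast h1, by exact_mod_cast h2⟩
  · right
    right
    have h3 : (a : ℝ) + 1 ≤ b := by exact_mod_cast h2
    exact ⟨by exact_mod_cast h1, by linarith⟩

theorem sa_peak {n p : ℝ} (hn : 8 ≤ n) (hp : 2 * p ≤ n + 1) (h : p = 2 ∨ p = 3 ∨ 4 ≤ p) :
    n * (3 * n + 2) / 2 * p - p * (n + 1 - p) * (p * (n + 1 - p)) ≤ p * (n + 1 - p) * ((n + 1) / 2) := by
  have h1 : n * (3 * n + 2) / 2 ≤ (n + 1 - p) * (p * (n + 1 - p) + (n + 1) / 2) := by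
    rcases h with h | h | h
    · rw [h]
      nlinarith
    · rw [h]
      nlinarith
    · have h4 : 4 * (n - 3) ≤ p * (n + 1 - p) := by
        nlinarith [mul_nonneg (show (0 : ℝ) ≤ p - 4 by linarith) (show (0 : ℝ) ≤ n - 3 - p by linarith)]
      have h5 : (n + 1) / 2 * (4 * (n - 3) + (n + 1) / 2) ≤ (n + 1 - p) * (p * (n + 1 - p) + (n + 1) / 2) := mul_le_mul (by linarith) (by linarith) (by linarith) (by linarith)
      refine le_trans ?_ h5
      nlinarith
  have h2 := mul_le_mul_of_nonneg_left h1 (show (0 : ℝ) ≤ p by rcases h with h | h | h <;> linarith)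
  have h3 : p * (n + 1 - p) * ((n + 1) / 2) - (n * (3 * n + 2) / 2 * p - p * (n + 1 - p) * (p * (n + 1 - p))) =
      p * ((n + 1 - p) * (p * (n + 1 - p) + (n + 1) / 2)) - p * (n * (3 * n + 2) / 2) := by ring
  linarith

/-- `(x + 1) (n - x)` in terms of the minimum. -/
theorem sa_min {n x : ℕ} (hx : x < n) : (((x : ℕ) : ℝ) + 1) * (n - (x : ℕ)) = ((min (x + 1) (n - x) : ℕ) : ℝ) * (n + 1 - ((min (x + 1) (n - x) : ℕ) : ℝ)) := by
  rcases le_total (x + 1) (n - x) with h | h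
  · rw [min_eq_left h]
    push_cast
    ring
  · rw [min_eq_right h, Nat.cast_sub hx.le]
    ring

/-- The nodes except the first and the last one. -/
theorem sa_rest {n : ℕ} (hn : 8 ≤ n) {S : Finset (Fin n)} {c : Fin n → ℝ} (hc : ∀ i, F7.pr (CartanMatrix.A n) c i = 2) {e : Fin n → ℝ}
    (he : ∀ i, F7.pr (CartanMatrix.A n) e i = if i ∈ S then 1 else 0) (j : Fin n) (hj : 2 ≤ min ((j : ℕ) + 1) (n - (j : ℕ))) :
    (n : ℝ) * (3 * n + 2) / 2 * (e j + e j.rev) - 2 * c j * ∑ k, e k ≤ c j * ((n : ℝ) + 1) := by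
  have hjn := j.2
  have hnr : (8 : ℝ) ≤ n := by exact_mod_cast hn
  obtain ⟨p, hp⟩ : ∃ p : ℕ, p = min ((j : ℕ) + 1) (n - (j : ℕ)) := ⟨_, rfl⟩
  have hp2 : 2 ≤ p := by rw [hp]; exact hj
  have hpn : 2 * p ≤ n + 1 := by omega
  have hpr : (2 : ℝ) * p ≤ n + 1 := by exact_mod_cast hpn
  have hcj : c j = (p : ℝ) * (n + 1 - p) := by
    rw [valA hc j, sa_min hjn, hp]
  have hp0 : (2 : ℝ) ≤ p := by exact_mod_cast hp2
  have hc0 : 0 ≤ c j := by
    rw [hcj]
    exact mul_nonneg (by linarith) (by linarith)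
  obtain ⟨g, hg, h1⟩ := s0_vecA ((n : ℝ) * (3 * n + 2) / 2) (c j) j
  rw [s0_two he hg]
  have hX : c j * ((n : ℝ) + 1) = 2 * (c j * (((n : ℝ) + 1) / 2)) := by ring
  rw [hX]
  have hgi : ∀ i : Fin n, ∀ y : ℕ, y = min ((i : ℕ) + 1) (n - (i : ℕ)) → g i = (n : ℝ) * (3 * n + 2) / 2 * ((min y p : ℕ) : ℝ) - (p : ℝ) * (n + 1 - p) * ((y : ℝ) * (n + 1 - y)) := by
    intro i y hy
    rw [h1 i, sa_min i.2, ← hp, ← hy, hcj]
  have hdiag : ∀ i : Fin n, p = min ((i : ℕ) + 1) (n - (i : ℕ)) → g i ≤ c j * (((n : ℝ) + 1) / 2) := by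
    intro i hi
    rw [hgi i p hi, min_self, hcj]
    refine sa_peak hnr hpr ?_
    have h4 : p = 2 ∨ p = 3 ∨ 4 ≤ p := by omega
    rcases h4 with h4 | h4 | h4
    · left
      exact_mod_cast h4
    · right
      left
      exact_mod_cast h4
    · right
      right
      exact_mod_cast h4
  have hrev : (j.rev : ℕ) = n - ((j : ℕ) + 1) := by simp [Fin.rev]
  refine sa_le (j := j) (j' := j.rev) (mul_nonneg hc0 (by linarith)) (hdiag j hp) (hdiag j.rev ?_) ?_
  · rw [hrev, hp]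
    omega
  · intro i hij hij'
    obtain ⟨y, hy⟩ : ∃ y : ℕ, y = min ((i : ℕ) + 1) (n - (i : ℕ)) := ⟨_, rfl⟩
    rw [hgi i y hy]
    have hi := i.2
    have hne1 : (i : ℕ) ≠ (j : ℕ) := fun h => hij (Fin.ext h)
    have hne2 : (i : ℕ) ≠ n - ((j : ℕ) + 1) := fun h => hij' (Fin.ext (by rw [hrev]; exact h))
    have hyp : y ≠ p := by omega
    have hy1 : 1 ≤ y := by omega
    have hyn : 2 * y ≤ n + 1 := by omega
    rcases lt_or_gt_of_ne hyp with h | h
    · rw [min_eq_left h.le]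
      have h5 := sa_keyN hn hy1 h hpn
      linarith
    · rw [min_eq_right h.le]
      have h5 := sa_keyN hn (show 1 ≤ p by omega) h hyn
      have h6 : (p : ℝ) * (n + 1 - p) * ((y : ℝ) * (n + 1 - y)) = (y : ℝ) * (n + 1 - y) * (p * (n + 1 - p)) := by ring
      linarith

/-- The entries of the vector for the first and the last node. -/
theorem sa_first {n : ℕ} (hn : 8 ≤ n) {S : Finset (Fin n)} {c : Fin n → ℝ} (hc : ∀ i, F7.pr (CartanMatrix.A n) c i = 2) {e : Fin n → ℝ}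
    (he : ∀ i, F7.pr (CartanMatrix.A n) e i = if i ∈ S then 1 else 0) (j : Fin n) (hj : min ((j : ℕ) + 1) (n - (j : ℕ)) = 1) :
    ∃ g : Fin n → ℝ, (n : ℝ) * (3 * n + 2) / 2 * (e j + e j.rev) - 2 * c j * ∑ k, e k = ∑ i ∈ S, g i ∧ c j = n ∧
      (∀ i : Fin n, min ((i : ℕ) + 1) (n - (i : ℕ)) = 1 → g i ≤ (n : ℝ) * (n + 2) / 2) ∧ ∀ i : Fin n, min ((i : ℕ) + 1) (n - (i : ℕ)) ≠ 1 → g i ≤ -(n : ℝ) := by
  have hjn := j.2
  have hnr : (8 : ℝ) ≤ n := by exact_mod_cast hn
  have hcj : c j = n := by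
    rw [valA hc j, sa_min hjn, hj]
    push_cast
    ring
  obtain ⟨g, hg, h1⟩ := s0_vecA ((n : ℝ) * (3 * n + 2) / 2) (c j) j
  refine ⟨g, s0_two he hg, hcj, ?_, ?_⟩
  · intro i hi
    rw [h1 i, sa_min i.2, hj, hi, hcj, min_self]
    push_cast
    refine le_of_eq ?_
    ring
  · intro i hi
    have hi2 := i.2
    obtain ⟨y, hy⟩ : ∃ y : ℕ, y = min ((i : ℕ) + 1) (n - (i : ℕ)) := ⟨_, rfl⟩
    have hy2 : 2 ≤ y := by omega
    have hyn : 2 * y ≤ n + 1 := by omega
    have hy2r : (2 : ℝ) ≤ y := by exact_mod_cast hy2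
    have hynr : (2 : ℝ) * y ≤ n + 1 := by exact_mod_cast hyn
    rw [h1 i, sa_min i.2, hj, ← hy, hcj, min_eq_right (show 1 ≤ y by omega)]
    push_cast
    have h4 : 2 * ((n : ℝ) - 1) ≤ (y : ℝ) * (n + 1 - y) := by
      nlinarith [mul_nonneg (show (0 : ℝ) ≤ (y : ℝ) - 2 by linarith) (show (0 : ℝ) ≤ (n : ℝ) - 1 - y by linarith)]
    have h5 := mul_le_mul_of_nonneg_left h4 (show (0 : ℝ) ≤ (n : ℝ) by linarith)
    have h6 := mul_nonneg (show (0 : ℝ) ≤ (n : ℝ) by linarith) (show (0 : ℝ) ≤ (n : ℝ) - 8 by linarith)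
    linarith

/-- **Type `A_n`, `n ≥ 8`**: `S ≠ {0, n - 1}`. -/
theorem shA {n : ℕ} (hn : 8 ≤ n) {S : Finset (Fin n)} (hS : S ≠ {⟨0, by omega⟩, ⟨n - 1, by omega⟩}) : SqT (CartanMatrix.A n) Fin.rev ((n : ℝ) * (3 * n + 2) / 2) ((n : ℝ) + 1) S := by
  intro c hc e he j
  have hnr : (8 : ℝ) ≤ n := by exact_mod_cast hn
  have hjn := j.2
  by_cases hj : min ((j : ℕ) + 1) (n - (j : ℕ)) = 1
  · obtain ⟨g, h1, h2, h3, h4⟩ := sa_first hn hc he j hj
    have h5 : ∑ i ∈ S, g i ≤ 2 * ((n : ℝ) * (n + 2) / 2) - n := by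
      refine sa_lt (j := ⟨0, by omega⟩) (j' := ⟨n - 1, by omega⟩) ?_ (by linarith) ?_ (h3 _ ?_) (h3 _ ?_) ?_ hS
      · intro h
        have h6 := congrArg Fin.val h
        simp only at h6
        omega
      · nlinarith
      · show min (0 + 1) (n - 0) = 1
        omega
      · show min (n - 1 + 1) (n - (n - 1)) = 1
        omega
      · intro i hi hi'
        refine h4 i ?_
        have hin := i.2
        have h6 : (i : ℕ) ≠ 0 := fun h => hi (Fin.ext h)
        have h7 : (i : ℕ) ≠ n - 1 := fun h => hi' (Fin.ext h)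
        omega
    rw [h2] at h1 ⊢
    linarith
  · have h1 := sa_rest hn hc he j (by omega)
    linarith

/-- **Type `A_n`, `n ≥ 8`**: all `S`. -/
theorem shA' {n : ℕ} (hn : 8 ≤ n) (S : Finset (Fin n)) : SqT (CartanMatrix.A n) Fin.rev ((n : ℝ) * (3 * n + 2) / 2) ((n : ℝ) + 2) S := by
  intro c hc e he j
  have hnr : (8 : ℝ) ≤ n := by exact_mod_cast hn
  have hjn := j.2
  by_cases hj : min ((j : ℕ) + 1) (n - (j : ℕ)) = 1
  · obtain ⟨g, h1, h2, h3, h4⟩ := sa_first hn hc he j hj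
    have h5 : ∑ i ∈ S, g i ≤ 2 * ((n : ℝ) * (n + 2) / 2) := by
      refine sa_le (j := ⟨0, by omega⟩) (j' := ⟨n - 1, by omega⟩) ?_ (h3 _ ?_) (h3 _ ?_) ?_
      · have := mul_nonneg (show (0 : ℝ) ≤ n by linarith) (show (0 : ℝ) ≤ (n : ℝ) + 2 by linarith)
        linarith
      · show min (0 + 1) (n - 0) = 1
        omega
      · show min (n - 1 + 1) (n - (n - 1)) = 1
        omega
      · intro i hi hi'
        refine (h4 i ?_).trans (by linarith)
        have hin := i.2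
        have h6 : (i : ℕ) ≠ 0 := fun h => hi (Fin.ext h)
        have h7 : (i : ℕ) ≠ n - 1 := fun h => hi' (Fin.ext h)
        omega
    rw [h2] at h1 ⊢
    linarith
  · have h1 := sa_rest hn hc he j (by omega)
    have h2 : 0 ≤ c j := by
      rw [valA hc j]
      have hj0 : (0 : ℝ) ≤ ((j : ℕ) : ℝ) := Nat.cast_nonneg _
      have hj1 : ((j : ℕ) : ℝ) + 1 ≤ n := by exact_mod_cast hjn
      exact mul_nonneg (by linarith) (by linarith)
    linarith

end Pool.Agent.Lib.L8.FN
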