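import Pool.Agent.Lib.L8.FN.Defs
import Pool.Agent.Lib.L8.FN.S0

/-!
# FN SB: the inequality of the final table, type `B_n`, `n ≥ 5` (helper66)
-/

namespace Pool.Agent.Lib.L8.FN

open Matrix Pool.Agent.Lib.L8.F7

/-- `x < J`. -/
theorem sb_key1 {n a b : ℝ} (hn : 5 ≤ n) (ha : 1 ≤ a) (h : (b = 2 ∧ a = 1) ∨ (3 ≤ b ∧ b ≤ n - 1 ∧ a ≤ b - 1) ∨ (b = n ∧ a ≤ n - 1)) :
    (2 * n - 1) * (3 * n + 2) * a ≤ b * (2 * n - b) * (a * (2 * n + 1 - a)) := by
  have h3 : (2 * n - 1) * (3 * n + 2) ≤ b * (2 * n - b) * (2 * n + 1 - a) := by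
    rcases h with ⟨hb, ha1⟩ | ⟨hb, hb2, hab⟩ | ⟨hb, hab⟩
    · rw [hb, ha1]
      nlinarith
    · have h4 : 3 * (2 * n - 3) ≤ b * (2 * n - b) := by
        nlinarith [mul_nonneg (show (0 : ℝ) ≤ b - 3 by linarith) (show (0 : ℝ) ≤ 2 * n - 3 - b by linarith)]
      have h5 : n + 3 ≤ 2 * n + 1 - a := by linarith
      have h6 : (2 * n - 1) * (3 * n + 2) ≤ 3 * (2 * n - 3) * (n + 3) := by nlinarith
      exact h6.trans (mul_le_mul h4 h5 (by linarith) (mul_nonneg (by linarith) (by linarith)))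
    · rw [hb]
      have h5 : n + 2 ≤ 2 * n + 1 - a := by linarith
      have h6 : (2 * n - 1) * (3 * n + 2) ≤ n * (2 * n - n) * (n + 2) := by
        have h7 : 0 ≤ n * n * (n - 5) := mul_nonneg (mul_nonneg (by linarith) (by linarith)) (by linarith)
        nlinarith
      exact h6.trans (mul_le_mul_of_nonneg_left h5 (mul_nonneg (by linarith) (by linarith)))
  have h7 := mul_le_mul_of_nonneg_left h3 (show (0 : ℝ) ≤ a by linarith)
  calc (2 * n - 1) * (3 * n + 2) * a = a * ((2 * n - 1) * (3 * n + 2)) := by ring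
    _ ≤ a * (b * (2 * n - b) * (2 * n + 1 - a)) := h7
    _ = b * (2 * n - b) * (a * (2 * n + 1 - a)) := by ring

/-- `J < x`. -/
theorem sb_key2 {n a b : ℝ} (hn : 5 ≤ n) (ha : 1 ≤ a) (h : (3 ≤ b ∧ b ≤ n - 1 ∧ a ≤ b - 1) ∨ (b = n ∧ a ≤ n - 1)) :
    (2 * n - 1) * (3 * n + 2) * a ≤ a * (2 * n - a) * (b * (2 * n + 1 - b)) := by
  have h3 : (2 * n - 1) * (3 * n + 2) ≤ (2 * n - a) * (b * (2 * n + 1 - b)) := by
    rcases h with ⟨hb, hb2, hab⟩ | ⟨hb, hab⟩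
    · have h4 : 3 * (2 * n - 2) ≤ b * (2 * n + 1 - b) := by
        nlinarith [mul_nonneg (show (0 : ℝ) ≤ b - 3 by linarith) (show (0 : ℝ) ≤ 2 * n - 2 - b by linarith)]
      have h5 : n + 2 ≤ 2 * n - a := by linarith
      have h6 : (2 * n - 1) * (3 * n + 2) ≤ (n + 2) * (3 * (2 * n - 2)) := by nlinarith
      exact h6.trans (mul_le_mul h5 h4 (by linarith) (by linarith))
    · rw [hb]
      have h5 : n + 1 ≤ 2 * n - a := by linarith
      have h6 : (2 * n - 1) * (3 * n + 2) ≤ (n + 1) * (n * (2 * n + 1 - n)) := by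
        have h7 : 0 ≤ n * n * (n - 5) := mul_nonneg (mul_nonneg (by linarith) (by linarith)) (by linarith)
        nlinarith
      exact h6.trans (mul_le_mul_of_nonneg_right h5 (mul_nonneg (by linarith) (by linarith)))
  have h7 := mul_le_mul_of_nonneg_left h3 (show (0 : ℝ) ≤ a by linarith)
  calc (2 * n - 1) * (3 * n + 2) * a = a * ((2 * n - 1) * (3 * n + 2)) := by ring
    _ ≤ a * ((2 * n - a) * (b * (2 * n + 1 - b))) := h7
    _ = a * (2 * n - a) * (b * (2 * n + 1 - b)) := by ring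

/-- Off the diagonal, `J ≥ 2`. -/
theorem sb_sign {n x J : ℕ} (hn : 5 ≤ n) (hx : 1 ≤ x) (hx2 : x ≤ n) (hJ : 2 ≤ J) (hJ2 : J ≤ n) (h : x ≠ J) :
    (2 * (n : ℝ) - 1) * (3 * n + 2) / 2 * ((min x J : ℕ) : ℝ) - (J : ℝ) * (2 * n - J) * ((x : ℝ) * (2 * n + 1 - x)) / 2 ≤ 0 := by
  have hnr : (5 : ℝ) ≤ n := by exact_mod_cast hn
  have hxr : (1 : ℝ) ≤ x := by exact_mod_cast hx
  have hJr : (2 : ℝ) ≤ J := by exact_mod_cast hJ
  rcases lt_or_gt_of_ne h with hxJ | hxJ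
  · rw [min_eq_left hxJ.le]
    have hb : ((J : ℝ) = 2 ∧ (x : ℝ) = 1) ∨ ((3 : ℝ) ≤ J ∧ (J : ℝ) ≤ n - 1 ∧ (x : ℝ) ≤ J - 1) ∨ ((J : ℝ) = n ∧ (x : ℝ) ≤ n - 1) := by
      have h1 : (J = 2 ∧ x = 1) ∨ (3 ≤ J ∧ J + 1 ≤ n ∧ x + 1 ≤ J) ∨ (J = n ∧ x + 1 ≤ n) := by omega
      rcases h1 with ⟨h1, h2⟩ | ⟨h1, h2, h3⟩ | ⟨h1, h2⟩
      · left
        exact ⟨by exact_mod_cast h1, by exact_mod_cast h2⟩
      · right
        left
        have h4 : (J : ℝ) + 1 ≤ n := by exact_mod_cast h2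
        have h5 : (x : ℝ) + 1 ≤ J := by exact_mod_cast h3
        exact ⟨by exact_mod_cast h1, by linarith, by linarith⟩
      · right
        right
        have h4 : (x : ℝ) + 1 ≤ n := by exact_mod_cast h2
        exact ⟨by exact_mod_cast h1, by linarith⟩
    have h1 := sb_key1 hnr hxr hb
    linarith
  · rw [min_eq_right hxJ.le]
    have hb : ((3 : ℝ) ≤ x ∧ (x : ℝ) ≤ n - 1 ∧ (J : ℝ) ≤ x - 1) ∨ ((x : ℝ) = n ∧ (J : ℝ) ≤ n - 1) := by
      have h1 : (3 ≤ x ∧ x + 1 ≤ n ∧ J + 1 ≤ x) ∨ (x = n ∧ J + 1 ≤ n) := by omega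
      rcases h1 with ⟨h1, h2, h3⟩ | ⟨h1, h2⟩
      · left
        have h4 : (x : ℝ) + 1 ≤ n := by exact_mod_cast h2
        have h5 : (J : ℝ) + 1 ≤ x := by exact_mod_cast h3
        exact ⟨by exact_mod_cast h1, by linarith, by linarith⟩
      · right
        have h4 : (J : ℝ) + 1 ≤ n := by exact_mod_cast h2
        exact ⟨by exact_mod_cast h1, by linarith⟩
    have h1 := sb_key2 hnr (show (1 : ℝ) ≤ J by linarith) hb
    linarith

/-- The value at the node itself, `2 ≤ J ≤ n - 1`. -/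
theorem sb_peak {n J : ℝ} (hn : 5 ≤ n) (hJ2 : J ≤ n - 1) (h : J = 2 ∨ 3 ≤ J) :
    (2 * n - 1) * (3 * n + 2) / 2 * J - J * (2 * n - J) * (J * (2 * n + 1 - J)) / 2 ≤ J * (2 * n - J) * ((n + 1) / 2) := by
  have h1 : (2 * n - 1) * (3 * n + 2) ≤ (2 * n - J) * (J * (2 * n + 1 - J) + (n + 1)) := by
    rcases h with h | h
    · rw [h]
      nlinarith
    · have h4 : 3 * (2 * n - 2) ≤ J * (2 * n + 1 - J) := by
        nlinarith [mul_nonneg (show (0 : ℝ) ≤ J - 3 by linarith) (show (0 : ℝ) ≤ 2 * n - 2 - J by linarith)]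
      have h5 : (n + 1) * (3 * (2 * n - 2) + (n + 1)) ≤ (2 * n - J) * (J * (2 * n + 1 - J) + (n + 1)) :=
        mul_le_mul (by linarith) (by linarith) (by linarith) (by linarith)
      have h6 : (2 * n - 1) * (3 * n + 2) ≤ (n + 1) * (3 * (2 * n - 2) + (n + 1)) := by nlinarith
      exact h6.trans h5
  have h2 := mul_le_mul_of_nonneg_left h1 (show (0 : ℝ) ≤ J by rcases h with h | h <;> linarith)
  have h3 : J * (2 * n - J) * ((n + 1) / 2) - ((2 * n - 1) * (3 * n + 2) / 2 * J - J * (2 * n - J) * (J * (2 * n + 1 - J)) / 2) =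
      (J * ((2 * n - J) * (J * (2 * n + 1 - J) + (n + 1))) - J * ((2 * n - 1) * (3 * n + 2))) / 2 := by ring
  linarith

/-- All nodes except the first one. -/
theorem sb_rest {n : ℕ} (hn : 5 ≤ n) {S : Finset (Fin n)} {c : Fin n → ℝ} (hc : ∀ i, F7.pr (CartanMatrix.B n) c i = 2) {e : Fin n → ℝ}
    (he : ∀ i, F7.pr (CartanMatrix.B n) e i = if i ∈ S then 1 else 0) (j : Fin n) (hj : (j : ℕ) ≠ 0) :
    (2 * (n : ℝ) - 1) * (3 * n + 2) / 2 * e j - c j * ∑ k, e k ≤ c j * (((n : ℝ) + 1) / 2) := by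
  have hnr : (5 : ℝ) ≤ n := by exact_mod_cast hn
  have hjn := j.2
  have hj1 : (1 : ℝ) ≤ ((j : ℕ) : ℝ) := by
    have h1 : 1 ≤ (j : ℕ) := by omega
    exact_mod_cast h1
  have hj3 : ((j : ℕ) : ℝ) + 1 ≤ n := by exact_mod_cast hjn
  have hcj : c j = (((j : ℕ) : ℝ) + 1) * (2 * n - (((j : ℕ) : ℝ) + 1)) := by
    rw [valB hc j]
    ring
  have hc0 : 0 ≤ c j := by
    rw [hcj]
    exact mul_nonneg (by linarith) (by linarith)
  obtain ⟨g, hg, h1, h2⟩ := s0_vecB (show 2 ≤ n by omega) ((2 * (n : ℝ) - 1) * (3 * n + 2) / 2) (c j) j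
  rw [s0_one he hg]
  refine s0_le (j := j) (mul_nonneg hc0 (by linarith)) ?_ ?_
  · by_cases hj2 : (j : ℕ) + 1 < n
    · rw [h1 j hj2, min_self, hcj]
      have h3 : (((j : ℕ) : ℝ) + 1) = 2 ∨ 3 ≤ (((j : ℕ) : ℝ) + 1) := by
        have h4 : (j : ℕ) = 1 ∨ 2 ≤ (j : ℕ) := by omega
        rcases h4 with h4 | h4
        · left
          rw [h4]
          norm_num
        · right
          have h5 : (2 : ℝ) ≤ ((j : ℕ) : ℝ) := by exact_mod_cast h4
          linarith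
      have hj4 : ((j : ℕ) : ℝ) + 2 ≤ n := by
        have h4 : (j : ℕ) + 2 ≤ n := by omega
        exact_mod_cast h4
      have h4 := sb_peak hnr (show ((j : ℕ) : ℝ) + 1 ≤ n - 1 by linarith) h3
      push_cast
      have h5 : (2 * (n : ℝ) - ((j : ℕ) : ℝ)) = 2 * n + 1 - (((j : ℕ) : ℝ) + 1) := by ring
      rw [h5]
      exact h4
    · have hjn2 : (j : ℕ) + 1 = n := by omega
      have hjr : ((j : ℕ) : ℝ) + 1 = n := by exact_mod_cast hjn2
      rw [h2 j hjn2, hcj, hjr]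
      have h7 : 0 ≤ (n : ℝ) * n * (n - 5) := mul_nonneg (mul_nonneg (by linarith) (by linarith)) (by linarith)
      have h8 : 0 ≤ (n : ℝ) * (n - 5) := mul_nonneg (by linarith) (by linarith)
      have h9 : 0 ≤ (n : ℝ) * ((n : ℝ) * n * (n - 5) + 2 * (n * (n - 5)) + 11 * n + 2) := by
        refine mul_nonneg (by linarith) (by linarith)
      have h10 : (n : ℝ) * (2 * n - n) * ((n + 1) / 2) - ((2 * (n : ℝ) - 1) * (3 * n + 2) / 2 * n - n * (2 * n - n) * (n * (n + 1)) / 2) / 2 =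
          (n : ℝ) * ((n : ℝ) * n * (n - 5) + 2 * (n * (n - 5)) + 11 * n + 2) / 4 := by ring
      linarith
  · intro i hij
    have hne : (i : ℕ) + 1 ≠ (j : ℕ) + 1 := fun h => hij (Fin.ext (by omega))
    have hi := i.2
    have h4 := sb_sign hn (show 1 ≤ (i : ℕ) + 1 by omega) (show (i : ℕ) + 1 ≤ n by omega) (show 2 ≤ (j : ℕ) + 1 by omega) (show (j : ℕ) + 1 ≤ n by omega) hne
    by_cases hi2 : (i : ℕ) + 1 < n
    · rw [h1 i hi2, hcj]
      have h5 : (2 * (n : ℝ) - ((i : ℕ) : ℝ)) = 2 * n + 1 - (((i : ℕ) : ℝ) + 1) := by ring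
      rw [h5]
      refine le_trans (le_of_eq ?_) h4
      push_cast
      ring
    · have hin : (i : ℕ) + 1 = n := by omega
      rw [h2 i hin, hcj]
      rw [hin, min_eq_right (show (j : ℕ) + 1 ≤ n by omega)] at h4
      have h6 : (2 * (n : ℝ) - 1) * (3 * n + 2) / 2 * (((j : ℕ) : ℝ) + 1) - (((j : ℕ) : ℝ) + 1) * (2 * n - (((j : ℕ) : ℝ) + 1)) * (n * ((n : ℝ) + 1)) / 2 ≤ 0 := by
        refine le_trans (le_of_eq ?_) h4
        push_cast
        ring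
      linarith

/-- The entries of the vector for the first node. -/
theorem sb_first {n : ℕ} (hn : 5 ≤ n) {S : Finset (Fin n)} {c : Fin n → ℝ} (hc : ∀ i, F7.pr (CartanMatrix.B n) c i = 2) {e : Fin n → ℝ}
    (he : ∀ i, F7.pr (CartanMatrix.B n) e i = if i ∈ S then 1 else 0) (j : Fin n) (hj : (j : ℕ) = 0) :
    ∃ g : Fin n → ℝ, (2 * (n : ℝ) - 1) * (3 * n + 2) / 2 * e j - c j * ∑ k, e k = ∑ i ∈ S, g i ∧ 1 / 2 ≤ c j / 2 ∧ g j ≤ c j * (((n : ℝ) + 2) / 2) ∧ ∀ i, i ≠ j → g i ≤ -(c j / 2) := by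
  have hnr : (5 : ℝ) ≤ n := by exact_mod_cast hn
  have hcj : c j = 2 * n - 1 := by
    rw [valB hc j, hj]
    push_cast
    ring
  obtain ⟨g, hg, h1, h2⟩ := s0_vecB (show 2 ≤ n by omega) ((2 * (n : ℝ) - 1) * (3 * n + 2) / 2) (c j) j
  refine ⟨g, s0_one he hg, ?_, ?_, ?_⟩
  · rw [hcj]
    linarith
  · rw [h1 j (by omega), min_self, hcj, hj]
    push_cast
    refine le_of_eq ?_
    ring
  · intro i hij
    have hi0 := i.2
    have hi1 : 1 ≤ (i : ℕ) := by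
      by_contra hcon
      exact hij (Fin.ext (by omega))
    by_cases hi : (i : ℕ) + 1 < n
    · rw [h1 i hi, hcj, hj, min_eq_right (show 0 + 1 ≤ (i : ℕ) + 1 by omega)]
      have hi1r : (1 : ℝ) ≤ ((i : ℕ) : ℝ) := by exact_mod_cast hi1
      have hi3 : ((i : ℕ) : ℝ) + 2 ≤ n := by
        have h4 : (i : ℕ) + 2 ≤ n := by omega
        exact_mod_cast h4
      have h4 : 3 * (n : ℝ) + 3 ≤ (((i : ℕ) : ℝ) + 1) * (2 * n - (i : ℕ)) := by
        nlinarith [mul_nonneg (show (0 : ℝ) ≤ ((i : ℕ) : ℝ) - 1 by linarith) (show (0 : ℝ) ≤ 2 * (n : ℝ) - 2 - (i : ℕ) by linarith)]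
      have h5 := mul_le_mul_of_nonneg_left h4 (show (0 : ℝ) ≤ 2 * (n : ℝ) - 1 by linarith)
      push_cast
      have h6 : (2 * (n : ℝ) - 1) * (3 * n + 2) / 2 * 1 - (2 * n - 1) * ((((i : ℕ) : ℝ) + 1) * (2 * n - (i : ℕ))) / 2 =
          ((2 * (n : ℝ) - 1) * (3 * n + 2) - (2 * n - 1) * ((((i : ℕ) : ℝ) + 1) * (2 * n - (i : ℕ)))) / 2 := by ring
      rw [h6]
      linarith
    · rw [h2 i (by omega), hcj, hj]
      push_cast
      have h5 := mul_nonneg (show (0 : ℝ) ≤ 2 * (n : ℝ) - 1 by linarith) (show (0 : ℝ) ≤ (n : ℝ) * (n - 2) - 4 by nlinarith)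
      have h6 : -((2 * (n : ℝ) - 1) / 2) - ((2 * (n : ℝ) - 1) * (3 * n + 2) / 2 * (0 + 1) - (2 * n - 1) * (n * (n + 1)) / 2) / 2 = (2 * (n : ℝ) - 1) * ((n : ℝ) * (n - 2) - 4) / 4 := by ring
      linarith

/-- **Type `B_n`, `n ≥ 5`**: `S ≠ {0}`. -/
theorem shB {n : ℕ} (hn : 5 ≤ n) {S : Finset (Fin n)} (hS : S ≠ {⟨0, by omega⟩}) : SqT (CartanMatrix.B n) id ((2 * (n : ℝ) - 1) * (3 * n + 2) / 2) ((n : ℝ) + 1) S := by
  intro c hc e he j
  have hnr : (5 : ℝ) ≤ n := by exact_mod_cast hn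
  show (2 * (n : ℝ) - 1) * (3 * n + 2) / 2 * (e j + e j) ≤ _
  by_cases hj : (j : ℕ) = 0
  · obtain ⟨g, h1, h2, h3, h4⟩ := sb_first hn hc he j hj
    have h5 : ∑ i ∈ S, g i ≤ c j * (((n : ℝ) + 2) / 2) - c j / 2 := by
      refine s0_lt (j := j) (by linarith) ?_ h3 h4 ?_
      · nlinarith
      · intro h
        apply hS
        rw [h]
        congr 1
        exact Fin.ext hj
    linarith
  · have h1 := sb_rest hn hc he j hj
    linarith

/-- **Type `B_n`, `n ≥ 5`**: all `S`. -/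
theorem shB' {n : ℕ} (hn : 5 ≤ n) (S : Finset (Fin n)) : SqT (CartanMatrix.B n) id ((2 * (n : ℝ) - 1) * (3 * n + 2) / 2) ((n : ℝ) + 2) S := by
  intro c hc e he j
  have hnr : (5 : ℝ) ≤ n := by exact_mod_cast hn
  show (2 * (n : ℝ) - 1) * (3 * n + 2) / 2 * (e j + e j) ≤ _
  by_cases hj : (j : ℕ) = 0
  · obtain ⟨g, h1, h2, h3, h4⟩ := sb_first hn hc he j hj
    have h5 : ∑ i ∈ S, g i ≤ c j * (((n : ℝ) + 2) / 2) := by
      refine s0_le (j := j) (mul_nonneg (by linarith) (by linarith)) h3 fun i hi => (h4 i hi).trans (by linarith)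
    linarith
  · have h1 := sb_rest hn hc he j hj
    have h2 : 0 ≤ c j := by
      rw [valB hc j]
      have hjn := j.2
      have hj0 : (0 : ℝ) ≤ ((j : ℕ) : ℝ) := Nat.cast_nonneg _
      have hj1 : ((j : ℕ) : ℝ) + 1 ≤ n := by exact_mod_cast hjn
      exact mul_nonneg (by linarith) (by linarith)
    linarith

end Pool.Agent.Lib.L8.FN
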