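import Pool.Agent.Lib.L8.FN.Defs
import Pool.Agent.Lib.L8.FN.S0

/-!
# FN SD: the inequality of the final table, type `D_n`, `n ≥ 7` (helper66)
-/

namespace Pool.Agent.Lib.L8.FN

open Matrix Pool.Agent.Lib.L8.F7

theorem sd_key {n a b : ℝ} (hn : 7 ≤ n) (ha : 1 ≤ a) (hbn : b ≤ n - 2) (h : (b = 2 ∧ a = 1) ∨ (3 ≤ b ∧ a ≤ b - 1)) :
    6 * (n * (n - 1)) * a ≤ a * (2 * n - 1 - a) * (b * (2 * n - 1 - b)) := by
  have h3 : 6 * (n * (n - 1)) ≤ (2 * n - 1 - a) * (b * (2 * n - 1 - b)) := by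
    rcases h with ⟨hb, ha1⟩ | ⟨hb, hab⟩
    · rw [hb, ha1]
      nlinarith [mul_nonneg (show (0 : ℝ) ≤ n - 1 by linarith) (show (0 : ℝ) ≤ n - 7 by linarith)]
    · have h4 : 3 * (2 * n - 4) ≤ b * (2 * n - 1 - b) := by
        nlinarith [mul_nonneg (show (0 : ℝ) ≤ b - 3 by linarith) (show (0 : ℝ) ≤ 2 * n - 4 - b by linarith)]
      have h5 : n + 2 ≤ 2 * n - 1 - a := by linarith
      have h6 : 6 * (n * (n - 1)) ≤ (n + 2) * (3 * (2 * n - 4)) := by nlinarith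
      exact h6.trans (mul_le_mul h5 h4 (by linarith) (by linarith))
  have h7 := mul_le_mul_of_nonneg_left h3 (show (0 : ℝ) ≤ a by linarith)
  calc 6 * (n * (n - 1)) * a = a * (6 * (n * (n - 1))) := by ring
    _ ≤ a * ((2 * n - 1 - a) * (b * (2 * n - 1 - b))) := h7
    _ = a * (2 * n - 1 - a) * (b * (2 * n - 1 - b)) := by ring

/-- Off the diagonal, `x ≤ n - 2`. -/
theorem sd_sign {n x J : ℕ} (hn : 7 ≤ n) (hx : 1 ≤ x) (hx2 : x + 2 ≤ n) (hJ : 1 ≤ J) (hJ2 : J + 2 ≤ n) (h : x ≠ J) :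
    3 * (n : ℝ) * (n - 1) * ((min x J : ℕ) : ℝ) - (J : ℝ) * (2 * n - 1 - J) * ((x : ℝ) * (2 * n - 1 - x)) / 2 ≤ 0 := by
  have hnr : (7 : ℝ) ≤ n := by exact_mod_cast hn
  have hxr : (1 : ℝ) ≤ x := by exact_mod_cast hx
  have hJr : (1 : ℝ) ≤ J := by exact_mod_cast hJ
  have hJ2r : (J : ℝ) ≤ n - 2 := by
    have h2 : (J : ℝ) + 2 ≤ n := by exact_mod_cast hJ2
    linarith
  have hx2r : (x : ℝ) ≤ n - 2 := by
    have h2 : (x : ℝ) + 2 ≤ n := by exact_mod_cast hx2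
    linarith
  rcases lt_or_gt_of_ne h with hxJ | hxJ
  · rw [min_eq_left hxJ.le]
    have hb : ((J : ℝ) = 2 ∧ (x : ℝ) = 1) ∨ ((3 : ℝ) ≤ J ∧ (x : ℝ) ≤ J - 1) := by
      have h1 : (J = 2 ∧ x = 1) ∨ (3 ≤ J ∧ x + 1 ≤ J) := by omega
      rcases h1 with ⟨h1, h2⟩ | ⟨h1, h2⟩
      · left
        exact ⟨by exact_mod_cast h1, by exact_mod_cast h2⟩
      · right
        have h3 : (x : ℝ) + 1 ≤ J := by exact_mod_cast h2
        exact ⟨by exact_mod_cast h1, by linarith⟩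
    have h1 := sd_key hnr hxr hJ2r hb
    have h2 : (x : ℝ) * (2 * n - 1 - x) * (J * (2 * n - 1 - J)) = (J : ℝ) * (2 * n - 1 - J) * ((x : ℝ) * (2 * n - 1 - x)) := by ring
    linarith
  · rw [min_eq_right hxJ.le]
    have hb : ((x : ℝ) = 2 ∧ (J : ℝ) = 1) ∨ ((3 : ℝ) ≤ x ∧ (J : ℝ) ≤ x - 1) := by
      have h1 : (x = 2 ∧ J = 1) ∨ (3 ≤ x ∧ J + 1 ≤ x) := by omega
      rcases h1 with ⟨h1, h2⟩ | ⟨h1, h2⟩
      · left
        exact ⟨by exact_mod_cast h1, by exact_mod_cast h2⟩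
      · right
        have h3 : (J : ℝ) + 1 ≤ x := by exact_mod_cast h2
        exact ⟨by exact_mod_cast h1, by linarith⟩
    have h1 := sd_key hnr hJr hx2r hb
    linarith

/-- The value at the node itself, `2 ≤ J ≤ n - 2`. -/
theorem sd_peak {n J : ℝ} (hn : 7 ≤ n) (hJ2 : J ≤ n - 2) (h : J = 2 ∨ 3 ≤ J) :
    3 * n * (n - 1) * J - J * (2 * n - 1 - J) * (J * (2 * n - 1 - J)) / 2 ≤ J * (2 * n - 1 - J) * ((n + 1) / 2) := by
  have h1 : 6 * (n * (n - 1)) ≤ (2 * n - 1 - J) * (J * (2 * n - 1 - J) + (n + 1)) := by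
    rcases h with h | h
    · rw [h]
      nlinarith
    · have h4 : 3 * (2 * n - 4) ≤ J * (2 * n - 1 - J) := by
        nlinarith [mul_nonneg (show (0 : ℝ) ≤ J - 3 by linarith) (show (0 : ℝ) ≤ 2 * n - 4 - J by linarith)]
      have h5 : (n + 1) * (3 * (2 * n - 4) + (n + 1)) ≤ (2 * n - 1 - J) * (J * (2 * n - 1 - J) + (n + 1)) :=
        mul_le_mul (by linarith) (by linarith) (by linarith) (by linarith)
      have h6 : 6 * (n * (n - 1)) ≤ (n + 1) * (3 * (2 * n - 4) + (n + 1)) := by nlinarith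
      exact h6.trans h5
  have h2 := mul_le_mul_of_nonneg_left h1 (show (0 : ℝ) ≤ J by rcases h with h | h <;> linarith)
  have h3 : J * (2 * n - 1 - J) * ((n + 1) / 2) - (3 * n * (n - 1) * J - J * (2 * n - 1 - J) * (J * (2 * n - 1 - J)) / 2) =
      (J * ((2 * n - 1 - J) * (J * (2 * n - 1 - J) + (n + 1))) - J * (6 * (n * (n - 1)))) / 2 := by ring
  linarith

/-- The last two entries for a node of the path. -/
theorem sd_tail {n J : ℝ} (hn : 7 ≤ n) (hJ : 1 ≤ J) (hJ2 : J ≤ n - 2) :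
    (3 * n * (n - 1) * J - J * (2 * n - 1 - J) * (n * (n - 1)) / 2) / 2 ≤ -(J * n * (n - 1) / 2) := by
  have h1 : 0 ≤ (J * n) * (n - 1) := mul_nonneg (mul_nonneg (by linarith) (by linarith)) (by linarith)
  have h2 := mul_nonneg h1 (show 0 ≤ 2 * n - 1 - J - 8 by linarith)
  have h3 : -(J * n * (n - 1) / 2) - (3 * n * (n - 1) * J - J * (2 * n - 1 - J) * (n * (n - 1)) / 2) / 2 =
      (J * n) * (n - 1) * (2 * n - 1 - J - 8) / 4 := by ring
  linarith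

/-- All nodes except the first one. -/
theorem sd_rest {n : ℕ} (hn : 7 ≤ n) {S : Finset (Fin n)} {c : Fin n → ℝ} (hc : ∀ i, F7.pr (CartanMatrix.D n) c i = 2) {e : Fin n → ℝ}
    (he : ∀ i, F7.pr (CartanMatrix.D n) e i = if i ∈ S then 1 else 0) (j : Fin n) (hj : (j : ℕ) ≠ 0) :
    3 * (n : ℝ) * (n - 1) * e j - c j * ∑ k, e k ≤ c j * (((n : ℝ) + 1) / 2) := by
  have hnr : (7 : ℝ) ≤ n := by exact_mod_cast hn
  have hjn := j.2
  by_cases hj2 : (j : ℕ) + 2 < n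
  · have hj1 : (1 : ℝ) ≤ ((j : ℕ) : ℝ) := by
      have h1 : 1 ≤ (j : ℕ) := by omega
      exact_mod_cast h1
    have hj3 : ((j : ℕ) : ℝ) + 3 ≤ n := by
      have h1 : (j : ℕ) + 3 ≤ n := by omega
      exact_mod_cast h1
    have hcj : c j = (((j : ℕ) : ℝ) + 1) * (2 * n - 1 - (((j : ℕ) : ℝ) + 1)) := by
      rw [va_D (by omega) hc j, if_pos hj2]
      ring
    have hc0 : 0 ≤ c j := by
      rw [hcj]
      exact mul_nonneg (by linarith) (by linarith)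
    obtain ⟨g, hg, h1, h2⟩ := s0_vecD (show 4 ≤ n by omega) (3 * (n : ℝ) * (n - 1)) (c j) j hj2
    rw [s0_one he hg]
    refine s0_le (j := j) (mul_nonneg hc0 (by linarith)) ?_ ?_
    · rw [h1 j hj2, min_self, hcj]
      have h3 : (((j : ℕ) : ℝ) + 1) = 2 ∨ 3 ≤ (((j : ℕ) : ℝ) + 1) := by
        have h4 : (j : ℕ) = 1 ∨ 2 ≤ (j : ℕ) := by omega
        rcases h4 with h4 | h4
        · left
          rw [h4]
          norm_num
        · right
          have h5 : (2 : ℝ) ≤ ((j : ℕ) : ℝ) := by exact_mod_cast h4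
          linarith
      have h4 := sd_peak hnr (show ((j : ℕ) : ℝ) + 1 ≤ n - 2 by linarith) h3
      push_cast
      have h5 : (2 * (n : ℝ) - 2 - ((j : ℕ) : ℝ)) = 2 * n - 1 - (((j : ℕ) : ℝ) + 1) := by ring
      rw [h5]
      exact h4
    · intro i hij
      by_cases hi : (i : ℕ) + 2 < n
      · rw [h1 i hi, hcj]
        have hne : (i : ℕ) + 1 ≠ (j : ℕ) + 1 := fun h => hij (Fin.ext (by omega))
        have h4 := sd_sign hn (show 1 ≤ (i : ℕ) + 1 by omega) (show (i : ℕ) + 1 + 2 ≤ n by omega) (show 1 ≤ (j : ℕ) + 1 by omega) (show (j : ℕ) + 1 + 2 ≤ n by omega) hne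
        have h5 : (2 * (n : ℝ) - 2 - ((i : ℕ) : ℝ)) = 2 * n - 1 - (((i : ℕ) : ℝ) + 1) := by ring
        rw [h5]
        refine le_trans (le_of_eq ?_) h4
        push_cast
        ring
      · rw [h2 i (by omega), hcj]
        have h4 := sd_tail hnr (show (1 : ℝ) ≤ ((j : ℕ) : ℝ) + 1 by linarith) (show ((j : ℕ) : ℝ) + 1 ≤ n - 2 by linarith)
        have h6 : 0 ≤ (((j : ℕ) : ℝ) + 1) * n * (n - 1) / 2 := by
          have := mul_nonneg (mul_nonneg (show (0 : ℝ) ≤ ((j : ℕ) : ℝ) + 1 by linarith) (show (0 : ℝ) ≤ n by linarith)) (show (0 : ℝ) ≤ (n : ℝ) - 1 by linarith)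
          linarith
        linarith
  · have hcj : c j = (n : ℝ) * ((n : ℝ) - 1) / 2 := by
      rw [va_D (by omega) hc j, if_neg hj2]
    have hnn : 0 ≤ (n : ℝ) * ((n : ℝ) - 1) := mul_nonneg (by linarith) (by linarith)
    have hc0 : 0 ≤ c j := by
      rw [hcj]
      linarith
    obtain ⟨g, hg, h1, h2, h3⟩ := s0_vecS (show 4 ≤ n by omega) (3 * (n : ℝ) * (n - 1)) (c j) j (by omega)
    rw [s0_one he hg]
    have h20 : 0 ≤ c j * (((n : ℝ) + 1) / 2) := mul_nonneg hc0 (by linarith)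
    refine s0_le (j := j) h20 ?_ ?_
    · rw [h2]
      refine le_trans ?_ h20
      rw [hcj]
      have h4 : 3 * (n : ℝ) * (n - 1) * n / 4 - (n : ℝ) * (n - 1) / 2 * (n * (n - 1)) / 4 = - ((n : ℝ) * (n - 1) * (n * (n - 7))) / 8 := by ring
      rw [h4]
      have h5 := mul_nonneg hnn (mul_nonneg (show (0 : ℝ) ≤ n by linarith) (show (0 : ℝ) ≤ (n : ℝ) - 7 by linarith))
      linarith
    · intro i hij
      by_cases hi : (i : ℕ) + 2 < n
      · rw [h1 i hi, hcj]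
        have hi0 : (0 : ℝ) ≤ ((i : ℕ) : ℝ) := Nat.cast_nonneg _
        have hi3 : ((i : ℕ) : ℝ) + 3 ≤ n := by
          have h4 : (i : ℕ) + 3 ≤ n := by omega
          exact_mod_cast h4
        have h4 : 3 * (n : ℝ) * (n - 1) * (((i : ℕ) : ℝ) + 1) / 2 - (n : ℝ) * (n - 1) / 2 * ((((i : ℕ) : ℝ) + 1) * (2 * n - 2 - (i : ℕ))) / 2 =
            - ((n : ℝ) * (n - 1) * ((((i : ℕ) : ℝ) + 1) * (2 * n - 2 - (i : ℕ) - 6))) / 4 := by ring
        rw [h4]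
        have h5 := mul_nonneg hnn (mul_nonneg (show (0 : ℝ) ≤ ((i : ℕ) : ℝ) + 1 by linarith) (show (0 : ℝ) ≤ 2 * (n : ℝ) - 2 - (i : ℕ) - 6 by linarith))
        linarith
      · rw [h3 i (by omega) hij, hcj]
        have h4 : 3 * (n : ℝ) * (n - 1) * (n - 2) / 4 - (n : ℝ) * (n - 1) / 2 * (n * (n - 1)) / 4 = - ((n : ℝ) * (n - 1) * (n * (n - 7) + 12)) / 8 := by ring
        rw [h4]
        have h6 := mul_nonneg (show (0 : ℝ) ≤ n by linarith) (show (0 : ℝ) ≤ (n : ℝ) - 7 by linarith)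
        have h5 := mul_nonneg hnn (show 0 ≤ (n : ℝ) * (n - 7) + 12 by linarith)
        linarith

/-- The entries of the vector for the first node. -/
theorem sd_first {n : ℕ} (hn : 7 ≤ n) {S : Finset (Fin n)} {c : Fin n → ℝ} (hc : ∀ i, F7.pr (CartanMatrix.D n) c i = 2) {e : Fin n → ℝ}
    (he : ∀ i, F7.pr (CartanMatrix.D n) e i = if i ∈ S then 1 else 0) (j : Fin n) (hj : (j : ℕ) = 0) :
    ∃ g : Fin n → ℝ, 3 * (n : ℝ) * (n - 1) * e j - c j * ∑ k, e k = ∑ i ∈ S, g i ∧ 1 / 2 ≤ c j / 2 ∧ g j ≤ c j * (((n : ℝ) + 2) / 2) ∧ ∀ i, i ≠ j → g i ≤ -(c j / 2) := by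
  have hnr : (7 : ℝ) ≤ n := by exact_mod_cast hn
  have hj2 : (j : ℕ) + 2 < n := by omega
  have hcj : c j = 2 * n - 2 := by
    rw [va_D (by omega) hc j, if_pos hj2, hj]
    push_cast
    ring
  obtain ⟨g, hg, h1, h2⟩ := s0_vecD (show 4 ≤ n by omega) (3 * (n : ℝ) * (n - 1)) (c j) j hj2
  refine ⟨g, s0_one he hg, ?_, ?_, ?_⟩
  · rw [hcj]
    linarith
  · rw [h1 j hj2, min_self, hcj, hj]
    push_cast
    refine le_of_eq ?_
    ring
  · intro i hij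
    have hi1 : 1 ≤ (i : ℕ) := by
      by_contra hcon
      exact hij (Fin.ext (by omega))
    by_cases hi : (i : ℕ) + 2 < n
    · rw [h1 i hi, hcj, hj, min_eq_right (show 0 + 1 ≤ (i : ℕ) + 1 by omega)]
      have hi1r : (1 : ℝ) ≤ ((i : ℕ) : ℝ) := by exact_mod_cast hi1
      have hi3 : ((i : ℕ) : ℝ) + 3 ≤ n := by
        have h4 : (i : ℕ) + 3 ≤ n := by omega
        exact_mod_cast h4
      have h4 : 3 * (n : ℝ) + 1 ≤ (((i : ℕ) : ℝ) + 1) * (2 * n - 2 - (i : ℕ)) := by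
        nlinarith [mul_nonneg (show (0 : ℝ) ≤ ((i : ℕ) : ℝ) - 1 by linarith) (show (0 : ℝ) ≤ 2 * (n : ℝ) - 4 - (i : ℕ) by linarith)]
      have h5 := mul_le_mul_of_nonneg_left h4 (show (0 : ℝ) ≤ (n : ℝ) - 1 by linarith)
      push_cast
      have h6 : 3 * (n : ℝ) * (n - 1) * 1 - (2 * n - 2) * ((((i : ℕ) : ℝ) + 1) * (2 * n - 2 - (i : ℕ))) / 2 =
          3 * (n : ℝ) * (n - 1) - ((n : ℝ) - 1) * ((((i : ℕ) : ℝ) + 1) * (2 * n - 2 - (i : ℕ))) := by ring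
      rw [h6]
      linarith
    · rw [h2 i (by omega), hcj, hj]
      push_cast
      have h5 := mul_nonneg (show (0 : ℝ) ≤ (n : ℝ) - 1 by linarith) (show (0 : ℝ) ≤ (n : ℝ) * (n - 4) - 2 by nlinarith)
      have h6 : -((2 * (n : ℝ) - 2) / 2) - (3 * (n : ℝ) * (n - 1) * (0 + 1) - (2 * n - 2) * (n * (n - 1)) / 2) / 2 = ((n : ℝ) - 1) * ((n : ℝ) * (n - 4) - 2) / 2 := by ring
      linarith

/-- **Type `D_n`, `n ≥ 7`**: `S ≠ {0}`. -/
theorem shD {n : ℕ} (hn : 7 ≤ n) {S : Finset (Fin n)} (hS : S ≠ {⟨0, by omega⟩}) : SqT (CartanMatrix.D n) id (3 * (n : ℝ) * (n - 1)) ((n : ℝ) + 1) S := by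
  intro c hc e he j
  have hnr : (7 : ℝ) ≤ n := by exact_mod_cast hn
  show 3 * (n : ℝ) * (n - 1) * (e j + e j) ≤ _
  by_cases hj : (j : ℕ) = 0
  · obtain ⟨g, h1, h2, h3, h4⟩ := sd_first hn hc he j hj
    have h5 : ∑ i ∈ S, g i ≤ c j * (((n : ℝ) + 2) / 2) - c j / 2 := by
      refine s0_lt (j := j) (by linarith) ?_ h3 h4 ?_
      · nlinarith
      · intro h
        apply hS
        rw [h]
        congr 1
        exact Fin.ext hj
    linarith
  · have h1 := sd_rest hn hc he j hj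
    linarith

/-- **Type `D_n`, `n ≥ 7`**: all `S`. -/
theorem shD' {n : ℕ} (hn : 7 ≤ n) (S : Finset (Fin n)) : SqT (CartanMatrix.D n) id (3 * (n : ℝ) * (n - 1)) ((n : ℝ) + 2) S := by
  intro c hc e he j
  have hnr : (7 : ℝ) ≤ n := by exact_mod_cast hn
  show 3 * (n : ℝ) * (n - 1) * (e j + e j) ≤ _
  by_cases hj : (j : ℕ) = 0
  · obtain ⟨g, h1, h2, h3, h4⟩ := sd_first hn hc he j hj
    have h5 : ∑ i ∈ S, g i ≤ c j * (((n : ℝ) + 2) / 2) := by
      refine s0_le (j := j) (mul_nonneg (by linarith) (by linarith)) h3 fun i hi => (h4 i hi).trans (by linarith)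
    linarith
  · have h1 := sd_rest hn hc he j hj
    have h2 : 0 ≤ c j := by
      rw [va_D (by omega) hc j]
      have hjn := j.2
      have hj0 : (0 : ℝ) ≤ ((j : ℕ) : ℝ) := Nat.cast_nonneg _
      have hj1 : ((j : ℕ) : ℝ) + 1 ≤ n := by exact_mod_cast hjn
      split_ifs
      · exact mul_nonneg (by linarith) (by linarith)
      · have := mul_nonneg (show (0 : ℝ) ≤ n by linarith) (show (0 : ℝ) ≤ (n : ℝ) - 1 by linarith)
        linarith
    linarith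

end Pool.Agent.Lib.L8.FN
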