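import Pool.Agent.Lib.L8.FL.BR

/-!
# FN, file T0 (helper80): the numbers of a type from a table: words, minors of `1 - w`, the inequality for integers
-/

namespace Pool.Agent.Lib.L8.FN

set_option linter.unusedSectionVars false

open Matrix Pool.Agent.Lib.L1S Pool.Agent.Lib.L8.FL Pool.Agent.Lib.L8.F7 Pool.Agent.Lib.L8.FC

noncomputable section

variable {ι M N : Type} [Fintype ι] [DecidableEq ι] [AddCommGroup M] [Module ℚ M] [AddCommGroup N] [Module ℚ N]
  {P : RootPairing ι ℚ M N} [P.IsCrystallographic] [P.IsReduced] [P.IsIrreducible] [P.IsRootSystem] {b : P.Base}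

/-! ## 1. Minors -/

theorem pK_eq {w : Equiv.Perm ι} (hw : w ∈ WP P) (k i : b.support) : FL.pK b w k i = P.pairingIn ℤ (k : ι) (i : ι) - P.pairingIn ℤ (k : ι) (w (i : ι)) := by
  have h1 : pj b i (Sum.inr (k : ι)) = P.pairingIn ℤ (k : ι) (i : ι) := rfl
  have h2 : pj b i (Sum.inr (w⁻¹ (k : ι))) = P.pairingIn ℤ (k : ι) (w (i : ι)) := by
    have h3 : pj b i (Sum.inr (w⁻¹ (k : ι))) = P.pairingIn ℤ (w⁻¹ (k : ι)) (i : ι) := rfl
    have h4 := pairing_WP hw (w⁻¹ (k : ι)) (i : ι)
    have e1 : w (w⁻¹ (k : ι)) = (k : ι) := w.apply_symm_apply _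
    rw [e1] at h4
    rw [h3, ← h4]
  unfold FL.pK
  rw [h1, h2]

variable {n : ℕ} {A : Matrix (Fin n) (Fin n) ℤ}

/-- The entry `⟨α_k, (1 - w) α_i^∨⟩`, `w` the element of the word `l`. -/
def pkc (A : Matrix (Fin n) (Fin n) ℤ) (l : List (Fin n)) (k i : Fin n) : ℤ := A k i - ∑ m, va A.transpose l (Pi.single i 1) m * A k m

theorem pkc_spec (e : b.support ≃ Fin n) (he : ∀ i j : b.support, P.pairingIn ℤ i j = A (e i) (e j)) (l : List (Fin n)) (k i : Fin n) :
    FL.pK b (wW b (l.map e.symm)) (e.symm k) (e.symm i) = pkc A l k i := by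
  have h1 : P.pairingIn ℤ ((e.symm k : b.support) : ι) ((e.symm i : b.support) : ι) = A k i := by
    rw [he, Equiv.apply_symm_apply, Equiv.apply_symm_apply]
  have h2 : P.pairingIn ℤ ((e.symm k : b.support) : ι) (wW b (l.map e.symm) ((e.symm i : b.support) : ι)) = ∑ m, va A.transpose l (Pi.single i 1) m * A k m := by
    have h3 : ((P.pairingIn ℤ ((e.symm k : b.support) : ι) (wW b (l.map e.symm) ((e.symm i : b.support) : ι)) : ℤ) : ℚ) = ((∑ m, va A.transpose l (Pi.single i 1) m * A k m : ℤ) : ℚ) := by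
      have h4 : ((P.pairingIn ℤ ((e.symm k : b.support) : ι) (wW b (l.map e.symm) ((e.symm i : b.support) : ι)) : ℤ) : ℚ) = P.pairing ((e.symm k : b.support) : ι) (wW b (l.map e.symm) ((e.symm i : b.support) : ι)) :=
        P.algebraMap_pairingIn ℤ _ _
      rw [h4, pairing_ck, ← Equiv.sum_comp e.symm]
      push_cast
      refine Finset.sum_congr rfl fun m _ => ?_
      rw [ck_va e he l _ _ (ck_single e i)]
      have h5 : b.cartanMatrix (e.symm k) (e.symm m) = A k m := by
        have h6 := he (e.symm k) (e.symm m)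
        rw [Equiv.apply_symm_apply, Equiv.apply_symm_apply] at h6
        exact h6
      rw [h5]
    exact_mod_cast h3
  rw [pK_eq (wW_mem b _), h1, h2]
  rfl

/-- The certificate for the rank. -/
def rkc (A : Matrix (Fin n) (Fin n) ℤ) (l : List (Fin n)) (r : ℕ) (f g : Fin r → Fin n) : Prop := (Matrix.of fun a c => pkc A l (f a) (g c)).det ≠ 0

instance decRkc (A : Matrix (Fin n) (Fin n) ℤ) (l : List (Fin n)) (r : ℕ) (f g : Fin r → Fin n) : Decidable (rkc A l r f g) := by
  unfold rkc
  infer_instance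

theorem rkc_spec (e : b.support ≃ Fin n) (he : ∀ i j : b.support, P.pairingIn ℤ i j = A (e i) (e j)) {l : List (Fin n)} {r : ℕ} {f g : Fin r → Fin n} (h : rkc A l r f g) : KR b (wW b (l.map e.symm)) r := by
  refine ⟨fun a => e.symm (f a), fun c => e.symm (g c), ?_⟩
  have e1 : (Matrix.of fun a c => FL.pK b (wW b (l.map e.symm)) (e.symm (f a)) (e.symm (g c))) = Matrix.of fun a c => pkc A l (f a) (g c) := by
    refine Matrix.ext fun a c => ?_
    exact pkc_spec e he l _ _
  rw [e1]
  exact h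

/-! ## 2. The opposition -/

/-- The certificate for the opposition `τ`: a word of `w_0`. -/
def opc (A : Matrix (Fin n) (Fin n) ℤ) (l : List (Fin n)) (τ : Equiv.Perm (Fin n)) : Prop := ∀ i k, va A l (Pi.single i 1) k = if k = τ i then -1 else 0

instance decOpc (A : Matrix (Fin n) (Fin n) ℤ) (l : List (Fin n)) (τ : Equiv.Perm (Fin n)) : Decidable (opc A l τ) := by
  unfold opc
  infer_instance

/-- The permutation of the simple roots. -/
def tauB (e : b.support ≃ Fin n) (τ : Equiv.Perm (Fin n)) : Equiv.Perm b.support := (e.trans τ).trans e.symm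

theorem opc_spec (e : b.support ≃ Fin n) (he : ∀ i j : b.support, P.pairingIn ℤ i j = A (e i) (e j)) {l : List (Fin n)} {τ : Equiv.Perm (Fin n)} (h : opc A l τ) :
    IsOp b (tauB e τ) (wW b (l.map e.symm)) := by
  refine ⟨wW_mem b _, fun i => ?_⟩
  apply P.root.injective
  apply b.toWeightBasis.repr.injective
  ext k
  obtain ⟨k, rfl⟩ := e.symm.surjective k
  rw [← mc_root]
  have h1 := mc_va e he l (i : ι) (Pi.single (e i) 1) (fun k => by
    have h2 := mc_single e (e i) k
    rw [Equiv.symm_apply_apply] at h2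
    exact h2) k
  rw [h1, h, P.root_reflectionPerm, P.reflection_apply_self, map_neg, Finsupp.neg_apply, b.toWeightBasis_repr_root]
  have h3 : (b.toWeightBasis.repr (P.root ((tauB e τ i : b.support) : ι))) (e.symm k) = ((mc b (e.symm k) (Sum.inr ((tauB e τ i : b.support) : ι)) : ℤ) : ℚ) := (mc_root b _ _).symm
  rw [b.toWeightBasis_repr_root] at h3
  rw [h3]
  have h4 : tauB e τ i = e.symm (τ (e i)) := rfl
  rw [h4, mc_single, Pi.single_apply]
  split_ifs <;> simp

end

end Pool.Agent.Lib.L8.FN
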