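import Pool.Agent.Lib.L8.FN.T1

/-!
# FN, file TA6 (helper80): the tables of `A₆`, `A₇` (generated)
-/

namespace Pool.Agent.Lib.L8.FN

set_option linter.unusedSectionVars false
set_option maxRecDepth 100000

open Matrix Pool.Agent.Lib.L1S Pool.Agent.Lib.L8.FL Pool.Agent.Lib.L8.F7 Pool.Agent.Lib.L8.FC

noncomputable section

variable {ι M N : Type} [Fintype ι] [DecidableEq ι] [AddCommGroup M] [Module ℚ M] [AddCommGroup N] [Module ℚ N]
  {P : RootPairing ι ℚ M N} [P.IsCrystallographic] [P.IsReduced] [P.IsIrreducible] [P.IsRootSystem] {b : P.Base}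

/-! ## Type A6 -/

/-- `7` times the inverse of the Cartan matrix. -/
def omA6 : Matrix (Fin 6) (Fin 6) ℤ := !![6, 5, 4, 3, 2, 1; 5, 10, 8, 6, 4, 2; 4, 8, 12, 9, 6, 3; 3, 6, 9, 12, 8, 4; 2, 4, 6, 8, 10, 5; 1, 2, 3, 4, 5, 6]

theorem omcA6 : omc (CartanMatrix.A 6) omA6 7 := by decide +kernel

theorem opcA6 : opc (CartanMatrix.A 6) [0, 1, 2, 3, 4, 5, 0, 1, 2, 3, 4, 0, 1, 2, 3, 0, 1, 2, 0, 1, 0] (Fin.revPerm) := by decide +kernel

/-- The exponents. -/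
def nuA6 (S : Finset (Fin 6)) : ℤ := if S = {0, 5} then 8 else if S = {0, 1, 5} then 8 else if S = {0, 4, 5} then 8 else if S = {0, 1, 4, 5} then 8 else 7

theorem spA6_05 : Spec (CartanMatrix.A 6) {0, 5} 8 :=
  ⟨[0, 1, 2, 3, 4, 5, 4, 3, 2, 1, 0], {0, 5}, 7, 1, ![0], ![0], by decide +kernel, by decide +kernel, by decide +kernel, by norm_num, by norm_num⟩

theorem spA6_015 : Spec (CartanMatrix.A 6) {0, 1, 5} 8 :=
  ⟨[0, 1, 2, 3, 4, 5, 0, 1, 2, 3, 4, 3, 2, 1, 0], {0, 4, 5}, 8, 0, Fin.elim0, Fin.elim0, by decide +kernel, by decide +kernel, by decide +kernel, by norm_num, by norm_num⟩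

theorem spA6_045 : Spec (CartanMatrix.A 6) {0, 4, 5} 8 :=
  ⟨[0, 1, 2, 3, 4, 5, 3, 4, 2, 3, 1, 2, 0, 1, 0], {0, 1, 5}, 8, 0, Fin.elim0, Fin.elim0, by decide +kernel, by decide +kernel, by decide +kernel, by norm_num, by norm_num⟩

theorem spA6_0145 : Spec (CartanMatrix.A 6) {0, 1, 4, 5} 8 :=
  ⟨[0, 1, 0, 2, 1, 3, 2, 4, 3, 2, 1, 0, 5, 4, 3, 2, 1, 0], {0, 1, 4, 5}, 9, 0, Fin.elim0, Fin.elim0, by decide +kernel, by decide +kernel, by decide +kernel, by norm_num, by norm_num⟩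

theorem nusA6 (S : Finset (Fin 6)) (_ : S.Nonempty) : nuA6 S ≤ (6 : ℕ) + 1 ∨ Spec (CartanMatrix.A 6) S (nuA6 S) := by
  unfold nuA6
  by_cases h0 : S = {0, 5}
  · rw [if_pos h0, h0]
    exact Or.inr spA6_05
  rw [if_neg h0]
  by_cases h1 : S = {0, 1, 5}
  · rw [if_pos h1, h1]
    exact Or.inr spA6_015
  rw [if_neg h1]
  by_cases h2 : S = {0, 4, 5}
  · rw [if_pos h2, h2]
    exact Or.inr spA6_045
  rw [if_neg h2]
  by_cases h3 : S = {0, 1, 4, 5}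
  · rw [if_pos h3, h3]
    exact Or.inr spA6_0145
  rw [if_neg h3]
  exact Or.inl (by norm_num)

theorem insA6 : ∀ S : Finset (Fin 6), S.Nonempty → inc omA6 7 (Fin.revPerm) 120 (nuA6 S) S := by decide +kernel

theorem ineqR_A6 (h : Typ b (CartanMatrix.A 6)) : IneqR b ((120 : ℕ) / 2) (nuB b) := ineqR_tab h (by norm_num) omcA6 opcA6 nuA6 nusA6 insA6

/-! ## Type A7 -/

/-- `8` times the inverse of the Cartan matrix. -/
def omA7 : Matrix (Fin 7) (Fin 7) ℤ := !![7, 6, 5, 4, 3, 2, 1; 6, 12, 10, 8, 6, 4, 2; 5, 10, 15, 12, 9, 6, 3; 4, 8, 12, 16, 12, 8, 4; 3, 6, 9, 12, 15, 10, 5; 2, 4, 6, 8, 10, 12, 6; 1, 2, 3, 4, 5, 6, 7]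

theorem omcA7 : omc (CartanMatrix.A 7) omA7 8 := by decide +kernel

theorem opcA7 : opc (CartanMatrix.A 7) [0, 1, 2, 3, 4, 5, 6, 0, 1, 2, 3, 4, 5, 0, 1, 2, 3, 4, 0, 1, 2, 3, 0, 1, 2, 0, 1, 0] (Fin.revPerm) := by decide +kernel

/-- The exponents. -/
def nuA7 (S : Finset (Fin 7)) : ℤ := if S = {0, 6} then 9 else if S = {0, 1, 6} then 9 else if S = {0, 5, 6} then 9 else 8

theorem spA7_06 : Spec (CartanMatrix.A 7) {0, 6} 9 :=
  ⟨[0, 1, 2, 3, 4, 5, 6, 5, 4, 3, 2, 1, 0], {0, 6}, 8, 1, ![0], ![0], by decide +kernel, by decide +kernel, by decide +kernel, by norm_num, by norm_num⟩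

theorem spA7_016 : Spec (CartanMatrix.A 7) {0, 1, 6} 9 :=
  ⟨[0, 1, 2, 3, 4, 5, 6, 0, 1, 2, 3, 4, 5, 4, 3, 2, 1, 0], {0, 5, 6}, 9, 0, Fin.elim0, Fin.elim0, by decide +kernel, by decide +kernel, by decide +kernel, by norm_num, by norm_num⟩

theorem spA7_056 : Spec (CartanMatrix.A 7) {0, 5, 6} 9 :=
  ⟨[0, 1, 2, 3, 4, 5, 6, 4, 5, 3, 4, 2, 3, 1, 2, 0, 1, 0], {0, 1, 6}, 9, 0, Fin.elim0, Fin.elim0, by decide +kernel, by decide +kernel, by decide +kernel, by norm_num, by norm_num⟩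

theorem nusA7 (S : Finset (Fin 7)) (_ : S.Nonempty) : nuA7 S ≤ (7 : ℕ) + 1 ∨ Spec (CartanMatrix.A 7) S (nuA7 S) := by
  unfold nuA7
  by_cases h0 : S = {0, 6}
  · rw [if_pos h0, h0]
    exact Or.inr spA7_06
  rw [if_neg h0]
  by_cases h1 : S = {0, 1, 6}
  · rw [if_pos h1, h1]
    exact Or.inr spA7_016
  rw [if_neg h1]
  by_cases h2 : S = {0, 5, 6}
  · rw [if_pos h2, h2]
    exact Or.inr spA7_056
  rw [if_neg h2]
  exact Or.inl (by norm_num)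

theorem insA7 : ∀ S : Finset (Fin 7), S.Nonempty → inc omA7 8 (Fin.revPerm) 161 (nuA7 S) S := by decide +kernel

theorem ineqR_A7 (h : Typ b (CartanMatrix.A 7)) : IneqR b ((161 : ℕ) / 2) (nuB b) := ineqR_tab h (by norm_num) omcA7 opcA7 nuA7 nusA7 insA7

end

end Pool.Agent.Lib.L8.FN
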