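import Pool.Agent.Lib.L8.FN.T1

/-!
# FN, file TE6 (helper80): the tables of `E₆` (generated)
-/

namespace Pool.Agent.Lib.L8.FN

set_option linter.unusedSectionVars false
set_option maxRecDepth 100000

open Matrix Pool.Agent.Lib.L1S Pool.Agent.Lib.L8.FL Pool.Agent.Lib.L8.F7 Pool.Agent.Lib.L8.FC

noncomputable section

variable {ι M N : Type} [Fintype ι] [DecidableEq ι] [AddCommGroup M] [Module ℚ M] [AddCommGroup N] [Module ℚ N]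
  {P : RootPairing ι ℚ M N} [P.IsCrystallographic] [P.IsReduced] [P.IsIrreducible] [P.IsRootSystem] {b : P.Base}

/-! ## Type E6 -/

/-- `3` times the inverse of the Cartan matrix. -/
def omE6 : Matrix (Fin 6) (Fin 6) ℤ := !![4, 3, 5, 6, 4, 2; 3, 6, 6, 9, 6, 3; 5, 6, 10, 12, 8, 4; 6, 9, 12, 18, 12, 6; 4, 6, 8, 12, 10, 5; 2, 3, 4, 6, 5, 4]

theorem omcE6 : omc CartanMatrix.E₆ omE6 3 := by decide +kernel

theorem opcE6 : opc CartanMatrix.E₆ [0, 2, 3, 4, 5, 1, 3, 4, 2, 3, 0, 2, 1, 3, 4, 5, 1, 3, 4, 2, 3, 0, 2, 1, 3, 4, 2, 3, 0, 2, 1, 3, 0, 2, 1, 0] (Equiv.swap 0 5 * Equiv.swap 2 4) := by decide +kernel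

/-- The exponents. -/
def nuE6 (S : Finset (Fin 6)) : ℤ := if S = {1} then 8 else if S = {0, 5} then 8 else if S = {1, 3} then 9 else if S = {0, 1, 3} then 8 else if S = {0, 2, 5} then 8 else if S = {0, 4, 5} then 8 else if S = {1, 2, 3} then 8 else if S = {1, 3, 4} then 8 else if S = {1, 3, 5} then 8 else if S = {0, 2, 4, 5} then 8 else 7

theorem spE6_1 : Spec CartanMatrix.E₆ {1} 8 :=
  ⟨[1, 3, 2, 0, 4, 3, 1, 2, 3, 4, 5, 4, 3, 1, 2, 0, 3, 2, 4, 3, 1], {1}, 7, 1, ![1], ![1], by decide +kernel, by decide +kernel, by decide +kernel, by norm_num, by norm_num⟩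

theorem spE6_05 : Spec CartanMatrix.E₆ {0, 5} 8 :=
  ⟨[0, 2, 3, 1, 4, 3, 2, 0, 5, 4, 3, 1, 2, 0, 3, 2, 4, 3, 1, 5, 4, 3, 2, 0], {0, 5}, 6, 2, ![0, 2], ![0, 2], by decide +kernel, by decide +kernel, by decide +kernel, by norm_num, by norm_num⟩

theorem spE6_13 : Spec CartanMatrix.E₆ {1, 3} 9 :=
  ⟨[1, 3, 1, 2, 0, 3, 2, 4, 3, 1, 2, 0, 3, 2, 4, 3, 5, 4, 3, 1, 2, 0, 3, 2, 4, 3, 1, 5, 4, 3], {1, 3}, 6, 3, ![0, 1, 2], ![0, 1, 2], by decide +kernel, by decide +kernel, by decide +kernel, by norm_num, by norm_num⟩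

theorem spE6_013 : Spec CartanMatrix.E₆ {0, 1, 3} 8 :=
  ⟨[0, 2, 3, 4, 5, 1, 3, 4, 2, 3, 0, 2, 1, 3, 4, 5, 3, 4, 2, 3, 0, 2, 1, 3, 4, 2, 3, 0, 2, 1, 3, 1], {1, 3, 5}, 6, 2, ![0, 1], ![0, 1], by decide +kernel, by decide +kernel, by decide +kernel, by norm_num, by norm_num⟩

theorem spE6_025 : Spec CartanMatrix.E₆ {0, 2, 5} 8 :=
  ⟨[0, 2, 3, 4, 5, 1, 3, 4, 2, 3, 0, 2, 1, 3, 4, 5, 1, 3, 4, 2, 3, 0, 2, 1, 3, 4, 1, 3, 2, 0], {0, 4, 5}, 6, 2, ![0, 1], ![0, 1], by decide +kernel, by decide +kernel, by decide +kernel, by norm_num, by norm_num⟩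

theorem spE6_045 : Spec CartanMatrix.E₆ {0, 4, 5} 8 :=
  ⟨[0, 2, 3, 4, 5, 1, 3, 4, 2, 3, 0, 2, 1, 3, 4, 5, 2, 3, 0, 2, 1, 3, 4, 3, 2, 1, 3, 0, 2, 0], {0, 2, 5}, 6, 2, ![0, 1], ![0, 1], by decide +kernel, by decide +kernel, by decide +kernel, by norm_num, by norm_num⟩

theorem spE6_123 : Spec CartanMatrix.E₆ {1, 2, 3} 8 :=
  ⟨[2, 3, 4, 5, 1, 3, 4, 2, 3, 0, 2, 1, 3, 4, 5, 1, 3, 4, 2, 3, 0, 2, 1, 3, 4, 2, 3, 0, 2, 1, 3, 1], {1, 3, 4}, 6, 2, ![0, 1], ![0, 1], by decide +kernel, by decide +kernel, by decide +kernel, by norm_num, by norm_num⟩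

theorem spE6_134 : Spec CartanMatrix.E₆ {1, 3, 4} 8 :=
  ⟨[3, 4, 5, 1, 3, 4, 2, 3, 0, 2, 1, 3, 4, 5, 3, 4, 2, 3, 0, 2, 1, 3, 4, 2, 3, 0, 2, 1, 3, 0, 2, 1], {1, 2, 3}, 6, 2, ![0, 1], ![0, 1], by decide +kernel, by decide +kernel, by decide +kernel, by norm_num, by norm_num⟩

theorem spE6_135 : Spec CartanMatrix.E₆ {1, 3, 5} 8 :=
  ⟨[3, 4, 5, 1, 3, 4, 2, 3, 0, 2, 1, 3, 4, 5, 3, 4, 2, 3, 0, 2, 1, 3, 4, 2, 3, 0, 2, 1, 3, 2, 1, 0], {0, 1, 3}, 6, 2, ![0, 1], ![0, 1], by decide +kernel, by decide +kernel, by decide +kernel, by norm_num, by norm_num⟩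

theorem spE6_0245 : Spec CartanMatrix.E₆ {0, 2, 4, 5} 8 :=
  ⟨[0, 2, 0, 3, 1, 2, 3, 4, 3, 1, 2, 0, 3, 2, 4, 3, 1, 5, 4, 3, 1, 2, 0, 3, 2, 4, 3, 1, 5, 4, 3, 2, 0], {0, 2, 4, 5}, 6, 2, ![0, 1], ![0, 1], by decide +kernel, by decide +kernel, by decide +kernel, by norm_num, by norm_num⟩

theorem nusE6 (S : Finset (Fin 6)) (_ : S.Nonempty) : nuE6 S ≤ (6 : ℕ) + 1 ∨ Spec CartanMatrix.E₆ S (nuE6 S) := by
  unfold nuE6
  by_cases h0 : S = {1}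
  · rw [if_pos h0, h0]
    exact Or.inr spE6_1
  rw [if_neg h0]
  by_cases h1 : S = {0, 5}
  · rw [if_pos h1, h1]
    exact Or.inr spE6_05
  rw [if_neg h1]
  by_cases h2 : S = {1, 3}
  · rw [if_pos h2, h2]
    exact Or.inr spE6_13
  rw [if_neg h2]
  by_cases h3 : S = {0, 1, 3}
  · rw [if_pos h3, h3]
    exact Or.inr spE6_013
  rw [if_neg h3]
  by_cases h4 : S = {0, 2, 5}
  · rw [if_pos h4, h4]
    exact Or.inr spE6_025
  rw [if_neg h4]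
  by_cases h5 : S = {0, 4, 5}
  · rw [if_pos h5, h5]
    exact Or.inr spE6_045
  rw [if_neg h5]
  by_cases h6 : S = {1, 2, 3}
  · rw [if_pos h6, h6]
    exact Or.inr spE6_123
  rw [if_neg h6]
  by_cases h7 : S = {1, 3, 4}
  · rw [if_pos h7, h7]
    exact Or.inr spE6_134
  rw [if_neg h7]
  by_cases h8 : S = {1, 3, 5}
  · rw [if_pos h8, h8]
    exact Or.inr spE6_135
  rw [if_neg h8]
  by_cases h9 : S = {0, 2, 4, 5}
  · rw [if_pos h9, h9]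
    exact Or.inr spE6_0245
  rw [if_neg h9]
  exact Or.inl (by norm_num)

theorem insE6 : ∀ S : Finset (Fin 6), S.Nonempty → inc omE6 3 (Equiv.swap 0 5 * Equiv.swap 2 4) 320 (nuE6 S) S := by decide +kernel

theorem ineqR_E6 (h : Typ b CartanMatrix.E₆) : IneqR b ((320 : ℕ) / 2) (nuB b) := ineqR_tab h (by norm_num) omcE6 opcE6 nuE6 nusE6 insE6

end

end Pool.Agent.Lib.L8.FN
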