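import Pool.Agent.Lib.L8.FN.T1

/-!
# FN, file TE7 (helper80): the tables of `E₇` (generated)
-/

namespace Pool.Agent.Lib.L8.FN

set_option linter.unusedSectionVars false
set_option maxRecDepth 100000

open Matrix Pool.Agent.Lib.L1S Pool.Agent.Lib.L8.FL Pool.Agent.Lib.L8.F7 Pool.Agent.Lib.L8.FC

noncomputable section

variable {ι M N : Type} [Fintype ι] [DecidableEq ι] [AddCommGroup M] [Module ℚ M] [AddCommGroup N] [Module ℚ N]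
  {P : RootPairing ι ℚ M N} [P.IsCrystallographic] [P.IsReduced] [P.IsIrreducible] [P.IsRootSystem] {b : P.Base}

/-! ## Type E7 -/

/-- `2` times the inverse of the Cartan matrix. -/
def omE7 : Matrix (Fin 7) (Fin 7) ℤ := !![4, 4, 6, 8, 6, 4, 2; 4, 7, 8, 12, 9, 6, 3; 6, 8, 12, 16, 12, 8, 4; 8, 12, 16, 24, 18, 12, 6; 6, 9, 12, 18, 15, 10, 5; 4, 6, 8, 12, 10, 8, 4; 2, 3, 4, 6, 5, 4, 3]

theorem omcE7 : omc CartanMatrix.E₇ omE7 2 := by decide +kernel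

theorem opcE7 : opc CartanMatrix.E₇ [6, 5, 4, 3, 2, 1, 3, 4, 5, 6, 0, 2, 3, 4, 5, 1, 3, 4, 2, 3, 0, 2, 1, 3, 4, 5, 6, 0, 2, 3, 4, 5, 1, 3, 4, 2, 3, 0, 2, 1, 3, 4, 5, 1, 3, 4, 2, 3, 0, 2, 1, 3, 4, 2, 3, 0, 2, 1, 3, 0, 2, 1, 0] (1) := by decide +kernel

/-- The exponents. -/
def nuE7 (S : Finset (Fin 7)) : ℤ := if S = {6} then 10 else 8

theorem spE7_6 : Spec CartanMatrix.E₇ {6} 10 :=
  ⟨[6, 5, 4, 3, 1, 2, 0, 3, 2, 4, 3, 1, 5, 4, 3, 2, 0, 6, 5, 4, 3, 1, 2, 3, 4, 5, 6], {6}, 7, 3, ![0, 2, 6], ![0, 2, 6], by decide +kernel, by decide +kernel, by decide +kernel, by norm_num, by norm_num⟩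

theorem nusE7 (S : Finset (Fin 7)) (_ : S.Nonempty) : nuE7 S ≤ (7 : ℕ) + 1 ∨ Spec CartanMatrix.E₇ S (nuE7 S) := by
  unfold nuE7
  by_cases h0 : S = {6}
  · rw [if_pos h0, h0]
    exact Or.inr spE7_6
  rw [if_neg h0]
  exact Or.inl (by norm_num)

theorem insE7 : ∀ S : Finset (Fin 7), S.Nonempty → inc omE7 2 (1) 666 (nuE7 S) S := by decide +kernel

theorem ineqR_E7 (h : Typ b CartanMatrix.E₇) : IneqR b ((666 : ℕ) / 2) (nuB b) := ineqR_tab h (by norm_num) omcE7 opcE7 nuE7 nusE7 insE7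

end

end Pool.Agent.Lib.L8.FN
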