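import Pool.Agent.Lib.L8.FN.T1

/-!
# FN, file TG (helper80): the tables of `G₂`, `B₂`, `B₃`, `B₄`, `C₃` (generated)
-/

namespace Pool.Agent.Lib.L8.FN

set_option linter.unusedSectionVars false
set_option maxRecDepth 100000

open Matrix Pool.Agent.Lib.L1S Pool.Agent.Lib.L8.FL Pool.Agent.Lib.L8.F7 Pool.Agent.Lib.L8.FC

noncomputable section

variable {ι M N : Type} [Fintype ι] [DecidableEq ι] [AddCommGroup M] [Module ℚ M] [AddCommGroup N] [Module ℚ N]
  {P : RootPairing ι ℚ M N} [P.IsCrystallographic] [P.IsReduced] [P.IsIrreducible] [P.IsRootSystem] {b : P.Base}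

/-! ## Type G2 -/

/-- `1` times the inverse of the Cartan matrix. -/
def omG2 : Matrix (Fin 2) (Fin 2) ℤ := !![2, 3; 1, 2]

theorem omcG2 : omc CartanMatrix.G₂ omG2 1 := by decide +kernel

theorem opcG2 : opc CartanMatrix.G₂ [1, 0, 1, 0, 1, 0] (1) := by decide +kernel

/-- The exponents. -/
def nuG2 (S : Finset (Fin 2)) : ℤ := if S = {0, 1} then 4 else 3

theorem spG2_01 : Spec CartanMatrix.G₂ {0, 1} 4 :=
  ⟨[0, 1, 0, 1, 0, 1], {0, 1}, 2, 2, ![0, 1], ![0, 1], by decide +kernel, by decide +kernel, by decide +kernel, by norm_num, by norm_num⟩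

theorem nusG2 (S : Finset (Fin 2)) (_ : S.Nonempty) : nuG2 S ≤ (2 : ℕ) + 1 ∨ Spec CartanMatrix.G₂ S (nuG2 S) := by
  unfold nuG2
  by_cases h0 : S = {0, 1}
  · rw [if_pos h0, h0]
    exact Or.inr spG2_01
  rw [if_neg h0]
  exact Or.inl (by norm_num)

theorem insG2 : ∀ S : Finset (Fin 2), S.Nonempty → inc omG2 1 (1) 39 (nuG2 S) S := by decide +kernel

theorem ineqR_G2 (h : Typ b CartanMatrix.G₂) : IneqR b ((39 : ℕ) / 2) (nuB b) := ineqR_tab h (by norm_num) omcG2 opcG2 nuG2 nusG2 insG2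

/-! ## Type B2 -/

/-- `2` times the inverse of the Cartan matrix. -/
def omB2 : Matrix (Fin 2) (Fin 2) ℤ := !![2, 2; 1, 2]

theorem omcB2 : omc (CartanMatrix.B 2) omB2 2 := by decide +kernel

theorem opcB2 : opc (CartanMatrix.B 2) [1, 0, 1, 0] (1) := by decide +kernel

/-- The exponents. -/
def nuB2 (S : Finset (Fin 2)) : ℤ := if S = {0} then 4 else if S = {0, 1} then 4 else 3

theorem spB2_0 : Spec (CartanMatrix.B 2) {0} 4 :=
  ⟨[0, 1, 0], {0}, 3, 1, ![0], ![0], by decide +kernel, by decide +kernel, by decide +kernel, by norm_num, by norm_num⟩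

theorem spB2_01 : Spec (CartanMatrix.B 2) {0, 1} 4 :=
  ⟨[0, 1, 0, 1], {0, 1}, 2, 2, ![0, 1], ![0, 1], by decide +kernel, by decide +kernel, by decide +kernel, by norm_num, by norm_num⟩

theorem nusB2 (S : Finset (Fin 2)) (_ : S.Nonempty) : nuB2 S ≤ (2 : ℕ) + 1 ∨ Spec (CartanMatrix.B 2) S (nuB2 S) := by
  unfold nuB2
  by_cases h0 : S = {0}
  · rw [if_pos h0, h0]
    exact Or.inr spB2_0
  rw [if_neg h0]
  by_cases h1 : S = {0, 1}
  · rw [if_pos h1, h1]
    exact Or.inr spB2_01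
  rw [if_neg h1]
  exact Or.inl (by norm_num)

theorem insB2 : ∀ S : Finset (Fin 2), S.Nonempty → inc omB2 2 (1) 22 (nuB2 S) S := by decide +kernel

theorem ineqR_B2 (h : Typ b (CartanMatrix.B 2)) : IneqR b ((22 : ℕ) / 2) (nuB b) := ineqR_tab h (by norm_num) omcB2 opcB2 nuB2 nusB2 insB2

/-! ## Type B3 -/

/-- `2` times the inverse of the Cartan matrix. -/
def omB3 : Matrix (Fin 3) (Fin 3) ℤ := !![2, 2, 2; 2, 4, 4; 1, 2, 3]

theorem omcB3 : omc (CartanMatrix.B 3) omB3 2 := by decide +kernel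

theorem opcB3 : opc (CartanMatrix.B 3) [2, 1, 2, 0, 1, 2, 0, 1, 0] (1) := by decide +kernel

/-- The exponents. -/
def nuB3 (S : Finset (Fin 3)) : ℤ := if S = {0} then 5 else if S = {0, 1} then 5 else if S = {1, 2} then 5 else 4

theorem spB3_0 : Spec (CartanMatrix.B 3) {0} 5 :=
  ⟨[0, 1, 2, 1, 0], {0}, 4, 1, ![0], ![0], by decide +kernel, by decide +kernel, by decide +kernel, by norm_num, by norm_num⟩

theorem spB3_01 : Spec (CartanMatrix.B 3) {0, 1} 5 :=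
  ⟨[0, 1, 0, 2, 1, 0, 2, 1], {0, 1}, 3, 2, ![0, 1], ![0, 1], by decide +kernel, by decide +kernel, by decide +kernel, by norm_num, by norm_num⟩

theorem spB3_12 : Spec (CartanMatrix.B 3) {1, 2} 5 :=
  ⟨[1, 2, 1, 0, 1, 2, 1, 2], {1, 2}, 5, 0, Fin.elim0, Fin.elim0, by decide +kernel, by decide +kernel, by decide +kernel, by norm_num, by norm_num⟩

theorem nusB3 (S : Finset (Fin 3)) (_ : S.Nonempty) : nuB3 S ≤ (3 : ℕ) + 1 ∨ Spec (CartanMatrix.B 3) S (nuB3 S) := by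
  unfold nuB3
  by_cases h0 : S = {0}
  · rw [if_pos h0, h0]
    exact Or.inr spB3_0
  rw [if_neg h0]
  by_cases h1 : S = {0, 1}
  · rw [if_pos h1, h1]
    exact Or.inr spB3_01
  rw [if_neg h1]
  by_cases h2 : S = {1, 2}
  · rw [if_pos h2, h2]
    exact Or.inr spB3_12
  rw [if_neg h2]
  exact Or.inl (by norm_num)

theorem insB3 : ∀ S : Finset (Fin 3), S.Nonempty → inc omB3 2 (1) 52 (nuB3 S) S := by decide +kernel

theorem ineqR_B3 (h : Typ b (CartanMatrix.B 3)) : IneqR b ((52 : ℕ) / 2) (nuB b) := ineqR_tab h (by norm_num) omcB3 opcB3 nuB3 nusB3 insB3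

/-! ## Type B4 -/

/-- `2` times the inverse of the Cartan matrix. -/
def omB4 : Matrix (Fin 4) (Fin 4) ℤ := !![2, 2, 2, 2; 2, 4, 4, 4; 2, 4, 6, 6; 1, 2, 3, 4]

theorem omcB4 : omc (CartanMatrix.B 4) omB4 2 := by decide +kernel

theorem opcB4 : opc (CartanMatrix.B 4) [3, 2, 3, 1, 2, 3, 0, 1, 2, 3, 0, 1, 2, 0, 1, 0] (1) := by decide +kernel

/-- The exponents. -/
def nuB4 (S : Finset (Fin 4)) : ℤ := if S = {0} then 6 else if S = {0, 1} then 6 else 5

theorem spB4_0 : Spec (CartanMatrix.B 4) {0} 6 :=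
  ⟨[0, 1, 2, 3, 2, 1, 0], {0}, 5, 1, ![0], ![0], by decide +kernel, by decide +kernel, by decide +kernel, by norm_num, by norm_num⟩

theorem spB4_01 : Spec (CartanMatrix.B 4) {0, 1} 6 :=
  ⟨[0, 1, 0, 2, 1, 3, 2, 1, 0, 3, 2, 1], {0, 1}, 4, 2, ![0, 1], ![0, 1], by decide +kernel, by decide +kernel, by decide +kernel, by norm_num, by norm_num⟩

theorem nusB4 (S : Finset (Fin 4)) (_ : S.Nonempty) : nuB4 S ≤ (4 : ℕ) + 1 ∨ Spec (CartanMatrix.B 4) S (nuB4 S) := by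
  unfold nuB4
  by_cases h0 : S = {0}
  · rw [if_pos h0, h0]
    exact Or.inr spB4_0
  rw [if_neg h0]
  by_cases h1 : S = {0, 1}
  · rw [if_pos h1, h1]
    exact Or.inr spB4_01
  rw [if_neg h1]
  exact Or.inl (by norm_num)

theorem insB4 : ∀ S : Finset (Fin 4), S.Nonempty → inc omB4 2 (1) 98 (nuB4 S) S := by decide +kernel

theorem ineqR_B4 (h : Typ b (CartanMatrix.B 4)) : IneqR b ((98 : ℕ) / 2) (nuB b) := ineqR_tab h (by norm_num) omcB4 opcB4 nuB4 nusB4 insB4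

/-! ## Type C3 -/

/-- `2` times the inverse of the Cartan matrix. -/
def omC3 : Matrix (Fin 3) (Fin 3) ℤ := !![2, 2, 1; 2, 4, 2; 2, 4, 3]

theorem omcC3 : omc (CartanMatrix.C 3) omC3 2 := by decide +kernel

theorem opcC3 : opc (CartanMatrix.C 3) [2, 1, 2, 0, 1, 2, 0, 1, 0] (1) := by decide +kernel

/-- The exponents. -/
def nuC3 (S : Finset (Fin 3)) : ℤ := if S = {2} then 5 else if S = {0, 1} then 5 else if S = {1, 2} then 6 else if S = {0, 1, 2} then 5 else 4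

theorem spC3_2 : Spec (CartanMatrix.C 3) {2} 5 :=
  ⟨[2, 1, 0, 2, 1, 2], {2}, 4, 1, ![0], ![0], by decide +kernel, by decide +kernel, by decide +kernel, by norm_num, by norm_num⟩

theorem spC3_01 : Spec (CartanMatrix.C 3) {0, 1} 5 :=
  ⟨[0, 1, 0, 2, 1, 0, 2, 1], {0, 1}, 3, 2, ![0, 1], ![0, 1], by decide +kernel, by decide +kernel, by decide +kernel, by norm_num, by norm_num⟩

theorem spC3_12 : Spec (CartanMatrix.C 3) {1, 2} 6 :=
  ⟨[1, 2, 1, 0, 1, 2, 1, 2], {1, 2}, 6, 0, Fin.elim0, Fin.elim0, by decide +kernel, by decide +kernel, by decide +kernel, by norm_num, by norm_num⟩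

theorem spC3_012 : Spec (CartanMatrix.C 3) {0, 1, 2} 5 :=
  ⟨[0, 1, 0, 2, 1, 0, 2, 1, 2], {0, 1, 2}, 3, 2, ![0, 1], ![0, 1], by decide +kernel, by decide +kernel, by decide +kernel, by norm_num, by norm_num⟩

theorem nusC3 (S : Finset (Fin 3)) (_ : S.Nonempty) : nuC3 S ≤ (3 : ℕ) + 1 ∨ Spec (CartanMatrix.C 3) S (nuC3 S) := by
  unfold nuC3
  by_cases h0 : S = {2}
  · rw [if_pos h0, h0]
    exact Or.inr spC3_2
  rw [if_neg h0]
  by_cases h1 : S = {0, 1}
  · rw [if_pos h1, h1]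
    exact Or.inr spC3_01
  rw [if_neg h1]
  by_cases h2 : S = {1, 2}
  · rw [if_pos h2, h2]
    exact Or.inr spC3_12
  rw [if_neg h2]
  by_cases h3 : S = {0, 1, 2}
  · rw [if_pos h3, h3]
    exact Or.inr spC3_012
  rw [if_neg h3]
  exact Or.inl (by norm_num)

theorem insC3 : ∀ S : Finset (Fin 3), S.Nonempty → inc omC3 2 (1) 54 (nuC3 S) S := by decide +kernel

theorem ineqR_C3 (h : Typ b (CartanMatrix.C 3)) : IneqR b ((54 : ℕ) / 2) (nuB b) := ineqR_tab h (by norm_num) omcC3 opcC3 nuC3 nusC3 insC3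

end

end Pool.Agent.Lib.L8.FN
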