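import Pool.Agent.Lib.L8.FN.TA
import Pool.Agent.Lib.L8.FN.TA6
import Pool.Agent.Lib.L8.FN.TG
import Pool.Agent.Lib.L8.FN.TD
import Pool.Agent.Lib.L8.FN.TE6
import Pool.Agent.Lib.L8.FN.TE7

/-!
# FN, file TS (helper80): all the types which are not in one of the infinite families of the sharp table
-/

namespace Pool.Agent.Lib.L8.FN

set_option linter.unusedSectionVars false

open Matrix Pool.Agent.Lib.L1S Pool.Agent.Lib.L8.FL Pool.Agent.Lib.L8.F7 Pool.Agent.Lib.L8.FC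

noncomputable section

variable {ι M N : Type} [Fintype ι] [DecidableEq ι] [AddCommGroup M] [Module ℚ M] [AddCommGroup N] [Module ℚ N]
  {P : RootPairing ι ℚ M N} [P.IsCrystallographic] [P.IsReduced] [P.IsIrreducible] [P.IsRootSystem]

/-- The types which are done by tables, and `F₄`, `E₈` (`rank + 1`). -/
def SmS (b : P.Base) (D : ℕ) : Prop :=
  (Typ b (CartanMatrix.A 1) ∧ D = 6) ∨ (Typ b (CartanMatrix.A 2) ∧ D = 16) ∨ (Typ b (CartanMatrix.A 3) ∧ D = 33) ∨ (Typ b (CartanMatrix.A 4) ∧ D = 56) ∨ (Typ b (CartanMatrix.A 5) ∧ D = 85) ∨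
    (Typ b (CartanMatrix.A 6) ∧ D = 120) ∨ (Typ b (CartanMatrix.A 7) ∧ D = 161) ∨ (Typ b (CartanMatrix.B 2) ∧ D = 22) ∨ (Typ b (CartanMatrix.B 3) ∧ D = 52) ∨ (Typ b (CartanMatrix.B 4) ∧ D = 98) ∨
    (Typ b (CartanMatrix.C 3) ∧ D = 54) ∨ (Typ b (CartanMatrix.D 4) ∧ D = 72) ∨ (Typ b (CartanMatrix.D 5) ∧ D = 120) ∨ (Typ b (CartanMatrix.D 6) ∧ D = 180) ∨
    (Typ b CartanMatrix.G₂ ∧ D = 39) ∨ (Typ b CartanMatrix.F₄ ∧ D = 216) ∨ (Typ b CartanMatrix.E₆ ∧ D = 320) ∨ (Typ b CartanMatrix.E₇ ∧ D = 666) ∨ (Typ b CartanMatrix.E₈ ∧ D = 1943)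

theorem ineqR_SmS {b : P.Base} {D : ℕ} (h : SmS b D) : IneqR b ((D : ℝ) / 2) (nuB b) := by
  rcases h with ⟨h, rfl⟩ | ⟨h, rfl⟩ | ⟨h, rfl⟩ | ⟨h, rfl⟩ | ⟨h, rfl⟩ | ⟨h, rfl⟩ | ⟨h, rfl⟩ | ⟨h, rfl⟩ | ⟨h, rfl⟩ | ⟨h, rfl⟩ | ⟨h, rfl⟩ | ⟨h, rfl⟩ | ⟨h, rfl⟩ | ⟨h, rfl⟩ | ⟨h, rfl⟩ | ⟨h, rfl⟩ | ⟨h, rfl⟩ | ⟨h, rfl⟩ |
    ⟨h, rfl⟩
  · exact ineqR_A1 h
  · exact ineqR_A2 h
  · exact ineqR_A3 h
  · exact ineqR_A4 h
  · exact ineqR_A5 h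
  · exact ineqR_A6 h
  · exact ineqR_A7 h
  · exact ineqR_B2 h
  · exact ineqR_B3 h
  · exact ineqR_B4 h
  · exact ineqR_C3 h
  · exact ineqR_D4 h
  · exact ineqR_D5 h
  · exact ineqR_D6 h
  · exact ineqR_G2 h
  · have h1 := ineqR_B (ci1_F4 h)
    norm_num at h1 ⊢
    exact h1
  · exact ineqR_E6 h
  · exact ineqR_E7 h
  · have h1 := ineqR_B (ci1_E8 h)
    norm_num at h1 ⊢
    exact h1

end

end Pool.Agent.Lib.L8.FN
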