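import Pool.Agent.Lib.L8.FN.Defs

/-!
# FN, file W0 (helper21): the reduced words `t c t⁻¹` of reflections along a path of the diagram
-/

namespace Pool.Agent.Lib.L8.FN

open Matrix Pool.Agent.Lib.L1S Pool.Agent.Lib.L8.FL Pool.Agent.Lib.L8.F7

noncomputable section

set_option linter.unusedSectionVars false
set_option linter.unusedVariables false

variable {ι M N : Type} [Fintype ι] [DecidableEq ι] [AddCommGroup M] [Module ℚ M] [AddCommGroup N] [Module ℚ N]
  {P : RootPairing ι ℚ M N} [P.IsCrystallographic] [P.IsReduced] [P.IsIrreducible] [P.IsRootSystem] {b : P.Base}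

/-! ## 1. Reflections -/

/-- The coordinates of `s_δ γ`. -/
theorem mc_rf (b : P.Base) (δ γ : ι) (k : b.support) : ((mc b k (Sum.inr (P.reflectionPerm δ γ)) : ℤ) : ℚ) = mc b k (Sum.inr γ) - P.pairing γ δ * mc b k (Sum.inr δ) := by
  rw [FC.mc_root, P.root_reflectionPerm, P.reflection_apply_root, map_sub, map_smul, Finsupp.sub_apply, Finsupp.smul_apply, FC.mc_root, FC.mc_root]
  rfl

/-- The word `t c t⁻¹`. -/
def pal (c : b.support) (t : List b.support) : List b.support := t ++ c :: t.reverse

/-- The root of the word. -/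
def bet (c : b.support) (t : List b.support) : ι := wW b t.reverse (c : ι)

theorem bet_nil (c : b.support) : bet c [] = (c : ι) := rfl

theorem bet_cons (c a : b.support) (t : List b.support) : bet c (a :: t) = P.reflectionPerm (a : ι) (bet c t) := by
  unfold bet
  rw [List.reverse_cons, FC.wW_append]
  rfl

theorem wW_pal (c : b.support) (t : List b.support) : wW b (pal c t) = P.reflectionPerm (bet c t) := by
  unfold pal bet
  rw [FC.wW_append, b2_conj (FC.wW_mem b _), FC.wW_reverse]
  show wW b t.reverse * P.reflectionPerm (c : ι) * wW b t = _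
  rw [FC.wW_reverse, inv_inv]

theorem pal_cons (c a : b.support) (t : List b.support) : pal c (a :: t) = a :: (pal c t ++ [a]) := by
  unfold pal
  simp

theorem pal_reverse (c : b.support) (t : List b.support) : (pal c t).reverse = pal c t := by
  unfold pal
  simp

/-! ## 2. Paths -/

/-- The first letter. -/
def nxt (c : b.support) : List b.support → b.support
  | [] => c
  | a :: _ => a

theorem nxt_mem (c : b.support) (t : List b.support) : nxt c t ∈ c :: t := by
  cases t with
  | nil => exact List.mem_cons_self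
  | cons a t => exact List.mem_cons_of_mem _ List.mem_cons_self

/-- A path `t`, `c` of the diagram with the coordinates `κ` (of the coroot) and `m` (of the root). -/
def Pth (κ m : b.support → ℤ) (c : b.support) : List b.support → Prop
  | [] => κ c = 1 ∧ m c = 1
  | a :: t => Pth κ m c t ∧ a ∉ t ∧ a ≠ c ∧ (∀ l ∈ c :: t, l ≠ nxt c t → b.cartanMatrix a l = 0 ∧ b.cartanMatrix l a = 0) ∧ κ a = -(b.cartanMatrix a (nxt c t) * κ (nxt c t)) ∧
      m a = -(b.cartanMatrix (nxt c t) a * m (nxt c t)) ∧ b.cartanMatrix a (nxt c t) < 0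

theorem pth_c {κ m : b.support → ℤ} {c : b.support} {t : List b.support} (h : Pth κ m c t) : κ c = 1 ∧ m c = 1 ∧ c ∉ t ∧ t.Nodup := by
  induction t with
  | nil => exact ⟨h.1, h.2, List.not_mem_nil, List.nodup_nil⟩
  | cons a t ih =>
    obtain ⟨h1, h2, h3, -⟩ := h
    obtain ⟨h4, h5, h6, h7⟩ := ih h1
    exact ⟨h4, h5, by
      rw [List.mem_cons, not_or]
      exact ⟨Ne.symm h3, h6⟩, List.nodup_cons.2 ⟨h2, h7⟩⟩

theorem pth_pos {κ m : b.support → ℤ} {c : b.support} {t : List b.support} (h : Pth κ m c t) : 0 < κ (nxt c t) := by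
  induction t with
  | nil =>
    show 0 < κ c
    rw [h.1]
    exact one_pos
  | cons a t ih =>
    obtain ⟨h1, -, -, -, h5, -, h7⟩ := h
    have h8 := ih h1
    show 0 < κ a
    rw [h5]
    nlinarith

theorem ck_bet {κ m : b.support → ℤ} {c : b.support} {t : List b.support} (h : Pth κ m c t) (l : b.support) : FC.ck b l (bet c t) = if l ∈ c :: t then (κ l : ℚ) else 0 := by
  induction t generalizing l with
  | nil =>
    rw [bet_nil, FC.ck_simple]
    by_cases h1 : c = l
    · subst h1
      rw [if_pos rfl, if_pos List.mem_cons_self, h.1]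
      simp
    · rw [if_neg h1, if_neg]
      simpa using Ne.symm h1
  | cons a t ih =>
    obtain ⟨h1, h2, h3, h4, h5, h6, h7⟩ := h
    have hsum : ∑ l, FC.ck b l (bet c t) * (b.cartanMatrix a l : ℚ) = κ (nxt c t) * b.cartanMatrix a (nxt c t) := by
      rw [Finset.sum_eq_single (nxt c t)]
      · rw [ih h1, if_pos (nxt_mem c t)]
      · intro l _ hl
        rw [ih h1]
        split_ifs with h8
        · rw [(h4 l h8 hl).1]
          simp
        · simp
      · intro h
        exact absurd (Finset.mem_univ _) h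
    rw [bet_cons, FC.ck_reflect, hsum, ih h1]
    have hac : a ∉ c :: t := by
      rw [List.mem_cons, not_or]
      exact ⟨h3, h2⟩
    by_cases hl : l = a
    · subst hl
      rw [if_pos rfl, if_neg hac, if_pos (List.mem_cons_of_mem _ List.mem_cons_self), h5]
      push_cast
      ring
    · rw [if_neg hl]
      have h9 : l ∈ c :: a :: t ↔ l ∈ c :: t := by
        simp [hl]
      simp only [h9]

theorem mc_bet {κ m : b.support → ℤ} {c : b.support} {t : List b.support} (h : Pth κ m c t) (l : b.support) : mc b l (Sum.inr (bet c t)) = if l ∈ c :: t then m l else 0 := by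
  induction t generalizing l with
  | nil =>
    rw [bet_nil, FC.mc_simple]
    by_cases h1 : c = l
    · subst h1
      rw [if_pos rfl, if_pos List.mem_cons_self, h.2]
    · rw [if_neg h1, if_neg]
      simpa using Ne.symm h1
  | cons a t ih =>
    obtain ⟨h1, h2, h3, h4, h5, h6, h7⟩ := h
    have hsum : ∑ l, mc b l (Sum.inr (bet c t)) * b.cartanMatrix l a = m (nxt c t) * b.cartanMatrix (nxt c t) a := by
      rw [Finset.sum_eq_single (nxt c t)]
      · rw [ih h1, if_pos (nxt_mem c t)]
      · intro l _ hl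
        rw [ih h1]
        split_ifs with h8
        · rw [(h4 l h8 hl).2]
          simp
        · simp
      · intro h
        exact absurd (Finset.mem_univ _) h
    rw [bet_cons, FC.mc_reflect, hsum, ih h1]
    have hac : a ∉ c :: t := by
      rw [List.mem_cons, not_or]
      exact ⟨h3, h2⟩
    by_cases hl : l = a
    · subst hl
      rw [if_pos rfl, if_neg hac, if_pos (List.mem_cons_of_mem _ List.mem_cons_self), h6]
      ring
    · rw [if_neg hl]
      have h9 : l ∈ c :: a :: t ↔ l ∈ c :: t := by
        simp [hl]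
      simp only [h9]

/-- The value at a root. -/
theorem pair_bet {κ m : b.support → ℤ} {c : b.support} {t : List b.support} (h : Pth κ m c t) (i : b.support) : P.pairing (i : ι) (bet c t) = ((∑ l, if l ∈ c :: t then κ l * b.cartanMatrix i l else 0 : ℤ) : ℚ) := by
  rw [FC.pairing_ck]
  push_cast
  refine Finset.sum_congr rfl fun l _ => ?_
  rw [ck_bet h]
  split_ifs <;> simp

theorem pos_bet {κ m : b.support → ℤ} {c : b.support} {t : List b.support} (h : Pth κ m c t) : b.IsPos (bet c t) := by
  refine FC.pos_of_one b (k := c) ?_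
  rw [mc_bet h, if_pos List.mem_cons_self, (pth_c h).2.1]
  exact one_pos

/-! ## 3. The word is reduced -/

theorem redW_pal {κ m : b.support → ℤ} {c : b.support} {t : List b.support} (h : Pth κ m c t) : RedW b (pal c t) := by
  induction t with
  | nil =>
    refine ⟨?_, trivial⟩
    exact b.isPos_of_mem_support c.2
  | cons a t ih =>
    have h0 := h
    obtain ⟨h1, h2, h3, h4, h5, h6, h7⟩ := h
    have hp : P.pairing (a : ι) (bet c t) = κ (nxt c t) * b.cartanMatrix a (nxt c t) := by
      rw [FC.pairing_ck, Finset.sum_eq_single (nxt c t)]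
      · rw [ck_bet h1, if_pos (nxt_mem c t)]
      · intro l _ hl
        rw [ck_bet h1]
        split_ifs with h8
        · rw [(h4 l h8 hl).1]
          simp
        · simp
      · intro h
        exact absurd (Finset.mem_univ _) h
    have hpn : P.pairing (a : ι) (bet c t) < 0 := by
      rw [hp]
      have h8 := pth_pos h1
      have h9 : κ (nxt c t) * b.cartanMatrix a (nxt c t) < 0 := by nlinarith
      exact_mod_cast h9
    have hmc : mc b c (Sum.inr (bet c t)) = 1 := by
      rw [mc_bet h1, if_pos List.mem_cons_self, (pth_c h1).2.1]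
    have hma : mc b a (Sum.inr (bet c t)) = 0 := by
      rw [mc_bet h1, if_neg]
      rw [List.mem_cons, not_or]
      exact ⟨h3, h2⟩
    have hpos : ∀ x : ι, (0 : ℚ) < ((mc b c (Sum.inr x) : ℤ) : ℚ) → b.IsPos x := fun x hx => FC.pos_of_one b (k := c) (by exact_mod_cast hx)
    have hpc : (0 : ℚ) < ((mc b c (Sum.inr (P.reflectionPerm (bet c t) (a : ι))) : ℤ) : ℚ) := by
      rw [mc_rf, hmc, FC.mc_simple, if_neg h3]
      push_cast
      linarith
    rw [pal_cons]
    refine ⟨?_, ?_⟩
    · rw [FC.wW_append, wW_pal]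
      refine hpos _ ?_
      show (0 : ℚ) < ((mc b c (Sum.inr (P.reflectionPerm (a : ι) (P.reflectionPerm (bet c t) (a : ι)))) : ℤ) : ℚ)
      rw [FC.mc_refl b a c h3]
      exact hpc
    · have e : (pal c t ++ [a]).reverse = a :: pal c t := by
        rw [List.reverse_append, pal_reverse]
        rfl
      rw [← FC.RedW_reverse, e]
      refine ⟨?_, ih h1⟩
      rw [wW_pal]
      exact hpos _ hpc

/-! ## 4. The set `J` -/

/-- The reflection is `w_J` for the set `J` of the simple roots with a positive value, if no value is negative. -/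
theorem isWJ_pal {κ m : b.support → ℤ} {c : b.support} {t : List b.support} (h : Pth κ m c t) {J : Finset b.support} (hJ : ∀ i, i ∈ J → 0 < ∑ l, if l ∈ c :: t then κ l * b.cartanMatrix i l else 0)
    (hJ' : ∀ i, i ∉ J → ∑ l, (if l ∈ c :: t then κ l * b.cartanMatrix i l else 0) = 0) : IsWJ b J (wW b (pal c t)) := by
  have hfix : ∀ i : b.support, i ∉ J → wW b (pal c t) (i : ι) = (i : ι) := by
    intro i hi
    rw [wW_pal]
    refine FC.root_ext b fun k => ?_
    have h1 := mc_rf b (bet c t) (i : ι) k
    rw [pair_bet h, hJ' i hi, Int.cast_zero, zero_mul, sub_zero] at h1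
    exact_mod_cast h1
  have hneg : ∀ i : b.support, i ∈ J → ¬b.IsPos (wW b (pal c t) (i : ι)) := by
    intro i hi hpos
    rw [wW_pal] at hpos
    have hp : (1 : ℚ) ≤ P.pairing (i : ι) (bet c t) := by
      rw [pair_bet h]
      have h1 := hJ i hi
      have h2 : 1 ≤ ∑ l, (if l ∈ c :: t then κ l * b.cartanMatrix i l else 0) := h1
      exact_mod_cast h2
    obtain ⟨k, hk⟩ := FC.exists_mc_pos b hpos
    have hδ := pos_bet h
    have h1 := mc_rf b (bet c t) (i : ι) k
    have h2 : (0 : ℚ) < ((mc b k (Sum.inr (P.reflectionPerm (bet c t) (i : ι))) : ℤ) : ℚ) := by exact_mod_cast hk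
    have h3 : (0 : ℚ) ≤ ((mc b k (Sum.inr (bet c t)) : ℤ) : ℚ) := by exact_mod_cast FC.mc_pos b hδ k
    have hki : i = k := by
      by_contra hne
      rw [FC.mc_simple, if_neg hne] at h1
      rw [h1] at h2
      push_cast at h2
      nlinarith
    obtain ⟨l, hl⟩ := FC.exists_mc_pos b hδ
    have h4 : (1 : ℚ) ≤ ((mc b l (Sum.inr (bet c t)) : ℤ) : ℚ) := by exact_mod_cast hl
    have h5 := mc_rf b (bet c t) (i : ι) l
    have h6 : (0 : ℚ) ≤ ((mc b l (Sum.inr (P.reflectionPerm (bet c t) (i : ι))) : ℤ) : ℚ) := by exact_mod_cast FC.mc_pos b hpos l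
    have hli : i = l := by
      by_contra hne
      rw [FC.mc_simple, if_neg hne] at h5
      rw [h5] at h6
      push_cast at h6
      nlinarith
    rw [← hki] at h1 h2
    rw [← hli] at h4
    rw [FC.mc_simple, if_pos rfl] at h1
    have h7 : (1 : ℚ) ≤ ((mc b i (Sum.inr (P.reflectionPerm (bet c t) (i : ι))) : ℤ) : ℚ) := by
      have h8 : (0 : ℤ) < mc b i (Sum.inr (P.reflectionPerm (bet c t) (i : ι))) := by exact_mod_cast h2
      exact_mod_cast h8
    push_cast at h1
    nlinarith
  have h2 := FC.isWJ_of (b := b) (FC.wW_mem b (pal c t)) fun i hi hp => by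
    by_cases hJi : (⟨i, hi⟩ : b.support) ∈ J
    · exact absurd hp (hneg ⟨i, hi⟩ hJi)
    · have h3 := hfix ⟨i, hi⟩ hJi
      rw [h3]
      exact hi
  have h3 : FC.Jw b (wW b (pal c t)) = J := by
    ext i
    rw [FC.mem_Jw]
    constructor
    · intro h4
      by_contra h5
      rw [hfix i h5] at h4
      exact h4 (b.isPos_of_mem_support i.2)
    · exact hneg i
  rw [h3] at h2
  exact h2

/-! ## 5. The gain -/

/-- Letters which occur again, and letters which have occurred. -/
theorem gn_list (b : P.Base) (e : b.support → ℝ) (l : List b.support) (hl : l.Nodup) (B : Finset b.support) (hB : ∀ a ∈ l, a ∉ B) : FC.gn b e Finset.univ B l = l.length := by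
  induction l generalizing B with
  | nil =>
    show (0 : ℝ) = ((0 : ℕ) : ℝ)
    simp
  | cons i l ih =>
    have h1 := List.nodup_cons.1 hl
    show FC.gn b e Finset.univ (B.erase i) l + (if i ∈ Finset.univ ∧ i ∉ l then (if i ∈ B then mu b (eW b e l) i else 1) else 0) = _
    rw [ih h1.2 (B.erase i) fun a ha h => hB a (List.mem_cons_of_mem _ ha) (Finset.mem_of_mem_erase h), if_pos ⟨Finset.mem_univ _, h1.1⟩, if_neg (hB i List.mem_cons_self), List.length_cons]
    push_cast
    ring

theorem gn_pre (b : P.Base) (e : b.support → ℝ) (t l : List b.support) (h : ∀ a ∈ t, a ∈ l) (B : Finset b.support) : FC.gn b e Finset.univ B (t ++ l) = FC.gn b e Finset.univ (B.filter fun a => a ∉ t) l := by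
  induction t generalizing B with
  | nil =>
    congr 1
    ext a
    simp
  | cons i t ih =>
    show FC.gn b e Finset.univ (B.erase i) (t ++ l) + (if i ∈ Finset.univ ∧ i ∉ t ++ l then (if i ∈ B then mu b (eW b e (t ++ l)) i else 1) else 0) = _
    have h1 : ¬(i ∈ (Finset.univ : Finset b.support) ∧ i ∉ t ++ l) := fun h2 => h2.2 (List.mem_append.2 (Or.inr (h i List.mem_cons_self)))
    rw [if_neg h1, add_zero, ih (fun a ha => h a (List.mem_cons_of_mem _ ha))]
    congr 1
    ext a
    simp only [Finset.mem_filter, Finset.mem_erase, List.mem_cons, not_or]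
    tauto

/-- **The gain** of the word `t c t⁻¹`. -/
theorem gn_pal {κ m : b.support → ℤ} {c : b.support} {t : List b.support} (h : Pth κ m c t) (e : b.support → ℝ) : FC.gn b e Finset.univ Finset.univ (pal c t) = t.length + ∑ j, mu b e j * (FC.ck b j (bet c t) : ℝ) := by
  obtain ⟨-, -, hc, hn⟩ := pth_c h
  have hcr : c ∉ t.reverse := by rwa [List.mem_reverse]
  have hcB : c ∈ (Finset.univ : Finset b.support).filter fun a => a ∉ t := Finset.mem_filter.2 ⟨Finset.mem_univ _, hc⟩
  unfold pal
  rw [gn_pre b e t (c :: t.reverse) fun a ha => List.mem_cons_of_mem _ (List.mem_reverse.2 ha)]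
  show FC.gn b e Finset.univ ((Finset.univ.filter fun a => a ∉ t).erase c) t.reverse +
    (if c ∈ Finset.univ ∧ c ∉ t.reverse then (if c ∈ Finset.univ.filter fun a => a ∉ t then mu b (eW b e t.reverse) c else 1) else 0) = _
  rw [if_pos ⟨Finset.mem_univ _, hcr⟩, if_pos hcB, FC.mu_eW, gn_list b e t.reverse (List.nodup_reverse.2 hn) _ fun a ha h1 => ?_, List.length_reverse]
  · rfl
  · exact (Finset.mem_filter.1 (Finset.mem_of_mem_erase h1)).2 (List.mem_reverse.1 ha)

/-- **The word with the gain** `t.length + 2`. -/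
theorem gw_pal {κ m : b.support → ℤ} {c : b.support} {t : List b.support} (h : Pth κ m c t) {J : Finset b.support} (hJ : IsWJ b J (wW b (pal c t))) (h2 : 2 ≤ ∑ j ∈ J, if j ∈ c :: t then κ j else 0) :
    GW b (wW b (pal c t)) (t.length + 2) := by
  refine ⟨pal c t, redW_pal h, rfl, fun a ha => ?_⟩
  have hinv : (wW b (pal c t))⁻¹ = wW b (pal c t) := by
    rw [← FC.wW_reverse, pal_reverse]
  rw [js_invol hJ hinv, gn_pal h]
  have h3 : ∑ j, mu b (eJ b a J) j * (FC.ck b j (bet c t) : ℝ) = a * ((∑ j ∈ J, if j ∈ c :: t then κ j else 0 : ℤ) : ℝ) := by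
    have h4 : ∀ j, mu b (eJ b a J) j * (FC.ck b j (bet c t) : ℝ) = if j ∈ J then a * ((if j ∈ c :: t then κ j else 0 : ℤ) : ℝ) else 0 := by
      intro j
      rw [FC.mu_eJ, ck_bet h]
      split_ifs <;> simp
    rw [Finset.sum_congr rfl fun j _ => h4 j, Finset.sum_ite_mem, Finset.univ_inter, ← Finset.mul_sum, Int.cast_sum]
  rw [h3]
  have h5 : (2 : ℝ) ≤ ((∑ j ∈ J, if j ∈ c :: t then κ j else 0 : ℤ) : ℝ) := by exact_mod_cast h2
  push_cast
  push_cast at h5
  nlinarith

end

end Pool.Agent.Lib.L8.FN
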