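import Pool.Agent.Lib.L8.FN.W0
import Pool.Agent.Lib.L8.F7.RA
import Pool.Agent.Lib.L8.F7.RB
import Pool.Agent.Lib.L8.F7.RD

/-!
# FN, file W1 (helper21): the words for `A_n`, `{1, n}` and `B_n`, `{1}`, and the rank for `D_n`, `{1}`
-/

namespace Pool.Agent.Lib.L8.FN

open Matrix Pool.Agent.Lib.L1S Pool.Agent.Lib.L8.FL Pool.Agent.Lib.L8.F7

noncomputable section

set_option linter.unusedSectionVars false
set_option linter.unusedVariables false

/-! ## 1. Lists -/

/-- The list `a (top - d), …, a (top - 1)`. -/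
def dn {α : Type} (a : ℕ → α) (top : ℕ) : ℕ → List α
  | 0 => []
  | d + 1 => a (top - (d + 1)) :: dn a top d

theorem mem_dn {α : Type} (a : ℕ → α) (top : ℕ) {d : ℕ} (hd : d ≤ top) (x : α) : x ∈ dn a top d ↔ ∃ k, top - d ≤ k ∧ k < top ∧ x = a k := by
  induction d with
  | zero =>
    constructor
    · intro h
      exact absurd h List.not_mem_nil
    · rintro ⟨k, h1, h2, -⟩
      omega
  | succ d ih =>
    show x ∈ a (top - (d + 1)) :: dn a top d ↔ _
    rw [List.mem_cons, ih (by omega)]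
    constructor
    · rintro (h | ⟨k, h1, h2, h3⟩)
      · exact ⟨top - (d + 1), le_rfl, by omega, h⟩
      · exact ⟨k, by omega, h2, h3⟩
    · rintro ⟨k, h1, h2, h3⟩
      rcases Nat.lt_or_ge k (top - d) with h4 | h4
      · left
        have h5 : k = top - (d + 1) := by omega
        rw [h3, h5]
      · exact Or.inr ⟨k, h4, h2, h3⟩

theorem length_dn {α : Type} (a : ℕ → α) (top d : ℕ) : (dn a top d).length = d := by
  induction d with
  | zero => rfl
  | succ d ih =>
    show (dn a top d).length + 1 = d + 1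
    rw [ih]

variable {ι M N : Type} [Fintype ι] [DecidableEq ι] [AddCommGroup M] [Module ℚ M] [AddCommGroup N] [Module ℚ N]
  {P : RootPairing ι ℚ M N} [P.IsCrystallographic] [P.IsReduced] [P.IsIrreducible] [P.IsRootSystem] {b : P.Base}

/-! ## 2. Paths in coordinates -/

theorem pth_nat {n : ℕ} {A : Matrix (Fin n) (Fin n) ℤ} (e : b.support ≃ Fin n) (he : ∀ i j : b.support, P.pairingIn ℤ i j = A (e i) (e j)) {a : ℕ → b.support} (ha : ∀ k (hk : k < n), e (a k) = ⟨k, hk⟩) {γ top : ℕ} (hγ : γ < n)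
    (htop : top ≤ γ) {κ m : ℕ → ℤ} (hκ : κ γ = 1) (hm : m γ = 1) {C : ℕ → ℕ → ℤ} (hC : ∀ i j : Fin n, A i j = C i j)
    (H1 : ∀ i, i + 1 < top → C i (i + 1) < 0 ∧ κ i = -(C i (i + 1) * κ (i + 1)) ∧ m i = -(C (i + 1) i * m (i + 1)))
    (H2 : ∀ i, i + 1 = top → C i γ < 0 ∧ κ i = -(C i γ * κ γ) ∧ m i = -(C γ i * m γ))
    (H3 : ∀ i, i + 1 < top → C i γ = 0 ∧ C γ i = 0) (H4 : ∀ i k, i + 1 < k → k < top → C i k = 0 ∧ C k i = 0) {d : ℕ} (hd : d ≤ top) :
    Pth (fun l => κ (e l)) (fun l => m (e l)) (a γ) (dn a top d) := by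
  have hcar : ∀ i j, i < n → j < n → b.cartanMatrix (a i) (a j) = C i j := by
    intro i j hi hj
    have h1 : b.cartanMatrix (a i) (a j) = A (e (a i)) (e (a j)) := he _ _
    rw [h1, hC, ha i hi, ha j hj]
  have hval : ∀ i, i < n → ((e (a i) : Fin n) : ℕ) = i := fun i hi => by rw [ha i hi]
  have hinj : ∀ i j, i < n → j < n → a i = a j → i = j := fun i j hi hj h => by rw [← hval i hi, h, hval j hj]
  induction d with
  | zero =>
    refine ⟨?_, ?_⟩
    · show κ (e (a γ) : ℕ) = 1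
      rw [hval γ hγ, hκ]
    · show m (e (a γ) : ℕ) = 1
      rw [hval γ hγ, hm]
  | succ d ih =>
    have ih' := ih (by omega)
    obtain ⟨i, hi⟩ : ∃ i, i = top - (d + 1) := ⟨_, rfl⟩
    have hin : i < n := by omega
    show Pth _ _ _ (a (top - (d + 1)) :: dn a top d)
    rw [← hi]
    have hne : a i ≠ a γ := fun h => by
      have := hinj i γ hin hγ h
      omega
    have hnm : a i ∉ dn a top d := by
      rw [mem_dn a top (by omega)]
      rintro ⟨k, h1, h2, h3⟩
      have := hinj i k hin (by omega) h3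
      omega
    refine ⟨ih', hnm, hne, ?_, ?_⟩
    · intro l hl hln
      rcases Nat.eq_zero_or_pos d with h0 | h0
      · subst h0
        exfalso
        apply hln
        have h1 : l ∈ [a γ] := hl
        rw [List.mem_singleton] at h1
        exact h1
      · obtain ⟨d', rfl⟩ : ∃ d', d = d' + 1 := ⟨d - 1, by omega⟩
        have hnx : nxt (a γ) (dn a top (d' + 1)) = a (i + 1) := by
          show a (top - (d' + 1)) = a (i + 1)
          congr 1
          omega
        rw [hnx] at hln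
        rw [List.mem_cons, mem_dn a top (by omega)] at hl
        rcases hl with rfl | ⟨k, h1, h2, rfl⟩
        · rw [hcar i γ hin hγ, hcar γ i hγ hin]
          exact H3 i (by omega)
        · rw [hcar i k hin (by omega), hcar k i (by omega) hin]
          have h3 : k ≠ i + 1 := fun h => hln (by rw [h])
          exact H4 i k (by omega) h2
    · rcases Nat.eq_zero_or_pos d with h0 | h0
      · subst h0
        have hnx : nxt (a γ) (dn a top 0) = a γ := rfl
        rw [hnx, hcar i γ hin hγ, hcar γ i hγ hin]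
        obtain ⟨g1, g2, g3⟩ := H2 i (by omega)
        refine ⟨?_, ?_, g1⟩
        · show κ (e (a i) : ℕ) = -(C i γ * κ (e (a γ) : ℕ))
          rw [hval i hin, hval γ hγ]
          exact g2
        · show m (e (a i) : ℕ) = -(C γ i * m (e (a γ) : ℕ))
          rw [hval i hin, hval γ hγ]
          exact g3
      · obtain ⟨d', rfl⟩ : ∃ d', d = d' + 1 := ⟨d - 1, by omega⟩
        have hnx : nxt (a γ) (dn a top (d' + 1)) = a (i + 1) := by
          show a (top - (d' + 1)) = a (i + 1)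
          congr 1
          omega
        have hi1 : i + 1 < n := by omega
        rw [hnx, hcar i (i + 1) hin hi1, hcar (i + 1) i hi1 hin]
        obtain ⟨g1, g2, g3⟩ := H1 i (by omega)
        refine ⟨?_, ?_, g1⟩
        · show κ (e (a i) : ℕ) = -(C i (i + 1) * κ (e (a (i + 1)) : ℕ))
          rw [hval i hin, hval (i + 1) hi1]
          exact g2
        · show m (e (a i) : ℕ) = -(C (i + 1) i * m (e (a (i + 1)) : ℕ))
          rw [hval i hin, hval (i + 1) hi1]
          exact g3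

/-- The enumeration of the simple roots. -/
def en {n : ℕ} (e : b.support ≃ Fin n) (hn : 0 < n) (k : ℕ) : b.support := if h : k < n then e.symm ⟨k, h⟩ else e.symm ⟨0, hn⟩

theorem e_en {n : ℕ} (e : b.support ≃ Fin n) (hn : 0 < n) (k : ℕ) (hk : k < n) : e (en e hn k) = ⟨k, hk⟩ := by
  unfold en
  rw [dif_pos hk, Equiv.apply_symm_apply]

theorem en_e {n : ℕ} (e : b.support ≃ Fin n) (hn : 0 < n) (l : b.support) : en e hn (e l) = l := by
  unfold en
  rw [dif_pos (e l).2]
  exact e.symm_apply_apply l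

/-- The support of the root of the path. -/
theorem mem_path {n : ℕ} (e : b.support ≃ Fin n) (hn : 0 < n) {γ top : ℕ} (hγ : γ < n) (htop : top ≤ γ) (l : b.support) : l ∈ en e hn γ :: dn (en e hn) top top ↔ (e l : ℕ) < top ∨ (e l : ℕ) = γ := by
  rw [List.mem_cons, mem_dn _ _ le_rfl]
  constructor
  · rintro (rfl | ⟨k, h1, h2, rfl⟩)
    · right
      rw [e_en e hn γ hγ]
    · left
      rw [e_en e hn k (by omega)]
      exact h2
  · rintro (h | h)
    · exact Or.inr ⟨(e l : ℕ), by omega, h, (en_e e hn l).symm⟩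
    · left
      rw [← h, en_e]

/-- The value of the coroot of the path, as a sum over `Fin n`. -/
theorem sum_path {n : ℕ} {A : Matrix (Fin n) (Fin n) ℤ} (e : b.support ≃ Fin n) (he : ∀ i j : b.support, P.pairingIn ℤ i j = A (e i) (e j)) (hn : 0 < n) {γ top : ℕ} (hγ : γ < n) (htop : top ≤ γ) (κ : ℕ → ℤ) (i : b.support) :
    ∑ l, (if l ∈ en e hn γ :: dn (en e hn) top top then κ (e l) * b.cartanMatrix i l else 0) = ∑ k : Fin n, A (e i) k * (if (k : ℕ) < top ∨ (k : ℕ) = γ then κ k else 0) := by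
  rw [← Equiv.sum_comp e.symm]
  refine Finset.sum_congr rfl fun k _ => ?_
  have h1 := mem_path e hn hγ htop (e.symm k)
  rw [Equiv.apply_symm_apply] at h1
  have h2 : b.cartanMatrix i (e.symm k) = A (e i) k := by
    have h3 := he i (e.symm k)
    rw [Equiv.apply_symm_apply] at h3
    exact h3
  rw [Equiv.apply_symm_apply, h2]
  by_cases h3 : (k : ℕ) < top ∨ (k : ℕ) = γ
  · rw [if_pos h3, if_pos (h1.2 h3)]
    ring
  · rw [if_neg h3, if_neg fun h => h3 (h1.1 h), mul_zero]

/-! ## 3. The word of a full path -/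

theorem gw_gen {n : ℕ} (hn : 2 ≤ n) {A : Matrix (Fin n) (Fin n) ℤ} (e : b.support ≃ Fin n) (he : ∀ i j : b.support, P.pairingIn ℤ i j = A (e i) (e j)) (hn0 : 0 < n) {κ m : ℕ → ℤ}
    (hP : Pth (fun l => κ (e l)) (fun l => m (e l)) (en e hn0 (n - 1)) (dn (en e hn0) (n - 1) (n - 1))) {S : Finset (Fin n)} (h1 : ∀ k ∈ S, 0 < ∑ i : Fin n, A k i * κ i) (h1' : ∀ k, k ∉ S → ∑ i : Fin n, A k i * κ i = 0)
    (h2 : 2 ≤ ∑ k ∈ S, κ k) {J : Finset b.support} {w : Equiv.Perm ι} (hw : IsWJ b J w) (hJ : J.map e.toEmbedding = S) : GW b w (n + 1) ∧ w⁻¹ = w := by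
  have hmem : ∀ l : b.support, l ∈ en e hn0 (n - 1) :: dn (en e hn0) (n - 1) (n - 1) := by
    intro l
    rw [mem_path e hn0 (by omega) le_rfl]
    have := (e l).2
    omega
  have hsum : ∀ i : b.support, ∑ l, (if l ∈ en e hn0 (n - 1) :: dn (en e hn0) (n - 1) (n - 1) then κ (e l) * b.cartanMatrix i l else 0) = ∑ k : Fin n, A (e i) k * κ k := by
    intro i
    rw [sum_path e he hn0 (by omega) le_rfl]
    refine Finset.sum_congr rfl fun k _ => ?_
    have hk := k.2
    rw [if_pos (by omega)]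
  have hJm : ∀ i, i ∈ J ↔ e i ∈ S := by
    intro i
    rw [← hJ, Finset.mem_map_equiv, Equiv.symm_apply_apply]
  have hJw : IsWJ b J (wW b (pal (en e hn0 (n - 1)) (dn (en e hn0) (n - 1) (n - 1)))) := by
    refine isWJ_pal hP (fun i hi => ?_) (fun i hi => ?_)
    · refine lt_of_lt_of_eq (h1 (e i) ((hJm i).1 hi)) (hsum i).symm
    · exact (hsum i).trans (h1' (e i) fun h => hi ((hJm i).2 h))
  have hww := FC.isWJ_unique hw hJw
  have h3 := gw_pal hP hJw (by
    have h4 : ∑ j ∈ J, (if j ∈ en e hn0 (n - 1) :: dn (en e hn0) (n - 1) (n - 1) then κ (e j) else 0) = ∑ k ∈ S, κ k := by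
      rw [← hJ, Finset.sum_map]
      exact Finset.sum_congr rfl fun j _ => if_pos (hmem j)
    exact le_of_le_of_eq h2 h4.symm)
  rw [length_dn] at h3
  rw [hww]
  have h4 : n - 1 + 2 = n + 1 := by omega
  rw [h4] at h3
  exact ⟨h3, by rw [← FC.wW_reverse, pal_reverse]⟩

/-! ## 4. Type `A_n`, `J = {1, n}` -/

theorem rowA_int {n : ℕ} (hn : 2 ≤ n) (k : Fin n) : ∑ i : Fin n, CartanMatrix.A n k i * 1 = if (k : ℕ) = 0 ∨ (k : ℕ) + 1 = n then 1 else 0 := by
  have h1 := rowA n (fun x : ℕ => if 1 ≤ x ∧ x ≤ n then 1 else 0) (by simp) (by simp) k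
  have hk := k.2
  have h2 : ((∑ i : Fin n, CartanMatrix.A n k i * 1 : ℤ) : ℝ) = rw' (CartanMatrix.A n) (fun i => if 1 ≤ (i : ℕ) + 1 ∧ (i : ℕ) + 1 ≤ n then 1 else 0) k := by
    unfold rw'
    rw [Int.cast_sum]
    refine Finset.sum_congr rfl fun i _ => ?_
    have hi := i.2
    have h3 : 1 ≤ (i : ℕ) + 1 ∧ (i : ℕ) + 1 ≤ n := by omega
    simp only [if_pos h3]
    push_cast
    ring
  have h3 : ((∑ i : Fin n, CartanMatrix.A n k i * 1 : ℤ) : ℝ) = ((if (k : ℕ) = 0 ∨ (k : ℕ) + 1 = n then 1 else 0 : ℤ) : ℝ) := by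
    rw [h2]
    refine h1.trans ?_
    by_cases hk0 : (k : ℕ) = 0
    · rw [if_pos (by omega), if_neg (by omega), if_pos (by omega), if_pos (Or.inl hk0)]
      norm_num
    · by_cases hkn : (k : ℕ) + 1 = n
      · rw [if_pos (by omega), if_pos (by omega), if_neg (by omega), if_pos (Or.inr hkn)]
        norm_num
      · rw [if_pos (by omega), if_pos (by omega), if_pos (by omega), if_neg (by omega)]
        norm_num
  exact_mod_cast h3

/-- The set `{1, n}`. -/
def sA (n : ℕ) : Finset (Fin n) := Finset.univ.filter fun i => (i : ℕ) = 0 ∨ (i : ℕ) + 1 = n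

theorem mem_sA {n : ℕ} (i : Fin n) : i ∈ sA n ↔ (i : ℕ) = 0 ∨ (i : ℕ) + 1 = n := by
  unfold sA
  rw [Finset.mem_filter]
  exact and_iff_right (Finset.mem_univ _)

/-- **The word of `w_J`, `J = {1, n}`, type `A_n`**: gain `n + 1`. -/
theorem gw_An {n : ℕ} (hn : 2 ≤ n) (e : b.support ≃ Fin n) (he : ∀ i j : b.support, P.pairingIn ℤ i j = CartanMatrix.A n (e i) (e j)) {J : Finset b.support} {w : Equiv.Perm ι} (hw : IsWJ b J w)
    (hJ : J.map e.toEmbedding = sA n) : GW b w (n + 1) ∧ w⁻¹ = w := by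
  have hn0 : 0 < n := by omega
  have hC : ∀ i j : Fin n, CartanMatrix.A n i j = if (i : ℕ) = j then 2 else if (i : ℕ) + 1 = j ∨ (j : ℕ) + 1 = i then -1 else 0 := by
    intro i j
    show (if i = j then (2 : ℤ) else if i.val + 1 = j.val ∨ j.val + 1 = i.val then -1 else 0) = _
    simp only [Fin.ext_iff]
  have hP : Pth (fun l => (fun _ : ℕ => (1 : ℤ)) (e l)) (fun l => (fun _ : ℕ => (1 : ℤ)) (e l)) (en e hn0 (n - 1)) (dn (en e hn0) (n - 1) (n - 1)) := by
    refine pth_nat e he (e_en e hn0) (γ := n - 1) (top := n - 1) (κ := fun _ => 1) (m := fun _ => 1) (by omega) le_rfl rfl rfl (C := fun i j : ℕ => if i = j then 2 else if i + 1 = j ∨ j + 1 = i then -1 else 0) hC ?_ ?_ ?_ ?_ le_rfl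
    · intro i hi
      simp
    · intro i hi
      have h3 : n - 1 = i + 1 := hi.symm
      simp [h3]
    · intro i hi
      have h1 : i ≠ n - 1 := by omega
      have h2 : n - 1 ≠ i := by omega
      have h3 : i + 1 ≠ n - 1 := by omega
      have h4 : n - 1 + 1 ≠ i := by omega
      simp [h1, h2, h3, h4]
    · intro i k h1 h2
      have h3 : i ≠ k := by omega
      have h4 : k ≠ i := by omega
      have h5 : i + 1 ≠ k := by omega
      have h6 : k + 1 ≠ i := by omega
      simp [h3, h4, h5, h6]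
  refine gw_gen hn e he hn0 (κ := fun _ => 1) (m := fun _ => 1) hP (S := sA n) (fun k hk => ?_) (fun k hk => ?_) ?_ hw hJ
  · rw [rowA_int hn, if_pos ((mem_sA k).1 hk)]
    exact one_pos
  · rw [rowA_int hn, if_neg fun h => hk ((mem_sA k).2 h)]
  · show 2 ≤ ∑ k ∈ sA n, (1 : ℤ)
    rw [Finset.sum_const, nsmul_one]
    have h4 : 1 < (sA n).card := by
      rw [Finset.one_lt_card]
      refine ⟨⟨0, hn0⟩, (mem_sA _).2 (Or.inl rfl), ⟨n - 1, by omega⟩, (mem_sA _).2 (Or.inr ?_), fun h => ?_⟩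
      · show n - 1 + 1 = n
        omega
      · have h5 := congrArg Fin.val h
        simp only at h5
        omega
    have h5 : (1 : ℤ) < ((sA n).card : ℤ) := by exact_mod_cast h4
    omega

/-! ## 5. Type `B_n`, `J = {1}` -/

theorem rowB_int {n : ℕ} (hn : 2 ≤ n) (k : Fin n) : ∑ i : Fin n, CartanMatrix.B n k i * (if (i : ℕ) + 1 = n then 1 else 2) = if (k : ℕ) = 0 then 2 else 0 := by
  have h1 := rowB n (fun x : ℕ => if 1 ≤ x then 2 else 0) (by simp) k
  have hk := k.2
  have h2 : ((∑ i : Fin n, CartanMatrix.B n k i * (if (i : ℕ) + 1 = n then 1 else 2) : ℤ) : ℝ) =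
      rw' (CartanMatrix.B n) (fun i => if (i : ℕ) + 1 = n then (fun x : ℕ => if 1 ≤ x then (2 : ℝ) else 0) n / 2 else (fun x : ℕ => if 1 ≤ x then (2 : ℝ) else 0) ((i : ℕ) + 1)) k := by
    unfold rw'
    rw [Int.cast_sum]
    refine Finset.sum_congr rfl fun i _ => ?_
    have hi := i.2
    have h3 : 1 ≤ n := by omega
    have h4 : 1 ≤ (i : ℕ) + 1 := by omega
    simp only [if_pos h3, if_pos h4]
    split_ifs <;> push_cast <;> ring
  have h3 : ((∑ i : Fin n, CartanMatrix.B n k i * (if (i : ℕ) + 1 = n then 1 else 2) : ℤ) : ℝ) = ((if (k : ℕ) = 0 then 2 else 0 : ℤ) : ℝ) := by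
    rw [h2]
    refine h1.trans ?_
    have g1 : 1 ≤ (k : ℕ) + 1 := by omega
    have g2 : 1 ≤ (k : ℕ) + 2 := by omega
    have g3 : 1 ≤ n := by omega
    have g4 : 1 ≤ n - 1 := by omega
    simp only [if_pos g1, if_pos g2, if_pos g3, if_pos g4]
    by_cases hk0 : (k : ℕ) = 0
    · rw [if_pos (by omega), if_neg (by omega), if_pos hk0]
      norm_num
    · have g5 : 1 ≤ (k : ℕ) := by omega
      rw [if_neg hk0, if_pos g5]
      split_ifs <;> norm_num
  exact_mod_cast h3

/-- The set `{1}`. -/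
def sB (n : ℕ) : Finset (Fin n) := Finset.univ.filter fun i => (i : ℕ) = 0

theorem mem_sB {n : ℕ} (i : Fin n) : i ∈ sB n ↔ (i : ℕ) = 0 := by
  unfold sB
  rw [Finset.mem_filter]
  exact and_iff_right (Finset.mem_univ _)

/-- **The word of `w_J`, `J = {1}`, type `B_n`**: gain `n + 1`. -/
theorem gw_Bn {n : ℕ} (hn : 2 ≤ n) (e : b.support ≃ Fin n) (he : ∀ i j : b.support, P.pairingIn ℤ i j = CartanMatrix.B n (e i) (e j)) {J : Finset b.support} {w : Equiv.Perm ι} (hw : IsWJ b J w)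
    (hJ : J.map e.toEmbedding = sB n) : GW b w (n + 1) ∧ w⁻¹ = w := by
  have hn0 : 0 < n := by omega
  have hC : ∀ i j : Fin n, CartanMatrix.B n i j = if (i : ℕ) = j then 2 else if (i : ℕ) + 1 = j then (if (j : ℕ) = n - 1 then -2 else -1) else if (j : ℕ) + 1 = i then -1 else 0 := by
    intro i j
    show (if i = j then (2 : ℤ) else if i.val + 1 = j.val then if j.val = n - 1 then -2 else -1 else if j.val + 1 = i.val then -1 else 0) = _
    simp only [Fin.ext_iff]
  have hP : Pth (fun l => (fun x : ℕ => if x + 1 = n then (1 : ℤ) else 2) (e l)) (fun l => (fun _ : ℕ => (1 : ℤ)) (e l)) (en e hn0 (n - 1)) (dn (en e hn0) (n - 1) (n - 1)) := by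
    refine pth_nat e he (e_en e hn0) (γ := n - 1) (top := n - 1) (κ := fun x => if x + 1 = n then 1 else 2) (m := fun _ => 1) (by omega) le_rfl (if_pos (by omega)) rfl
      (C := fun i j : ℕ => if i = j then 2 else if i + 1 = j then (if j = n - 1 then -2 else -1) else if j + 1 = i then -1 else 0) hC ?_ ?_ ?_ ?_ le_rfl
    · intro i hi
      have h1 : i + 1 ≠ n - 1 := by omega
      have h2 : i + 1 ≠ n := by omega
      have h3 : i + 1 + 1 ≠ n := by omega
      have h4 : i + 1 + 1 ≠ i := by omega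
      simp [h1, h2, h3, h4]
    · intro i hi
      have h2 : i + 1 ≠ n := by omega
      have h3 : n - 1 = i + 1 := hi.symm
      have h4 : i + 1 + 1 = n := by omega
      simp [h2, h3, h4]
    · intro i hi
      have h1 : i ≠ n - 1 := by omega
      have h2 : n - 1 ≠ i := by omega
      have h3 : i + 1 ≠ n - 1 := by omega
      have h4 : n - 1 + 1 ≠ i := by omega
      simp [h1, h2, h3, h4]
    · intro i k h1 h2
      have h3 : i ≠ k := by omega
      have h4 : k ≠ i := by omega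
      have h5 : i + 1 ≠ k := by omega
      have h6 : k + 1 ≠ i := by omega
      simp [h3, h4, h5, h6]
  refine gw_gen hn e he hn0 (κ := fun x => if x + 1 = n then 1 else 2) (m := fun _ => 1) hP (S := sB n) (fun k hk => ?_) (fun k hk => ?_) ?_ hw hJ
  · rw [rowB_int hn, if_pos ((mem_sB k).1 hk)]
    exact two_pos
  · rw [rowB_int hn, if_neg fun h => hk ((mem_sB k).2 h)]
  · have h4 : sB n = {⟨0, hn0⟩} := by
      ext i
      rw [mem_sB, Finset.mem_singleton, Fin.ext_iff]
    rw [h4, Finset.sum_singleton]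
    show (2 : ℤ) ≤ if 0 + 1 = n then 1 else 2
    rw [if_neg (by omega)]

/-! ## 6. The inequalities for `A_n` and `B_n` -/

theorem inJ_two_of {n : ℕ} {A : Matrix (Fin n) (Fin n) ℤ} (e : b.support ≃ Fin n) (he : ∀ i j : b.support, P.pairingIn ℤ i j = A (e i) (e j)) {S₀ : Finset (Fin n)} {D ν₀ ν : ℝ}
    (hinv : ∀ (J : Finset b.support) (w : Equiv.Perm ι), IsWJ b J w → J.map e.toEmbedding = S₀ → w⁻¹ = w) (h0 : SqT A id D ν₀ S₀) (h1 : ∀ S : Finset (Fin n), S.Nonempty → S ≠ S₀ → SqT A id D ν S)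
    {J : Finset b.support} (hJ : J.Nonempty) {w : Equiv.Perm ι} (hw : IsWJ b J w) : InJ b D (if J.map e.toEmbedding = S₀ then ν₀ else ν) J w := by
  by_cases h : J.map e.toEmbedding = S₀
  · rw [if_pos h]
    have h2 := js_invol hw (hinv J w hw h)
    refine inJ_two e he ?_ ?_
    · rw [h]
      exact h0
    · rw [h2, h]
      exact h0
  · rw [if_neg h]
    have hs : (Js b w).map e.toEmbedding ≠ S₀ := by
      intro h3
      have h4 := FC.isWJ_inv hw
      have h5 := hinv _ _ h4 h3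
      rw [inv_inv] at h5
      have h6 := js_invol hw h5.symm
      rw [h6] at h3
      exact h h3
    have hne : (Js b w).Nonempty := by
      rw [Finset.nonempty_iff_ne_empty]
      intro he0
      obtain ⟨j, hj⟩ := hJ
      have h2 := FC.isWJ_inv hw
      rw [he0] at h2
      have h3 : IsWJ b (∅ : Finset b.support) (1 : Equiv.Perm ι) := ⟨FC.wW_mem b [], fun β hβ => ⟨fun _ => Finset.sum_empty, fun _ => hβ⟩⟩
      have h4 : w⁻¹ = 1 := FC.isWJ_unique h2 h3
      have h5 : j ∈ Js b w⁻¹ := by rw [FC.Js_inv hw]; exact hj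
      rw [FC.mem_Js, inv_inv] at h5
      have h6 : w = 1 := by rw [← inv_inv w, h4, inv_one]
      rw [h6] at h5
      exact h5 (b.isPos_of_mem_support j.2)
    exact inJ_two e he (h1 _ (Finset.map_nonempty.2 hJ) h) (h1 _ (Finset.map_nonempty.2 hne) hs)

/-- **Type `A_n`**: `rank + 2` for `{1, n}`, `rank + 1` for the other sets. -/
theorem ineqR_An {n : ℕ} (hn : 2 ≤ n) (h : Typ b (CartanMatrix.A n)) {D : ℝ} (h1 : ∀ S : Finset (Fin n), S.Nonempty → S ≠ sA n → SqT (CartanMatrix.A n) Fin.rev D ((n : ℝ) + 1) S)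
    (h2 : SqT (CartanMatrix.A n) Fin.rev D ((n : ℝ) + 2) (sA n)) : IneqR b D (nuB b) := by
  have hcard := typ_card h
  obtain ⟨e, he⟩ := h
  refine ineqR_of fun J hJ w hw => ?_
  have hC : IsC b w := ⟨J, hJ, hw⟩
  have hT : ∀ {ν : ℝ}, SqT (CartanMatrix.A n) Fin.rev D ν (J.map e.toEmbedding) → InJ b D ν J w := fun h => inJ_star e he (τ := Fin.rev) (fun σ w₀ hop i => star_A hn e he hop i) Fin.rev_rev hw h
  by_cases hS : J.map e.toEmbedding = sA n
  · refine ⟨(n : ℝ) + 2, ?_, hT (by rw [hS]; exact h2)⟩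
    have h3 := le_nuB (gw_An hn e he hw hS).1 (by rw [hcard]; omega) (kr_one (torM_isC hC))
    push_cast at h3
    linarith
  · refine ⟨(n : ℝ) + 1, ?_, hT (h1 _ (Finset.map_nonempty.2 hJ) hS)⟩
    have h3 := rank_nuB hC
    rw [hcard] at h3
    exact h3

/-- **Type `B_n`**: `rank + 2` for `{1}`, `rank + 1` for the other sets. -/
theorem ineqR_Bn {n : ℕ} (hn : 2 ≤ n) (h : Typ b (CartanMatrix.B n)) {D : ℝ} (h1 : ∀ S : Finset (Fin n), S.Nonempty → S ≠ sB n → SqT (CartanMatrix.B n) id D ((n : ℝ) + 1) S)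
    (h2 : SqT (CartanMatrix.B n) id D ((n : ℝ) + 2) (sB n)) : IneqR b D (nuB b) := by
  have hcard := typ_card h
  obtain ⟨e, he⟩ := h
  refine ineqR_of fun J hJ w hw => ⟨_, ?_, inJ_two_of e he (fun J w hw hS => (gw_Bn hn e he hw hS).2) h2 h1 hJ hw⟩
  have hC : IsC b w := ⟨J, hJ, hw⟩
  split_ifs with hS
  · have h3 := le_nuB (gw_Bn hn e he hw hS).1 (by rw [hcard]; omega) (kr_one (torM_isC hC))
    push_cast at h3
    linarith
  · have h3 := rank_nuB hC
    rw [hcard] at h3
    exact h3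

end

end Pool.Agent.Lib.L8.FN
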