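import Pool.Agent.Lib.L8.FN.W1

/-!
# FN, file W2 (helper21): type `D_n`, `J = {1}`: `w_J = s_δ s_δ'` and the rank of `1 - w_J` is `2`
-/

namespace Pool.Agent.Lib.L8.FN

open Matrix Pool.Agent.Lib.L1S Pool.Agent.Lib.L8.FL Pool.Agent.Lib.L8.F7

noncomputable section

set_option linter.unusedSectionVars false
set_option linter.unusedVariables false

/-! ## 1. The rows -/

theorem rowD_int1 {n : ℕ} (hn : 4 ≤ n) (k : Fin n) : ∑ i : Fin n, CartanMatrix.D n k i * (if (i : ℕ) < n - 2 ∨ (i : ℕ) = n - 2 then 1 else 0) = if (k : ℕ) = 0 ∨ (k : ℕ) + 2 = n then 1 else if (k : ℕ) + 1 = n then -1 else 0 := by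
  have h1 := rowD n (by omega) (fun x : ℕ => if 1 ≤ x then 1 else 0) 1 0 (by simp) (by
    have h : 1 ≤ n - 1 := by omega
    simp only [if_pos h]
    norm_num) k
  have hk := k.2
  have h2 : ((∑ i : Fin n, CartanMatrix.D n k i * (if (i : ℕ) < n - 2 ∨ (i : ℕ) = n - 2 then 1 else 0) : ℤ) : ℝ) =
      rw' (CartanMatrix.D n) (fun i => if (i : ℕ) + 2 < n then (fun x : ℕ => if 1 ≤ x then (1 : ℝ) else 0) ((i : ℕ) + 1) else if (i : ℕ) + 2 = n then 1 else 0) k := by
    unfold rw'
    rw [Int.cast_sum]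
    refine Finset.sum_congr rfl fun i _ => ?_
    have hi := i.2
    have h4 : 1 ≤ (i : ℕ) + 1 := by omega
    simp only [if_pos h4]
    rcases Nat.lt_trichotomy ((i : ℕ) + 2) n with h5 | h5 | h5
    · rw [if_pos (Or.inl (by omega)), if_pos h5]
      push_cast
      ring
    · rw [if_pos (Or.inr (by omega)), if_neg (by omega), if_pos h5]
      push_cast
      ring
    · rw [if_neg (by omega), if_neg (by omega), if_neg (by omega)]
      push_cast
      ring
  have h3 : ((∑ i : Fin n, CartanMatrix.D n k i * (if (i : ℕ) < n - 2 ∨ (i : ℕ) = n - 2 then 1 else 0) : ℤ) : ℝ) = ((if (k : ℕ) = 0 ∨ (k : ℕ) + 2 = n then 1 else if (k : ℕ) + 1 = n then -1 else 0 : ℤ) : ℝ) := by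
    rw [h2]
    refine h1.trans ?_
    have g1 : 1 ≤ (k : ℕ) + 1 := by omega
    have g2 : 1 ≤ (k : ℕ) + 2 := by omega
    have g3 : 1 ≤ n - 2 := by omega
    simp only [if_pos g1, if_pos g2, if_pos g3]
    rcases Nat.lt_trichotomy ((k : ℕ) + 2) n with h5 | h5 | h5
    · rw [if_pos h5]
      by_cases h6 : (k : ℕ) = 0
      · rw [if_neg (by omega), if_pos (Or.inl h6)]
        norm_num
      · have h7 : 1 ≤ (k : ℕ) := by omega
        rw [if_pos h7, if_neg (by omega), if_neg (by omega)]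
        norm_num
    · rw [if_neg (by omega), if_pos h5, if_pos (Or.inr h5)]
      norm_num
    · rw [if_neg (by omega), if_neg (by omega), if_neg (by omega), if_pos (by omega)]
      norm_num
  exact_mod_cast h3

theorem rowD_int2 {n : ℕ} (hn : 4 ≤ n) (k : Fin n) : ∑ i : Fin n, CartanMatrix.D n k i * (if (i : ℕ) < n - 2 ∨ (i : ℕ) = n - 1 then 1 else 0) = if (k : ℕ) = 0 ∨ (k : ℕ) + 1 = n then 1 else if (k : ℕ) + 2 = n then -1 else 0 := by
  have h1 := rowD n (by omega) (fun x : ℕ => if 1 ≤ x then 1 else 0) 0 1 (by simp) (by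
    have h : 1 ≤ n - 1 := by omega
    simp only [if_pos h]
    norm_num) k
  have hk := k.2
  have h2 : ((∑ i : Fin n, CartanMatrix.D n k i * (if (i : ℕ) < n - 2 ∨ (i : ℕ) = n - 1 then 1 else 0) : ℤ) : ℝ) =
      rw' (CartanMatrix.D n) (fun i => if (i : ℕ) + 2 < n then (fun x : ℕ => if 1 ≤ x then (1 : ℝ) else 0) ((i : ℕ) + 1) else if (i : ℕ) + 2 = n then 0 else 1) k := by
    unfold rw'
    rw [Int.cast_sum]
    refine Finset.sum_congr rfl fun i _ => ?_
    have hi := i.2
    have h4 : 1 ≤ (i : ℕ) + 1 := by omega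
    simp only [if_pos h4]
    rcases Nat.lt_trichotomy ((i : ℕ) + 2) n with h5 | h5 | h5
    · rw [if_pos (Or.inl (by omega)), if_pos h5]
      push_cast
      ring
    · rw [if_neg (by omega), if_neg (by omega), if_pos h5]
      push_cast
      ring
    · rw [if_pos (Or.inr (by omega)), if_neg (by omega), if_neg (by omega)]
      push_cast
      ring
  have h3 : ((∑ i : Fin n, CartanMatrix.D n k i * (if (i : ℕ) < n - 2 ∨ (i : ℕ) = n - 1 then 1 else 0) : ℤ) : ℝ) = ((if (k : ℕ) = 0 ∨ (k : ℕ) + 1 = n then 1 else if (k : ℕ) + 2 = n then -1 else 0 : ℤ) : ℝ) := by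
    rw [h2]
    refine h1.trans ?_
    have g1 : 1 ≤ (k : ℕ) + 1 := by omega
    have g2 : 1 ≤ (k : ℕ) + 2 := by omega
    have g3 : 1 ≤ n - 2 := by omega
    simp only [if_pos g1, if_pos g2, if_pos g3]
    rcases Nat.lt_trichotomy ((k : ℕ) + 2) n with h5 | h5 | h5
    · rw [if_pos h5]
      by_cases h6 : (k : ℕ) = 0
      · rw [if_neg (by omega), if_pos (Or.inl h6)]
        norm_num
      · have h7 : 1 ≤ (k : ℕ) := by omega
        rw [if_pos h7, if_neg (by omega), if_neg (by omega)]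
        norm_num
    · rw [if_neg (by omega), if_pos h5, if_neg (by omega), if_pos h5]
      norm_num
    · rw [if_neg (by omega), if_neg (by omega), if_pos (Or.inr (by omega))]
      norm_num
  exact_mod_cast h3

variable {ι M N : Type} [Fintype ι] [DecidableEq ι] [AddCommGroup M] [Module ℚ M] [AddCommGroup N] [Module ℚ N]
  {P : RootPairing ι ℚ M N} [P.IsCrystallographic] [P.IsReduced] [P.IsIrreducible] [P.IsRootSystem] {b : P.Base}

/-! ## 2. Two orthogonal reflections -/

theorem pairing_rf (γ δ ε : ι) : P.pairing (P.reflectionPerm δ γ) ε = P.pairing γ ε - P.pairing γ δ * P.pairing δ ε := by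
  have h1 : P.pairing (P.reflectionPerm δ γ) ε = P.coroot' ε (P.root (P.reflectionPerm δ γ)) := rfl
  rw [h1, P.root_reflectionPerm, P.reflection_apply_root, map_sub, map_smul]
  rfl

theorem mc_two (b : P.Base) {δ ε : ι} (h : P.pairing δ ε = 0) (γ : ι) (k : b.support) :
    ((mc b k (Sum.inr (P.reflectionPerm ε (P.reflectionPerm δ γ))) : ℤ) : ℚ) = mc b k (Sum.inr γ) - P.pairing γ δ * mc b k (Sum.inr δ) - P.pairing γ ε * mc b k (Sum.inr ε) := by
  rw [mc_rf, mc_rf, pairing_rf, h, mul_zero, sub_zero]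

theorem rf_comm (b : P.Base) {δ ε : ι} (h : P.pairing δ ε = 0) (h' : P.pairing ε δ = 0) : P.reflectionPerm ε * P.reflectionPerm δ = P.reflectionPerm δ * P.reflectionPerm ε := by
  refine Equiv.ext fun γ => FC.root_ext b fun k => ?_
  have h1 := mc_two b h γ k
  have h2 := mc_two b h' γ k
  have h3 : ((mc b k (Sum.inr (P.reflectionPerm ε (P.reflectionPerm δ γ))) : ℤ) : ℚ) = ((mc b k (Sum.inr (P.reflectionPerm δ (P.reflectionPerm ε γ))) : ℤ) : ℚ) := by
    rw [h1, h2]
    ring
  exact_mod_cast h3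

theorem pairing_mc (b : P.Base) (x ε : ι) : P.pairing x ε = ∑ k : b.support, (mc b k (Sum.inr x) : ℚ) * P.pairing (k : ι) ε := by
  have h1 : P.pairing x ε = P.coroot' ε (P.root x) := rfl
  rw [h1, FC.root_sum b x, map_sum]
  refine Finset.sum_congr rfl fun k _ => ?_
  rw [map_smul]
  rfl

/-! ## 3. The two paths of `D_n` -/

section typeD

variable {n : ℕ} (hn : 4 ≤ n) (hn0 : 0 < n) (e : b.support ≃ Fin n) (he : ∀ i j : b.support, P.pairingIn ℤ i j = CartanMatrix.D n (e i) (e j))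

include hn he in
theorem pth_D {γ : ℕ} (hγ : γ = n - 2 ∨ γ = n - 1) : Pth (fun l => (fun _ : ℕ => (1 : ℤ)) (e l)) (fun l => (fun _ : ℕ => (1 : ℤ)) (e l)) (en e hn0 γ) (dn (en e hn0) (n - 2) (n - 2)) := by
  obtain ⟨C, hCd⟩ : ∃ C : ℕ → ℕ → ℤ, ∀ i j, C i j = if i = j then 2 else if n ≤ 2 then 0 else if i + 1 = j ∧ j + 2 < n then -1 else if j + 1 = i ∧ i + 2 < n then -1
      else if i + 3 = n ∧ (j + 2 = n ∨ j + 1 = n) then -1 else if j + 3 = n ∧ (i + 2 = n ∨ i + 1 = n) then -1 else 0 := ⟨_, fun _ _ => rfl⟩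
  have hC : ∀ i j : Fin n, CartanMatrix.D n i j = C i j := by
    intro i j
    rw [hCd]
    show (if i = j then (2 : ℤ) else if n ≤ 2 then 0 else if i.val + 1 = j.val ∧ j.val + 2 < n then -1 else if j.val + 1 = i.val ∧ i.val + 2 < n then -1
      else if i.val + 3 = n ∧ (j.val + 2 = n ∨ j.val + 1 = n) then -1 else if j.val + 3 = n ∧ (i.val + 2 = n ∨ i.val + 1 = n) then -1 else 0) = _
    simp only [Fin.ext_iff]
  have h2 : ¬n ≤ 2 := by omega
  refine pth_nat e he (e_en e hn0) (γ := γ) (top := n - 2) (κ := fun _ => 1) (m := fun _ => 1) (by omega) (by omega) rfl rfl (C := C) hC ?_ ?_ ?_ ?_ le_rfl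
  · intro i hi
    have g1 : C i (i + 1) = -1 := by
      rw [hCd, if_neg (by omega), if_neg h2, if_pos (by omega)]
    have g2 : C (i + 1) i = -1 := by
      rw [hCd, if_neg (by omega), if_neg h2, if_neg (by omega), if_pos (by omega)]
    rw [g1, g2]
    norm_num
  · intro i hi
    have g1 : C i γ = -1 := by
      rw [hCd, if_neg (by omega), if_neg h2, if_neg (by omega), if_neg (by omega), if_pos (by omega)]
    have g2 : C γ i = -1 := by
      rw [hCd, if_neg (by omega), if_neg h2, if_neg (by omega), if_neg (by omega), if_neg (by omega), if_pos (by omega)]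
    rw [g1, g2]
    norm_num
  · intro i hi
    constructor
    · rw [hCd, if_neg (by omega), if_neg h2, if_neg (by omega), if_neg (by omega), if_neg (by omega), if_neg (by omega)]
    · rw [hCd, if_neg (by omega), if_neg h2, if_neg (by omega), if_neg (by omega), if_neg (by omega), if_neg (by omega)]
  · intro i k hk1 hk2
    constructor
    · rw [hCd, if_neg (by omega), if_neg h2, if_neg (by omega), if_neg (by omega), if_neg (by omega), if_neg (by omega)]
    · rw [hCd, if_neg (by omega), if_neg h2, if_neg (by omega), if_neg (by omega), if_neg (by omega), if_neg (by omega)]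

/-- The root of the path with the end `γ`. -/
def dl (γ : ℕ) : ι := bet (en e hn0 γ) (dn (en e hn0) (n - 2) (n - 2))

include hn he in
theorem mc_dl {γ : ℕ} (hγ : γ = n - 2 ∨ γ = n - 1) (l : b.support) : mc b l (Sum.inr (dl hn0 e γ)) = if (e l : ℕ) < n - 2 ∨ (e l : ℕ) = γ then 1 else 0 := by
  unfold dl
  rw [mc_bet (pth_D hn hn0 e he hγ) l]
  exact if_congr (mem_path e hn0 (by omega) (by omega) l) rfl rfl

include hn he in
theorem pair_dl {γ : ℕ} (hγ : γ = n - 2 ∨ γ = n - 1) (i : b.support) : P.pairing (i : ι) (dl hn0 e γ) = ((∑ k : Fin n, CartanMatrix.D n (e i) k * (if (k : ℕ) < n - 2 ∨ (k : ℕ) = γ then 1 else 0) : ℤ) : ℚ) := by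
  unfold dl
  rw [pair_bet (pth_D hn hn0 e he hγ) i]
  exact congrArg _ (sum_path e he hn0 (by omega) (by omega) (fun _ => (1 : ℤ)) i)

include hn he in
theorem pair_dl1 (i : b.support) : P.pairing (i : ι) (dl hn0 e (n - 2)) = ((if (e i : ℕ) = 0 ∨ (e i : ℕ) + 2 = n then 1 else if (e i : ℕ) + 1 = n then -1 else 0 : ℤ) : ℚ) := by
  rw [pair_dl hn hn0 e he (Or.inl rfl), rowD_int1 hn]

include hn he in
theorem pair_dl2 (i : b.support) : P.pairing (i : ι) (dl hn0 e (n - 1)) = ((if (e i : ℕ) = 0 ∨ (e i : ℕ) + 1 = n then 1 else if (e i : ℕ) + 2 = n then -1 else 0 : ℤ) : ℚ) := by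
  rw [pair_dl hn hn0 e he (Or.inr rfl), rowD_int2 hn]

include hn he in
theorem orth_dl : P.pairing (dl hn0 e (n - 2)) (dl hn0 e (n - 1)) = 0 := by
  rw [pairing_mc b]
  have h1 : ∀ k : b.support, (mc b k (Sum.inr (dl hn0 e (n - 2))) : ℚ) * P.pairing (k : ι) (dl hn0 e (n - 1)) =
      (if k = en e hn0 0 then 1 else 0) - (if k = en e hn0 (n - 2) then 1 else 0) := by
    intro k
    rw [mc_dl hn hn0 e he (Or.inl rfl), pair_dl2 hn hn0 e he]
    have g1 : k = en e hn0 0 ↔ (e k : ℕ) = 0 := by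
      constructor
      · rintro rfl
        rw [e_en e hn0 0 hn0]
      · intro h
        rw [← h, en_e]
    have g2 : k = en e hn0 (n - 2) ↔ (e k : ℕ) = n - 2 := by
      constructor
      · rintro rfl
        rw [e_en e hn0 (n - 2) (by omega)]
      · intro h
        rw [← h, en_e]
    have hk := (e k).2
    simp only [g1, g2]
    by_cases h0 : (e k : ℕ) = 0
    · rw [if_pos (by omega), if_pos (Or.inl h0), if_pos h0, if_neg (by omega)]
      norm_num
    · by_cases h2 : (e k : ℕ) = n - 2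
      · rw [if_pos (by omega), if_neg (by omega), if_pos (by omega), if_neg h0, if_pos h2]
        norm_num
      · by_cases h3 : (e k : ℕ) + 1 = n
        · rw [if_neg (by omega), if_neg h0, if_neg h2]
          norm_num
        · rw [if_neg (by omega : ¬((e k : ℕ) = 0 ∨ (e k : ℕ) + 1 = n)), if_neg (by omega : ¬(e k : ℕ) + 2 = n), if_neg h0, if_neg h2]
          norm_num
  rw [Finset.sum_congr rfl fun k _ => h1 k, Finset.sum_sub_distrib]
  simp

/-- The word of `w_J`. -/
def wordD : List b.support := pal (en e hn0 (n - 2)) (dn (en e hn0) (n - 2) (n - 2)) ++ pal (en e hn0 (n - 1)) (dn (en e hn0) (n - 2) (n - 2))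

theorem wW_wordD : wW b (wordD hn0 e) = P.reflectionPerm (dl hn0 e (n - 1)) * P.reflectionPerm (dl hn0 e (n - 2)) := by
  unfold wordD dl
  rw [FC.wW_append, wW_pal, wW_pal]

include hn he in
/-- **`w_J = s_δ s_δ'`** for `J = {1}`. -/
theorem isWJ_wordD {J : Finset b.support} (hJ : J.map e.toEmbedding = sB n) : IsWJ b J (wW b (wordD hn0 e)) := by
  have hJm : ∀ i, i ∈ J ↔ (e i : ℕ) = 0 := by
    intro i
    have h1 : i ∈ J ↔ e i ∈ sB n := by
      rw [← hJ, Finset.mem_map_equiv, Equiv.symm_apply_apply]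
    rw [h1, mem_sB]
  have horth := orth_dl hn hn0 e he
  have hmc : ∀ (i k : b.support), ((mc b k (Sum.inr (wW b (wordD hn0 e) (i : ι))) : ℤ) : ℚ) = ((if i = k then 1 else 0 : ℤ) : ℚ) -
      ((if (e i : ℕ) = 0 ∨ (e i : ℕ) + 2 = n then 1 else if (e i : ℕ) + 1 = n then -1 else 0 : ℤ) : ℚ) * ((if (e k : ℕ) < n - 2 ∨ (e k : ℕ) = n - 2 then 1 else 0 : ℤ) : ℚ) -
      ((if (e i : ℕ) = 0 ∨ (e i : ℕ) + 1 = n then 1 else if (e i : ℕ) + 2 = n then -1 else 0 : ℤ) : ℚ) * ((if (e k : ℕ) < n - 2 ∨ (e k : ℕ) = n - 1 then 1 else 0 : ℤ) : ℚ) := by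
    intro i k
    rw [wW_wordD]
    refine (mc_two b horth (i : ι) k).trans ?_
    rw [pair_dl1 hn hn0 e he, pair_dl2 hn hn0 e he, mc_dl hn hn0 e he (Or.inl rfl), mc_dl hn hn0 e he (Or.inr rfl), FC.mc_simple]
  have hik : ∀ i k : b.support, i = k ↔ (e i : ℕ) = (e k : ℕ) := fun i k => by
    rw [← Fin.ext_iff, e.injective.eq_iff]
  have hneg : ∀ i : b.support, i ∈ J → ¬b.IsPos (wW b (wordD hn0 e) (i : ι)) := by
    intro i hi
    have h0 := (hJm i).1 hi
    refine FC.neg_of_one b (k := en e hn0 (n - 1)) ?_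
    have h1 := hmc i (en e hn0 (n - 1))
    have h2 : (e (en e hn0 (n - 1)) : ℕ) = n - 1 := by rw [e_en e hn0 (n - 1) (by omega)]
    rw [if_neg (by rw [hik, h2]; omega), if_pos (by omega), if_neg (by omega), if_pos (by omega), if_pos (by omega)] at h1
    have h3 : ((mc b (en e hn0 (n - 1)) (Sum.inr (wW b (wordD hn0 e) (i : ι))) : ℤ) : ℚ) = -1 := by
      rw [h1]
      norm_num
    have h4 : mc b (en e hn0 (n - 1)) (Sum.inr (wW b (wordD hn0 e) (i : ι))) = -1 := by exact_mod_cast h3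
    omega
  have hsim : ∀ i : b.support, i ∉ J → ∃ j : b.support, wW b (wordD hn0 e) (i : ι) = (j : ι) := by
    intro i hi
    have h0 : (e i : ℕ) ≠ 0 := fun h => hi ((hJm i).2 h)
    have hin := (e i).2
    rcases Nat.lt_trichotomy ((e i : ℕ) + 2) n with h5 | h5 | h5
    · refine ⟨i, FC.root_ext b fun k => ?_⟩
      have h1 := hmc i k
      rw [if_neg (by omega : ¬((e i : ℕ) = 0 ∨ (e i : ℕ) + 2 = n)), if_neg (by omega : ¬(e i : ℕ) + 1 = n), if_neg (by omega : ¬((e i : ℕ) = 0 ∨ (e i : ℕ) + 1 = n)), if_neg (by omega : ¬(e i : ℕ) + 2 = n)] at h1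
      rw [FC.mc_simple]
      have h2 : ((mc b k (Sum.inr (wW b (wordD hn0 e) (i : ι))) : ℤ) : ℚ) = ((if i = k then 1 else 0 : ℤ) : ℚ) := by
        rw [h1]
        push_cast
        ring
      exact_mod_cast h2
    · refine ⟨en e hn0 (n - 1), FC.root_ext b fun k => ?_⟩
      have h1 := hmc i k
      have hk := (e k).2
      rw [if_pos (Or.inr h5), if_neg (by omega : ¬((e i : ℕ) = 0 ∨ (e i : ℕ) + 1 = n)), if_pos h5] at h1
      have h6 : (e (en e hn0 (n - 1)) : ℕ) = n - 1 := by rw [e_en e hn0 (n - 1) (by omega)]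
      rw [FC.mc_simple]
      have h2 : ((mc b k (Sum.inr (wW b (wordD hn0 e) (i : ι))) : ℤ) : ℚ) = ((if en e hn0 (n - 1) = k then 1 else 0 : ℤ) : ℚ) := by
        rw [h1]
        have h7 : i = k ↔ (e k : ℕ) + 2 = n := by
          rw [hik]
          omega
        have h8 : en e hn0 (n - 1) = k ↔ (e k : ℕ) + 1 = n := by
          rw [hik, h6]
          omega
        simp only [h7, h8]
        rcases Nat.lt_trichotomy ((e k : ℕ) + 2) n with h9 | h9 | h9
        · rw [if_neg (by omega), if_pos (by omega), if_pos (by omega), if_neg (by omega)]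
          norm_num
        · rw [if_pos h9, if_pos (by omega), if_neg (by omega), if_neg (by omega)]
          norm_num
        · rw [if_neg (by omega), if_neg (by omega), if_pos (by omega), if_pos (by omega)]
          norm_num
      exact_mod_cast h2
    · refine ⟨en e hn0 (n - 2), FC.root_ext b fun k => ?_⟩
      have h1 := hmc i k
      have hk := (e k).2
      rw [if_neg (by omega : ¬((e i : ℕ) = 0 ∨ (e i : ℕ) + 2 = n)), if_pos (by omega : (e i : ℕ) + 1 = n), if_pos (by omega : ((e i : ℕ) = 0 ∨ (e i : ℕ) + 1 = n))] at h1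
      have h6 : (e (en e hn0 (n - 2)) : ℕ) = n - 2 := by rw [e_en e hn0 (n - 2) (by omega)]
      rw [FC.mc_simple]
      have h2 : ((mc b k (Sum.inr (wW b (wordD hn0 e) (i : ι))) : ℤ) : ℚ) = ((if en e hn0 (n - 2) = k then 1 else 0 : ℤ) : ℚ) := by
        rw [h1]
        have h7 : i = k ↔ (e k : ℕ) + 1 = n := by
          rw [hik]
          omega
        have h8 : en e hn0 (n - 2) = k ↔ (e k : ℕ) + 2 = n := by
          rw [hik, h6]
          omega
        simp only [h7, h8]
        rcases Nat.lt_trichotomy ((e k : ℕ) + 2) n with h9 | h9 | h9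
        · rw [if_neg (by omega), if_pos (by omega), if_pos (by omega), if_neg (by omega)]
          norm_num
        · rw [if_neg (by omega), if_pos (by omega), if_neg (by omega), if_pos h9]
          norm_num
        · rw [if_pos (by omega), if_neg (by omega), if_pos (by omega), if_neg (by omega)]
          norm_num
      exact_mod_cast h2
  have h2 := FC.isWJ_of (b := b) (FC.wW_mem b (wordD hn0 e)) fun i hi hp => by
    by_cases hJi : (⟨i, hi⟩ : b.support) ∈ J
    · exact absurd hp (hneg ⟨i, hi⟩ hJi)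
    · obtain ⟨j, hj⟩ := hsim ⟨i, hi⟩ hJi
      have hj' : wW b (wordD hn0 e) i = (j : ι) := hj
      rw [hj']
      exact j.2
  have h3 : FC.Jw b (wW b (wordD hn0 e)) = J := by
    ext i
    rw [FC.mem_Jw]
    constructor
    · intro h4
      by_contra h5
      obtain ⟨j, hj⟩ := hsim i h5
      rw [hj] at h4
      exact h4 (b.isPos_of_mem_support j.2)
    · exact hneg i
  rw [h3] at h2
  exact h2

include hn he in
theorem inv_wordD : (wW b (wordD hn0 e))⁻¹ = wW b (wordD hn0 e) := by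
  have h1 := orth_dl hn hn0 e he
  have h2 : P.pairing (dl hn0 e (n - 1)) (dl hn0 e (n - 2)) = 0 := P.pairing_eq_zero_iff.1 h1
  rw [wW_wordD, _root_.mul_inv_rev, P.reflectionPerm_inv, P.reflectionPerm_inv]
  exact (rf_comm b h1 h2).symm

include hn he in
/-- **A minor of size `2`.** -/
theorem kr_wordD : KR b (wW b (wordD hn0 e)) 2 := by
  have h1 := orth_dl hn hn0 e he
  have hsym : ∀ (γ : ℕ), (γ = n - 2 ∨ γ = n - 1) → ∀ i : b.support, P.pairing (dl hn0 e γ) (i : ι) = P.pairing (i : ι) (dl hn0 e γ) := by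
    intro γ hγ i
    rw [pair_dl hn hn0 e he hγ, pairing_mc b, ← Equiv.sum_comp e.symm]
    push_cast
    refine Finset.sum_congr rfl fun k _ => ?_
    rw [mc_dl hn hn0 e he hγ, Equiv.apply_symm_apply]
    have h3 : P.pairing ((e.symm k : b.support) : ι) (i : ι) = ((CartanMatrix.D n (e i) k : ℤ) : ℚ) := by
      have h4 := he (e.symm k) i
      rw [Equiv.apply_symm_apply] at h4
      have h5 : CartanMatrix.D n k (e i) = CartanMatrix.D n (e i) k := ((CartanMatrix.D_isSymm n).apply _ _)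
      rw [h5] at h4
      rw [← h4]
      exact (P.algebraMap_pairingIn ℤ _ _).symm
    rw [h3]
    push_cast
    ring
  have hpk : ∀ g i : b.support, ((pK b (wW b (wordD hn0 e)) g i : ℤ) : ℚ) = P.pairing (g : ι) (dl hn0 e (n - 2)) * P.pairing (i : ι) (dl hn0 e (n - 2)) + P.pairing (g : ι) (dl hn0 e (n - 1)) * P.pairing (i : ι) (dl hn0 e (n - 1)) := by
    intro g i
    have h3 : ((pK b (wW b (wordD hn0 e)) g i : ℤ) : ℚ) = P.pairing (g : ι) (i : ι) - P.pairing ((wW b (wordD hn0 e))⁻¹ (g : ι)) (i : ι) := by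
      have h4 : pK b (wW b (wordD hn0 e)) g i = P.pairingIn ℤ (g : ι) (i : ι) - P.pairingIn ℤ ((wW b (wordD hn0 e))⁻¹ (g : ι)) (i : ι) := rfl
      have h5 : ((P.pairingIn ℤ (g : ι) (i : ι) : ℤ) : ℚ) = P.pairing (g : ι) (i : ι) := P.algebraMap_pairingIn ℤ _ _
      have h6 : ((P.pairingIn ℤ ((wW b (wordD hn0 e))⁻¹ (g : ι)) (i : ι) : ℤ) : ℚ) = P.pairing ((wW b (wordD hn0 e))⁻¹ (g : ι)) (i : ι) := P.algebraMap_pairingIn ℤ _ _
      rw [h4]
      push_cast
      rw [h5, h6]
    rw [h3, inv_wordD hn hn0 e he, wW_wordD]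
    show P.pairing (g : ι) (i : ι) - P.pairing (P.reflectionPerm (dl hn0 e (n - 1)) (P.reflectionPerm (dl hn0 e (n - 2)) (g : ι))) (i : ι) = _
    rw [pairing_rf, pairing_rf, pairing_rf, h1, hsym _ (Or.inl rfl), hsym _ (Or.inr rfl)]
    ring
  have f0 : (e (en e hn0 0) : ℕ) = 0 := by rw [e_en e hn0 0 hn0]
  have f1 : (e (en e hn0 (n - 1)) : ℕ) = n - 1 := by rw [e_en e hn0 (n - 1) (by omega)]
  have p0 : P.pairing ((en e hn0 0 : b.support) : ι) (dl hn0 e (n - 2)) = 1 := by
    rw [pair_dl1 hn hn0 e he, if_pos (Or.inl f0)]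
    norm_num
  have p0' : P.pairing ((en e hn0 0 : b.support) : ι) (dl hn0 e (n - 1)) = 1 := by
    rw [pair_dl2 hn hn0 e he, if_pos (Or.inl f0)]
    norm_num
  have p1 : P.pairing ((en e hn0 (n - 1) : b.support) : ι) (dl hn0 e (n - 2)) = -1 := by
    rw [pair_dl1 hn hn0 e he, if_neg (by omega), if_pos (by omega)]
    norm_num
  have p1' : P.pairing ((en e hn0 (n - 1) : b.support) : ι) (dl hn0 e (n - 1)) = 1 := by
    rw [pair_dl2 hn hn0 e he, if_pos (by omega)]
    norm_num
  have k00 : pK b (wW b (wordD hn0 e)) (en e hn0 0) (en e hn0 0) = 2 := by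
    have := hpk (en e hn0 0) (en e hn0 0)
    rw [p0, p0'] at this
    norm_num at this
    exact_mod_cast this
  have k01 : pK b (wW b (wordD hn0 e)) (en e hn0 0) (en e hn0 (n - 1)) = 0 := by
    have := hpk (en e hn0 0) (en e hn0 (n - 1))
    rw [p0, p0', p1, p1'] at this
    norm_num at this
    exact_mod_cast this
  have k11 : pK b (wW b (wordD hn0 e)) (en e hn0 (n - 1)) (en e hn0 (n - 1)) = 2 := by
    have := hpk (en e hn0 (n - 1)) (en e hn0 (n - 1))
    rw [p1, p1'] at this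
    norm_num at this
    exact_mod_cast this
  refine ⟨![en e hn0 0, en e hn0 (n - 1)], ![en e hn0 0, en e hn0 (n - 1)], ?_⟩
  rw [Matrix.det_fin_two]
  show pK b (wW b (wordD hn0 e)) (en e hn0 0) (en e hn0 0) * pK b (wW b (wordD hn0 e)) (en e hn0 (n - 1)) (en e hn0 (n - 1)) -
    pK b (wW b (wordD hn0 e)) (en e hn0 0) (en e hn0 (n - 1)) * pK b (wW b (wordD hn0 e)) (en e hn0 (n - 1)) (en e hn0 0) ≠ 0
  rw [k00, k01, k11]
  norm_num

end typeD

/-- **Type `D_n`**: `rank + 2` for `{1}`, `rank + 1` for the other sets. -/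
theorem ineqR_Dn {n : ℕ} (hn : 4 ≤ n) (h : Typ b (CartanMatrix.D n)) {D : ℝ} (h1 : ∀ S : Finset (Fin n), S.Nonempty → S ≠ sB n → SqT (CartanMatrix.D n) id D ((n : ℝ) + 1) S)
    (h2 : SqT (CartanMatrix.D n) id D ((n : ℝ) + 2) (sB n)) : IneqR b D (nuB b) := by
  have hcard := typ_card h
  obtain ⟨e, he⟩ := h
  have hn0 : 0 < n := by omega
  have hwJ : ∀ (J : Finset b.support) (w : Equiv.Perm ι), IsWJ b J w → J.map e.toEmbedding = sB n → w = wW b (wordD hn0 e) := fun J w hw hS => FC.isWJ_unique hw (isWJ_wordD hn hn0 e he hS)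
  refine ineqR_of fun J hJ w hw => ⟨_, ?_, inJ_two_of e he (fun J w hw hS => by
    rw [hwJ J w hw hS]
    exact inv_wordD hn hn0 e he) h2 h1 hJ hw⟩
  have hC : IsC b w := ⟨J, hJ, hw⟩
  split_ifs with hS
  · have h3 := le_nuB' hC (r := 2) (by
      rw [hwJ J w hw hS]
      exact kr_wordD hn hn0 e he)
    rw [hcard] at h3
    push_cast at h3
    exact h3
  · have h3 := rank_nuB hC
    rw [hcard] at h3
    exact h3

end

end Pool.Agent.Lib.L8.FN
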